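import Mathlib
import Pool.Agent.RVP.Defs
import Pool.Agent.RVP.Bas
import Pool.Agent.RVP.Wt

/-!
# RVS: the CM certificate for discriminant -15 (MP_870c49, project RV15)

`K = ℚ(√-15)`, `tau = (-3+√-15)/6`, `M = ℤ tau + ℤ = P3⁻¹`, `O = 3ℤ tau + ℤ`, coordinates `(m, n) ↦ m tau + n`.
Kernel (three lines `p`, `q`, `-(p+q)`; `X = (P, Q)` formal): `KS = SS * hh`,
`SS = (p̄ q - p q̄)/|p q r|²`, `hh` = complete homogeneous polynomial of degree 2 in `P/p, Q/q, R/r` (`r = p+q`, `R = P+Q`).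
Goal (RVS/Main): `RVP.D2 (√15/6) = (45/4) Lam_O - (5/12) Lam_M`.

Types of lattices `c a b d`: `c = 1` : `p, q ∈ M`, `c = 0` : `p, q ∈ O`; `a` condition at `P2` (`n` even), `b` condition
at `P2bar` (`m + n` even), `d` condition at `P3`; value `0` no condition, `1` for `p`, `2` for `q`, `3` for `p + q`,
`4` for `p - q`.
-/

set_option autoImplicit false

open scoped ComplexConjugate

namespace RVS

noncomputable section

/-- pairs of lattice points -/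
abbrev V4 := (ℤ × ℤ) × (ℤ × ℤ)

/-- `√15/6` -/
def y0 : ℝ := Real.sqrt 15 / 6

/-- `m tau + n` -/
def em (v : ℤ × ℤ) : ℂ := RVP.pt y0 v

/-- `(-3+√-15)/6` -/
def tau : ℂ := em (1, 0)

/-- `(p̄ q - p q̄)/|p q r|²` -/
def SS (p q : ℂ) : ℂ :=
  (conj p * q - p * conj q) *
    ((p⁻¹ * (conj p)⁻¹) * (q⁻¹ * (conj q)⁻¹) * ((p + q)⁻¹ * (conj (p + q))⁻¹))

/-- complete homogeneous polynomial of degree 2 in three variables -/
def h2 (x y z : ℂ) : ℂ := x ^ 2 + y ^ 2 + z ^ 2 + x * y + x * z + y * z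

/-- the kernel -/
def KS (p q P Q : ℂ) : ℂ := SS p q * h2 (P * p⁻¹) (Q * q⁻¹) ((P + Q) * (p + q)⁻¹)

/-- coefficients of `P²`, `P Q`, `Q²` -/
def k0 (p q : ℂ) : ℂ := SS p q * (p⁻¹ ^ 2 + (p + q)⁻¹ ^ 2 + p⁻¹ * (p + q)⁻¹)
def k1 (p q : ℂ) : ℂ :=
  SS p q * (2 * (p + q)⁻¹ ^ 2 + p⁻¹ * q⁻¹ + p⁻¹ * (p + q)⁻¹ + q⁻¹ * (p + q)⁻¹)
def k2 (p q : ℂ) : ℂ := SS p q * (q⁻¹ ^ 2 + (p + q)⁻¹ ^ 2 + q⁻¹ * (p + q)⁻¹)

/-- `t⁻⁴ t̄⁻²` -/
def KL (t : ℂ) : ℂ := t⁻¹ ^ 4 * (conj t)⁻¹ ^ 2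

/-- `Σ t⁻⁴ t̄⁻²` over `M` and over `O` -/
def LamM : ℂ := ∑' v : ℤ × ℤ, KL (em v)
def LamO : ℂ := ∑' v : ℤ × ℤ, KL (em (3 * v.1, v.2))

/-- the linear forms of the conditions -/
def ln (j : ℕ) (x : V4) : ℤ × ℤ :=
  match j with
  | 0 => 0
  | 1 => x.1
  | 2 => x.2
  | 3 => x.1 + x.2
  | _ => x.1 - x.2

/-- condition at `P2` -/
def cA (a : ℕ) (x : V4) : Prop := (ln a x).2 % 2 = 0
/-- condition at `P2bar` -/
def cB (b : ℕ) (x : V4) : Prop := ((ln b x).1 + (ln b x).2) % 2 = 0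
/-- class and condition at `P3` -/
def cC (c d : ℕ) (x : V4) : Prop :=
  if c = 1 then (ln d x).1 % 3 = 0 else x.1.1 % 3 = 0 ∧ x.2.1 % 3 = 0 ∧ (ln d x).2 % 3 = 0

instance (a : ℕ) (x : V4) : Decidable (cA a x) := by unfold cA; infer_instance
instance (b : ℕ) (x : V4) : Decidable (cB b x) := by unfold cB; infer_instance
instance (c d : ℕ) (x : V4) : Decidable (cC c d x) := by unfold cC; infer_instance

/-- indicator of the lattice of type `c a b d` -/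
def ind (c a b d : ℕ) (x : V4) : ℂ := if cA a x ∧ cB b x ∧ cC c d x then 1 else 0

/-- the lattice sums -/
def T0 (c a b d : ℕ) : ℂ := ∑' x : V4, ind c a b d x * k0 (em x.1) (em x.2)
def T1 (c a b d : ℕ) : ℂ := ∑' x : V4, ind c a b d x * k1 (em x.1) (em x.2)
def T2 (c a b d : ℕ) : ℂ := ∑' x : V4, ind c a b d x * k2 (em x.1) (em x.2)

/-- the quadratic form -/
def TT (c a b d : ℕ) (P Q : ℂ) : ℂ := P ^ 2 * T0 c a b d + P * Q * T1 c a b d + Q ^ 2 * T2 c a b d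

end

end RVS
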