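import Pool.Agent.RVS.Defs

/-!
# RVS/LinkP: the canonical kernel and the kernel of RVP, pointwise

With `u = 1/p, v = 1/q, w = 1/r` (`r = p+q`, bars for the conjugates), for `p, q, r ≠ 0`:
`-(1/4) S (2v² + vw - uv - uw) = u²w²ūv̄ - ½ (u²w²ūw̄ + v²w²v̄w̄ + u²v²ūv̄) + ½ v³v̄ (uū - ww̄)`, `S = (p̄q - pq̄) uūvv̄ww̄`
(checked numerically).  PROOF for nonzero `p q r`: replace `conj p, conj q` by independent variables `p' q'` (`p'+q' ≠ 0`),
`field_simp; ring`.  If one of `p, q, r` is `0` all terms vanish (note the factors `nz`).  See `RVP/B51.pt51`, `RVP/B33.pt33`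
for the same kind of proof.
-/

set_option autoImplicit false

open scoped ComplexConjugate

namespace RVS

open RVP

noncomputable section

/-- `t⁻² t̄⁻¹` -/
def EE (y : ℝ) (v : ℤ × ℤ) : ℂ := iv y v ^ 2 * ic y v

/-- the component `2 k2 - k1` of the kernel -/
def K13 (y : ℝ) (x : V4) : ℂ := 2 * k2 (pt y x.1) (pt y x.2) - k1 (pt y x.1) (pt y x.2)

/-- the products of type `E21 E21`, without degenerate terms -/
def KE (y : ℝ) (x : V4) : ℂ :=
  nz x.2 * (EE y x.1 * EE y (x.1 + x.2)) + nz x.1 * (EE y x.2 * EE y (x.1 + x.2))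
    + nz (x.1 + x.2) * (EE y x.1 * EE y x.2)

/-- the last term -/
def KJ (y : ℝ) (x : V4) : ℂ :=
  iv y x.2 ^ 3 * ic y x.2 * (iv y x.1 * ic y x.1 - iv y (x.1 + x.2) * ic y (x.1 + x.2))

end

variable {y : ℝ}

private theorem LinkP_field {p q p' q' : ℂ} (hp : p ≠ 0) (hq : q ≠ 0) (hr : p + q ≠ 0)
    (hp' : p' ≠ 0) (hq' : q' ≠ 0) (hr' : p' + q' ≠ 0) :
    -(1 / 4) * ((p' * q - p * q') * ((p⁻¹ * p'⁻¹) * (q⁻¹ * q'⁻¹) * ((p + q)⁻¹ * (p' + q')⁻¹))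
        * (2 * q⁻¹ ^ 2 + q⁻¹ * (p + q)⁻¹ - p⁻¹ * q⁻¹ - p⁻¹ * (p + q)⁻¹)) =
      p⁻¹ ^ 2 * p'⁻¹ * ((p + q)⁻¹ ^ 2 * q'⁻¹)
        - 1 / 2 * (p⁻¹ ^ 2 * p'⁻¹ * ((p + q)⁻¹ ^ 2 * (p' + q')⁻¹)
          + q⁻¹ ^ 2 * q'⁻¹ * ((p + q)⁻¹ ^ 2 * (p' + q')⁻¹)
          + p⁻¹ ^ 2 * p'⁻¹ * (q⁻¹ ^ 2 * q'⁻¹))
        + 1 / 2 * (q⁻¹ ^ 3 * q'⁻¹ * (p⁻¹ * p'⁻¹ - (p + q)⁻¹ * (p' + q')⁻¹)) := by
  field_simp
  ring

theorem K13_eq (hy : 0 < y) (x : V4) :
    -(1 / 4) * K13 y x = KK y x - 1 / 2 * KE y x + 1 / 2 * (nz x.1 * nz (x.1 + x.2) * KJ y x) := by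
  obtain ⟨v, w⟩ := x
  simp only [K13, KE, KJ, KK, EE, k1, k2, SS]
  by_cases h1 : v = 0
  · subst h1
    have h0 : pt y 0 = 0 := (pt_eq_zero hy).2 rfl
    simp [iv_zero, ic_zero, nz, h0]
  · by_cases h2 : w = 0
    · subst h2
      have h0 : pt y 0 = 0 := (pt_eq_zero hy).2 rfl
      simp [iv_zero, ic_zero, nz, h0]
    · by_cases h3 : v + w = 0
      · have h0 : pt y v + pt y w = 0 := by
          rw [← pt_add]
          exact (pt_eq_zero hy).2 h3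
        rw [h3]
        simp [iv_zero, ic_zero, nz, h0]
      · have hp : pt y v ≠ 0 := fun h => h1 ((pt_eq_zero hy).1 h)
        have hq : pt y w ≠ 0 := fun h => h2 ((pt_eq_zero hy).1 h)
        have hr : pt y v + pt y w ≠ 0 := by
          rw [← pt_add]
          exact fun h => h3 ((pt_eq_zero hy).1 h)
        have hp' : conj (pt y v) ≠ 0 := by simpa using hp
        have hq' : conj (pt y w) ≠ 0 := by simpa using hq
        have hr' : conj (pt y v) + conj (pt y w) ≠ 0 := by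
          rw [← map_add]
          exact (map_ne_zero _).2 hr
        have e := LinkP_field hp hq hr hp' hq' hr'
        simp only [nz, if_neg h1, if_neg h2, if_neg h3, iv, ic, pt_add, map_add]
        linear_combination e

end RVS
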