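import Pool.Agent.RVS.Sym

/-!
# RVS/Ideal: the single sums over the ideals `P2^i P2bar^j P3^(k-1)`
-/

set_option autoImplicit false

open scoped ComplexConjugate

namespace RVS

theorem em_KL_sum : Summable fun v : ℤ × ℤ => ‖KL (em v)‖ := by
  have h := RVP.summable_iv3 y0_pos
  refine Summable.of_nonneg_of_le (fun v => norm_nonneg _) (fun v => ?_)
    (h.mul_left ((1 + 1 / y0) ^ 3))
  have h1 : ‖KL (em v)‖ = ‖RVP.iv y0 v‖ ^ 3 * ‖RVP.iv y0 v‖ ^ 3 := by
    unfold KL RVP.iv em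
    simp only [norm_mul, norm_pow, norm_inv, RCLike.norm_conj]
    ring
  rw [h1]
  have h2 := RVP.norm_iv_le' y0_pos v
  exact mul_le_mul_of_nonneg_right (pow_le_pow_left₀ (norm_nonneg _) h2 3) (by positivity)

theorem LamM_hasSum : HasSum (fun v : ℤ × ℤ => KL (em v)) LamM := em_KL_sum.of_norm.hasSum

theorem em3_inj : Function.Injective fun v : ℤ × ℤ => ((3 * v.1, v.2) : ℤ × ℤ) := by
  intro v w h
  simp only [Prod.mk.injEq] at h
  ext
  · omega
  · exact h.2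

theorem LamO_hasSum : HasSum (fun v : ℤ × ℤ => KL (em (3 * v.1, v.2))) LamO :=
  (em_KL_sum.of_norm.comp_injective em3_inj).hasSum

/-- indicator of the ideal `P2^i P2bar^j P3^(k-1)` -/
noncomputable def idl (i j k : ℕ) (s : ℤ × ℤ) : ℂ :=
  if (i = 0 ∨ s.2 % 2 = 0) ∧ (j = 0 ∨ (s.1 + s.2) % 2 = 0) ∧ (k = 0 ∨ s.1 % 3 = 0) ∧
    (k ≤ 1 ∨ s.2 % 3 = 0) then 1 else 0

/-- value of the single sum -/
noncomputable def LL (i j k : ℕ) : ℂ :=
  (if i = 0 then (if j = 0 then 1 else KL (conj tau)) else (if j = 0 then KL tau else KL 2)) *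
  (if k = 0 then (if (i + j) % 2 = 0 then LamM else LamO)
   else if k = 1 then (if (i + j) % 2 = 0 then LamO else KL 3 * LamM)
   else KL 3 * (if (i + j) % 2 = 0 then LamM else LamO))

theorem KL_mul (x y : ℂ) : KL (x * y) = KL x * KL y := by
  unfold KL
  rw [map_mul, mul_inv, mul_inv]
  ring

theorem pushI {G : ℤ × ℤ → ℤ × ℤ} (hG : Function.Injective G) {c : ℤ × ℤ → ℂ}
    (h1 : ∀ n, c (G n) = 1) (h2 : ∀ y, c y ≠ 0 → ∃ n, G n = y) {f : ℤ × ℤ → ℂ} {S : ℂ}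
    (hS : HasSum (fun n => f (G n)) S) : HasSum (fun y => c y * f y) S := by
  have h := hG.hasSum_iff (f := fun y => c y * f y) (a := S) (fun y hy => by
    by_contra hne
    have hc : c y ≠ 0 := fun h0 => hne (by simp [h0])
    obtain ⟨n, hn⟩ := h2 y hc
    exact hy ⟨n, hn⟩)
  rw [← h]
  have e : ((fun y => c y * f y) ∘ G) = fun n => f (G n) := by
    funext n
    simp [h1]
  rw [e]
  exact hS

/-- an ideal given as `ρ M` -/
theorem idM (i j k : ℕ) {G : ℤ × ℤ → ℤ × ℤ} (hG : Function.Injective G) (ρ : ℂ)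
    (h1 : ∀ n, idl i j k (G n) = 1) (h2 : ∀ y, idl i j k y ≠ 0 → ∃ n, G n = y)
    (e : ∀ n, em (G n) = ρ * em n) :
    HasSum (fun s => idl i j k s * KL (em s)) (KL ρ * LamM) := by
  refine pushI hG h1 h2 ?_
  simp only [e, KL_mul]
  exact LamM_hasSum.mul_left _

/-- an ideal given as `ρ O` -/
theorem idO (i j k : ℕ) {G : ℤ × ℤ → ℤ × ℤ} (hG : Function.Injective G) (ρ : ℂ)
    (h1 : ∀ n, idl i j k (G n) = 1) (h2 : ∀ y, idl i j k y ≠ 0 → ∃ n, G n = y)
    (e : ∀ n, em (G n) = ρ * em (3 * n.1, n.2)) :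
    HasSum (fun s => idl i j k s * KL (em s)) (KL ρ * LamO) := by
  refine pushI hG h1 h2 ?_
  simp only [e, KL_mul]
  exact LamO_hasSum.mul_left _

theorem id000 : HasSum (fun s => idl 0 0 0 s * KL (em s)) (LL 0 0 0) := by
  have h := idM 0 0 0 (G := fun n => n) (fun _ _ h => h) 1 (fun n => by simp [idl])
    (fun y _ => ⟨y, rfl⟩) (fun n => by simp)
  simpa [LL, KL] using h

end RVS
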