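import Pool.Agent.RVS.Inst
import Pool.Agent.RVS.Ideal

/-!
# RVS/Kap: closed forms of the contact terms
-/

set_option autoImplicit false

open scoped ComplexConjugate

namespace RVS

theorem KS_num {p q u v w : ℂ} (hu : p * u = 1) (hv : q * v = 1) (hw : (p + q) * w = 1)
    (P Q : ℂ) : KS p q P Q = (conj p * q - p * conj q) *
      ((u * conj u) * (v * conj v) * (w * conj w)) * h2 (P * u) (Q * v) ((P + Q) * w) := by
  have e1 : p⁻¹ = u := inv_eq_of_mul_eq_one_right hu
  have e2 : q⁻¹ = v := inv_eq_of_mul_eq_one_right hv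
  have e3 : (p + q)⁻¹ = w := inv_eq_of_mul_eq_one_right hw
  unfold KS SS
  rw [← map_inv₀, ← map_inv₀, ← map_inv₀, e1, e2, e3]

section
variable {lam lb mu nu n1 n2 : ℂ} (hlb : conj lam = lb) (hmu : lam * mu = 1)
  (hnu : (1 - lam) * nu = 1) (hn1 : lam * lb = n1) (hn2 : (1 - lam) * (1 - lb) = n2)
include hlb hmu hnu hn1 hn2

theorem Kap_mu : mu * conj mu * n1 = 1 := by
  have h := congrArg conj hmu
  rw [map_mul, map_one, hlb] at h
  rw [← hn1]
  linear_combination mu * lam * h + hmu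

theorem Kap_nu : nu * conj nu * n2 = 1 := by
  have h := congrArg conj hnu
  rw [map_mul, map_sub, map_one, hlb] at h
  rw [← hn2]
  linear_combination nu * (1 - lam) * h + hnu

theorem kap1_eq (P Q : ℂ) : kap1 lam P Q = -((lam - lb) * h2 Q (P + Q) (lam * P + Q)) := by
  have hm := Kap_mu hlb hmu hnu hn1 hn2
  have hn := Kap_nu hlb hmu hnu hn1 hn2
  have hw : ((1 - lam) + lam) * 1 = 1 := by ring
  unfold kap1 nn
  rw [KS_num hnu hmu hw, map_sub, map_one, hlb, hn1, hn2]
  have e1 : (1 - lam) * Q * nu = Q := by linear_combination Q * hnu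
  have e2 : lam * (P + Q) * mu = P + Q := by linear_combination (P + Q) * hmu
  have e3 : ((1 - lam) * Q + lam * (P + Q)) * 1 = lam * P + Q := by ring
  rw [e1, e2, e3]
  have e4 : ((1 - lb) * lam - (1 - lam) * lb) = lam - lb := by ring
  rw [e4]
  linear_combination (-((lam - lb) * h2 Q (P + Q) (lam * P + Q)) * (nu * conj nu * n2)) * hm
    + (-((lam - lb) * h2 Q (P + Q) (lam * P + Q))) * hn

theorem kap2_eq (P Q : ℂ) :
    kap2 lam P Q * n1 = -((lam - lb) * h2 P (P + Q) (P + Q * mu)) := by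
  have hm := Kap_mu hlb hmu hnu hn1 hn2
  have hn := Kap_nu hlb hmu hnu hn1 hn2
  have hv : (-1 : ℂ) * (-1) = 1 := by ring
  have hw : ((1 - lam) + -1) * (-mu) = 1 := by linear_combination hmu
  unfold kap2 nn
  rw [KS_num hnu hv hw, map_sub, map_one, map_neg, map_neg, map_one, hlb, hn2]
  have e1 : (1 - lam) * P * nu = P := by linear_combination P * hnu
  have e2 : -(P + Q) * -1 = P + Q := by ring
  have e3 : ((1 - lam) * P + -(P + Q)) * -mu = P + Q * mu := by linear_combination P * hmu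
  rw [e1, e2, e3]
  linear_combination (-((lam - lb) * h2 P (P + Q) (P + Q * mu)) * (nu * conj nu * n2)) * hm
    + (-((lam - lb) * h2 P (P + Q) (P + Q * mu))) * hn

theorem kap3_eq (P Q : ℂ) :
    kap3 lam P Q * n2 = -((lam - lb) * h2 P (-Q) (-((lam * P + Q) * nu))) := by
  have hm := Kap_mu hlb hmu hnu hn1 hn2
  have hn := Kap_nu hlb hmu hnu hn1 hn2
  have hv : (-1 : ℂ) * (-1) = 1 := by ring
  have hw : (lam + -1) * (-nu) = 1 := by linear_combination hnu
  unfold kap3 nn
  rw [KS_num hmu hv hw, map_neg, map_neg, map_one, hlb, hn1]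
  have e1 : lam * P * mu = P := by linear_combination P * hmu
  have e2 : Q * -1 = -Q := by ring
  have e3 : (lam * P + Q) * -nu = -((lam * P + Q) * nu) := by ring
  rw [e1, e2, e3]
  linear_combination (-((lam - lb) * h2 P (-Q) (-((lam * P + Q) * nu))) * (nu * conj nu * n2)) * hm
    + (-((lam - lb) * h2 P (-Q) (-((lam * P + Q) * nu)))) * hn

theorem kap4_eq (P Q : ℂ) :
    kap4 lam P Q * (n1 * n2) = -((lam - lb) * h2 P (-(Q * mu)) ((P + Q) * nu)) := by
  have hm := Kap_mu hlb hmu hnu hn1 hn2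
  have hn := Kap_nu hlb hmu hnu hn1 hn2
  have hu : (1 : ℂ) * 1 = 1 := by ring
  have hv : (-lam) * (-mu) = 1 := by linear_combination hmu
  have hw : (1 + -lam) * nu = 1 := by linear_combination hnu
  unfold kap4
  rw [KS_num hu hv hw, map_neg, map_neg, map_one, hlb]
  have e1 : P * 1 = P := by ring
  have e2 : Q * -mu = -(Q * mu) := by ring
  rw [e1, e2]
  linear_combination (-((lam - lb) * h2 P (-(Q * mu)) ((P + Q) * nu)) * (nu * conj nu * n2)) * hm
    + (-((lam - lb) * h2 P (-(Q * mu)) ((P + Q) * nu))) * hn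

end

theorem KL_eq {ρ s r : ℂ} (hs : conj ρ = s) (h : ρ ^ 4 * s ^ 2 * r = 1) : KL ρ = r := by
  have h0 : ρ ≠ 0 := by
    rintro rfl
    simp at h
  have h1 : s ≠ 0 := by
    rintro rfl
    simp at h
  unfold KL
  rw [hs]
  field_simp
  linear_combination -h

end RVS
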