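import Pool.Agent.RVS.Sym

/-!
# RVS/Hecke: distribution relations at `P2`, `P2bar`, `P3`

The conditions at `P2` for the three lines `p`, `q`, `p+q` : number of them satisfied is `3` if `p, q ∈ P2`, else `1`, so
pointwise `ind c 1 b d + ind c 2 b d + ind c 3 b d = ind c 0 b d + 2 * ind c 0 b d * [x.1.2 even and x.2.2 even]`
(`omega` after `split_ifs`); same at `P2bar` (`m+n` even); at `P3` four lines `1,2,3,4` and `[..] * 3`.
The last term is the sum over `(P2 L)²`, `P2 L = ρ L'`, `L'` the other class: with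
`P2`,  class 1 : `ρ = tau`,         `em (b - 3a, -2a) = tau * em (3a, b)`          (class 0 on the right)
`P2`,  class 0 : `ρ = 3 tau`,       `em (3(b-a), -2a) = 3 tau * em (a, b)`         (class 1 on the right)
`P2b`, class 1 : `ρ = conj tau`,    `em (-b, 2a - b) = conj tau * em (3a, b)`
`P2b`, class 0 : `ρ = 3 conj tau`,  `em (-3b, 2a - 3b) = 3 conj tau * em (a, b)`
`P3`,  class 1 : the sum over `O²` is `TT 0 a b 0` itself;  class 0 : `ρ = 3`, `em (3a, 3b) = 3 em (a,b)`.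
PROOF of the scaling: `pushw` twice (once for `n ↦ ρ·n`, once for the basis of the class on the right), `KS_scale`; the
weights: for `n = ((a,b),(a',b'))`, `ind c 0 b d (G2 n) = ind c' 0 b d (G1 n)`, `interval_cases` on `b`, `d`, `omega`.
-/

set_option autoImplicit false

open scoped ComplexConjugate

namespace RVS

theorem pushw {G : V4 → V4} (hG : Function.Injective G) {c w : V4 → ℂ} (h1 : ∀ n, c (G n) = w n)
    (h2 : ∀ y, c y ≠ 0 → ∃ n, G n = y) (f : V4 → ℂ) (S : ℂ) :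
    HasSum (fun n => w n * f (G n)) S ↔ HasSum (fun y => c y * f y) S := by
  have h := hG.hasSum_iff (f := fun y => c y * f y) (a := S) (fun y hy => by
    by_contra hne
    have hc : c y ≠ 0 := fun h0 => hne (by simp [h0])
    obtain ⟨n, hn⟩ := h2 y hc
    exact hy ⟨n, hn⟩)
  rw [← h]
  have e : ((fun y => c y * f y) ∘ G) = fun n => w n * f (G n) := by
    funext n
    simp [h1]
  rw [e]

/-- transport of a weighted lattice sum along a multiplication by `ρ` -/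
theorem hk_scale {G1 G2 : V4 → V4} (i1 : Function.Injective G1) (i2 : Function.Injective G2)
    {u v : V4 → ℂ} (hw : ∀ n, v (G2 n) = u (G1 n)) (h1 : ∀ y, u y ≠ 0 → ∃ n, G1 n = y)
    (h2 : ∀ y, v y ≠ 0 → ∃ n, G2 n = y) (ρ : ℂ) (e1 : ∀ n, em (G2 n).1 = ρ * em (G1 n).1)
    (e2 : ∀ n, em (G2 n).2 = ρ * em (G1 n).2) {P Q S : ℂ}
    (hS : HasSum (fun y => u y * KS (em y.1) (em y.2) P Q) S) :
    HasSum (fun y => v y * KS (em y.1) (em y.2) P Q) (KL ρ * S) := by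
  rw [← pushw i2 hw h2 (fun y => KS (em y.1) (em y.2) P Q)]
  have h := ((pushw i1 (c := u) (w := fun n => u (G1 n)) (fun _ => rfl) h1
    (fun y => KS (em y.1) (em y.2) P Q) S).mpr hS).mul_left (KL ρ)
  have e : (fun n => u (G1 n) * KS (em (G2 n).1) (em (G2 n).2) P Q) =
      fun n => KL ρ * (u (G1 n) * KS (em (G1 n).1) (em (G1 n).2) P Q) := by
    funext n
    rw [e1, e2, KS_scale]
    ring
  rw [e]
  exact h

theorem hk_em (m n : ℤ) : em (m, n) = m * tau + n := em_eq (m, n)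

/-- the product of a map on pairs of lattice points -/
def hkP (g : ℤ × ℤ → ℤ × ℤ) (x : V4) : V4 := (g x.1, g x.2)

theorem hkP_inj {g : ℤ × ℤ → ℤ × ℤ} (hg : ∀ x y : ℤ × ℤ, g x = g y → x = y) :
    Function.Injective (hkP g) := by
  intro x y h
  unfold hkP at h
  rw [Prod.mk.injEq] at h
  exact Prod.ext (hg _ _ h.1) (hg _ _ h.2)

/-- three lines -/
theorem hk_three {c1 a1 b1 d1 c2 a2 b2 d2 c3 a3 b3 d3 c0 a0 b0 d0 : ℕ} {v : V4 → ℂ} {k P Q S : ℂ}
    (hv : HasSum (fun y => v y * KS (em y.1) (em y.2) P Q) S)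
    (h : ∀ x, ind c1 a1 b1 d1 x + ind c2 a2 b2 d2 x + ind c3 a3 b3 d3 x =
      ind c0 a0 b0 d0 x + k * v x) :
    TT c1 a1 b1 d1 P Q + TT c2 a2 b2 d2 P Q + TT c3 a3 b3 d3 P Q = TT c0 a0 b0 d0 P Q + k * S := by
  have hl := ((T_hasSum c1 a1 b1 d1 P Q).add (T_hasSum c2 a2 b2 d2 P Q)).add
    (T_hasSum c3 a3 b3 d3 P Q)
  have hr := (T_hasSum c0 a0 b0 d0 P Q).add (hv.mul_left k)
  have e : (fun x : V4 => ind c1 a1 b1 d1 x * KS (em x.1) (em x.2) P Q +
      ind c2 a2 b2 d2 x * KS (em x.1) (em x.2) P Q +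
      ind c3 a3 b3 d3 x * KS (em x.1) (em x.2) P Q) =
      fun x : V4 => ind c0 a0 b0 d0 x * KS (em x.1) (em x.2) P Q +
        k * (v x * KS (em x.1) (em x.2) P Q) := by
    funext x
    have := h x
    linear_combination KS (em x.1) (em x.2) P Q * this
  rw [e] at hl
  exact hl.unique hr

/-- four lines -/
theorem hk_four {c1 a1 b1 d1 c2 a2 b2 d2 c3 a3 b3 d3 c4 a4 b4 d4 c0 a0 b0 d0 : ℕ} {v : V4 → ℂ}
    {k P Q S : ℂ}
    (hv : HasSum (fun y => v y * KS (em y.1) (em y.2) P Q) S)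
    (h : ∀ x, ind c1 a1 b1 d1 x + ind c2 a2 b2 d2 x + ind c3 a3 b3 d3 x + ind c4 a4 b4 d4 x =
      ind c0 a0 b0 d0 x + k * v x) :
    TT c1 a1 b1 d1 P Q + TT c2 a2 b2 d2 P Q + TT c3 a3 b3 d3 P Q + TT c4 a4 b4 d4 P Q =
      TT c0 a0 b0 d0 P Q + k * S := by
  have hl := (((T_hasSum c1 a1 b1 d1 P Q).add (T_hasSum c2 a2 b2 d2 P Q)).add
    (T_hasSum c3 a3 b3 d3 P Q)).add (T_hasSum c4 a4 b4 d4 P Q)
  have hr := (T_hasSum c0 a0 b0 d0 P Q).add (hv.mul_left k)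
  have e : (fun x : V4 => ind c1 a1 b1 d1 x * KS (em x.1) (em x.2) P Q +
      ind c2 a2 b2 d2 x * KS (em x.1) (em x.2) P Q +
      ind c3 a3 b3 d3 x * KS (em x.1) (em x.2) P Q +
      ind c4 a4 b4 d4 x * KS (em x.1) (em x.2) P Q) =
      fun x : V4 => ind c0 a0 b0 d0 x * KS (em x.1) (em x.2) P Q +
        k * (v x * KS (em x.1) (em x.2) P Q) := by
    funext x
    have := h x
    linear_combination KS (em x.1) (em x.2) P Q * this
  rw [e] at hl
  exact hl.unique hr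

/-- pairs with both second coordinates even -/
def hkA (x : V4) : Prop := x.1.2 % 2 = 0 ∧ x.2.2 % 2 = 0
/-- pairs with both coordinate sums even -/
def hkB (x : V4) : Prop := (x.1.1 + x.1.2) % 2 = 0 ∧ (x.2.1 + x.2.2) % 2 = 0
/-- pairs with both second coordinates divisible by `3` -/
def hkC (x : V4) : Prop := x.1.2 % 3 = 0 ∧ x.2.2 % 3 = 0

instance (x : V4) : Decidable (hkA x) := by unfold hkA; infer_instance
instance (x : V4) : Decidable (hkB x) := by unfold hkB; infer_instance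
instance (x : V4) : Decidable (hkC x) := by unfold hkC; infer_instance

theorem hk_cntA (c b d : ℕ) (x : V4) : ind c 1 b d x + ind c 2 b d x + ind c 3 b d x =
    ind c 0 b d x + 2 * (if hkA x ∧ cB b x ∧ cC c d x then 1 else 0) := by
  unfold ind
  by_cases h : cB b x ∧ cC c d x
  · simp only [h, and_true]
    have h1 : cA 1 x ↔ x.1.2 % 2 = 0 := Iff.rfl
    have h2 : cA 2 x ↔ x.2.2 % 2 = 0 := Iff.rfl
    have h3 : cA 3 x ↔ (x.1.2 + x.2.2) % 2 = 0 := Iff.rfl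
    have h0 : cA 0 x := rfl
    by_cases g1 : x.1.2 % 2 = 0
    · by_cases g2 : x.2.2 % 2 = 0
      · have g3 : (x.1.2 + x.2.2) % 2 = 0 := by omega
        simp only [h1, h2, h3, h0, g1, g2, g3, hkA, if_true, and_self]
        norm_num
      · have g3 : ¬ (x.1.2 + x.2.2) % 2 = 0 := by omega
        simp only [h1, h2, h3, h0, g1, g2, g3, hkA, if_true, if_false, and_false]
        norm_num
    · by_cases g2 : x.2.2 % 2 = 0
      · have g3 : ¬ (x.1.2 + x.2.2) % 2 = 0 := by omega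
        simp only [h1, h2, h3, h0, g1, g2, g3, hkA, if_true, if_false, false_and]
        norm_num
      · have g3 : (x.1.2 + x.2.2) % 2 = 0 := by omega
        simp only [h1, h2, h3, h0, g1, g2, g3, hkA, if_true, if_false, false_and]
        norm_num
  · simp only [h, and_false, if_false]
    norm_num

theorem hk_cntB (c a d : ℕ) (x : V4) : ind c a 1 d x + ind c a 2 d x + ind c a 3 d x =
    ind c a 0 d x + 2 * (if cA a x ∧ hkB x ∧ cC c d x then 1 else 0) := by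
  unfold ind
  by_cases hA : cA a x
  · by_cases hC : cC c d x
    · simp only [hA, hC, and_true, true_and]
      have h1 : cB 1 x ↔ (x.1.1 + x.1.2) % 2 = 0 := Iff.rfl
      have h2 : cB 2 x ↔ (x.2.1 + x.2.2) % 2 = 0 := Iff.rfl
      have h3 : cB 3 x ↔ ((x.1.1 + x.2.1) + (x.1.2 + x.2.2)) % 2 = 0 := Iff.rfl
      have h0 : cB 0 x := rfl
      by_cases g1 : (x.1.1 + x.1.2) % 2 = 0
      · by_cases g2 : (x.2.1 + x.2.2) % 2 = 0
        · have g3 : ((x.1.1 + x.2.1) + (x.1.2 + x.2.2)) % 2 = 0 := by omega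
          simp only [h1, h2, h3, h0, g1, g2, g3, hkB, if_true, and_self]
          norm_num
        · have g3 : ¬ ((x.1.1 + x.2.1) + (x.1.2 + x.2.2)) % 2 = 0 := by omega
          simp only [h1, h2, h3, h0, g1, g2, g3, hkB, if_true, if_false, and_false]
          norm_num
      · by_cases g2 : (x.2.1 + x.2.2) % 2 = 0
        · have g3 : ¬ ((x.1.1 + x.2.1) + (x.1.2 + x.2.2)) % 2 = 0 := by omega
          simp only [h1, h2, h3, h0, g1, g2, g3, hkB, if_true, if_false, false_and]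
          norm_num
        · have g3 : ((x.1.1 + x.2.1) + (x.1.2 + x.2.2)) % 2 = 0 := by omega
          simp only [h1, h2, h3, h0, g1, g2, g3, hkB, if_true, if_false, false_and]
          norm_num
    · simp only [hC, and_false, if_false]
      norm_num
  · simp only [hA, false_and, if_false]
    norm_num

/-- the number of lines through a point of the plane over `F_3` -/
theorem hk_cnt3 (m n : ℤ) : (if m % 3 = 0 then (1 : ℂ) else 0) + (if n % 3 = 0 then 1 else 0) +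
    (if (m + n) % 3 = 0 then 1 else 0) + (if (m - n) % 3 = 0 then 1 else 0) =
    1 + 3 * (if m % 3 = 0 ∧ n % 3 = 0 then 1 else 0) := by
  by_cases g1 : m % 3 = 0
  · by_cases g2 : n % 3 = 0
    · have g3 : (m + n) % 3 = 0 := by omega
      have g4 : (m - n) % 3 = 0 := by omega
      simp only [g1, g2, g3, g4, if_true, and_self]
      norm_num
    · have g3 : ¬ (m + n) % 3 = 0 := by omega
      have g4 : ¬ (m - n) % 3 = 0 := by omega
      simp only [g1, g2, g3, g4, if_true, if_false, and_false]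
      norm_num
  · by_cases g2 : n % 3 = 0
    · have g3 : ¬ (m + n) % 3 = 0 := by omega
      have g4 : ¬ (m - n) % 3 = 0 := by omega
      simp only [g1, g2, g3, g4, if_true, if_false, false_and]
      norm_num
    · by_cases g3 : (m + n) % 3 = 0
      · have g4 : ¬ (m - n) % 3 = 0 := by omega
        simp only [g1, g2, g3, g4, if_true, if_false, false_and]
        norm_num
      · have g4 : (m - n) % 3 = 0 := by
          rcases (by omega : m % 3 = 1 ∨ m % 3 = 2) with h | h <;>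
            rcases (by omega : n % 3 = 1 ∨ n % 3 = 2) with h' | h' <;> omega
        simp only [g1, g2, g3, g4, if_true, if_false, false_and]
        norm_num

theorem hk_cntC1 (a b : ℕ) (x : V4) :
    ind 1 a b 1 x + ind 1 a b 2 x + ind 1 a b 3 x + ind 1 a b 4 x =
      ind 1 a b 0 x + 3 * ind 0 a b 0 x := by
  unfold ind
  by_cases h : cA a x ∧ cB b x
  · have h1 : cC 1 1 x ↔ x.1.1 % 3 = 0 := Iff.rfl
    have h2 : cC 1 2 x ↔ x.2.1 % 3 = 0 := Iff.rfl
    have h3 : cC 1 3 x ↔ (x.1.1 + x.2.1) % 3 = 0 := Iff.rfl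
    have h4 : cC 1 4 x ↔ (x.1.1 - x.2.1) % 3 = 0 := Iff.rfl
    have h0 : cC 1 0 x := rfl
    have h5 : cC 0 0 x ↔ x.1.1 % 3 = 0 ∧ x.2.1 % 3 = 0 := by
      constructor
      · rintro ⟨p, q, _⟩
        exact ⟨p, q⟩
      · rintro ⟨p, q⟩
        exact ⟨p, q, rfl⟩
    simp only [h.1, h.2, h1, h2, h3, h4, h0, h5, true_and, if_true]
    exact hk_cnt3 _ _
  · have h' : ∀ r : Prop, ¬ (cA a x ∧ cB b x ∧ r) := fun r hr => h ⟨hr.1, hr.2.1⟩
    simp only [h', if_false]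
    norm_num

theorem hk_cntC0 (a b : ℕ) (x : V4) :
    ind 0 a b 1 x + ind 0 a b 2 x + ind 0 a b 3 x + ind 0 a b 4 x =
      ind 0 a b 0 x + 3 * (if cA a x ∧ cB b x ∧ cC 0 0 x ∧ hkC x then 1 else 0) := by
  unfold ind
  by_cases h : cA a x ∧ cB b x
  · by_cases g : x.1.1 % 3 = 0 ∧ x.2.1 % 3 = 0
    · have h1 : cC 0 1 x ↔ x.1.2 % 3 = 0 :=
        ⟨fun p => p.2.2, fun p => ⟨g.1, g.2, p⟩⟩
      have h2 : cC 0 2 x ↔ x.2.2 % 3 = 0 :=
        ⟨fun p => p.2.2, fun p => ⟨g.1, g.2, p⟩⟩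
      have h3 : cC 0 3 x ↔ (x.1.2 + x.2.2) % 3 = 0 :=
        ⟨fun p => p.2.2, fun p => ⟨g.1, g.2, p⟩⟩
      have h4 : cC 0 4 x ↔ (x.1.2 - x.2.2) % 3 = 0 :=
        ⟨fun p => p.2.2, fun p => ⟨g.1, g.2, p⟩⟩
      have h0 : cC 0 0 x := ⟨g.1, g.2, rfl⟩
      simp only [h.1, h.2, h1, h2, h3, h4, h0, true_and, if_true]
      exact hk_cnt3 _ _
    · have h' : ∀ d, ¬ cC 0 d x := fun d hd => g ⟨hd.1, hd.2.1⟩
      simp only [h', and_false, false_and, if_false]
      norm_num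
  · have h' : ∀ r : Prop, ¬ (cA a x ∧ cB b x ∧ r) := fun r hr => h ⟨hr.1, hr.2.1⟩
    simp only [h', if_false]
    norm_num

theorem hk_ite {p q : Prop} [Decidable p] [Decidable q] (h : p ↔ q) :
    (if p then (1 : ℂ) else 0) = if q then 1 else 0 := by
  simp only [h]

theorem hk_ite_ne {p : Prop} [Decidable p] (h : (if p then (1 : ℂ) else 0) ≠ 0) : p := by
  by_contra h'
  exact h (if_neg h')

/-- `(a, b) ↦ (3a, b)`, the class `0` lattice -/
def hkO (v : ℤ × ℤ) : ℤ × ℤ := (3 * v.1, v.2)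
def hkA1 (v : ℤ × ℤ) : ℤ × ℤ := (v.2 - 3 * v.1, -2 * v.1)
def hkA0 (v : ℤ × ℤ) : ℤ × ℤ := (3 * (v.2 - v.1), -2 * v.1)
def hkB1 (v : ℤ × ℤ) : ℤ × ℤ := (-v.2, 2 * v.1 - v.2)
def hkB0 (v : ℤ × ℤ) : ℤ × ℤ := (-3 * v.2, 2 * v.1 - 3 * v.2)
def hkC0 (v : ℤ × ℤ) : ℤ × ℤ := (3 * v.1, 3 * v.2)

theorem hkO_inj : Function.Injective (hkP hkO) :=
  hkP_inj fun x y h => by
    simp only [hkO, Prod.mk.injEq] at h
    exact Prod.ext (by omega) (by omega)

theorem hkO_range (y : V4) (h : cC 0 0 y) : ∃ n, hkP hkO n = y := by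
  obtain ⟨h1, h2, -⟩ := h
  refine ⟨((y.1.1 / 3, y.1.2), (y.2.1 / 3, y.2.2)), ?_⟩
  refine Prod.ext (Prod.ext ?_ rfl) (Prod.ext ?_ rfl)
  · show 3 * (y.1.1 / 3) = y.1.1
    omega
  · show 3 * (y.2.1 / 3) = y.2.1
    omega

theorem hkA_range (y : V4) (h : hkA y) : ∃ n, hkP hkA1 n = y := by
  obtain ⟨⟨m, n⟩, ⟨m', n'⟩⟩ := y
  obtain ⟨h1, h2⟩ := h
  change n % 2 = 0 at h1
  change n' % 2 = 0 at h2
  refine ⟨((-n / 2, m + 3 * (-n / 2)), (-n' / 2, m' + 3 * (-n' / 2))), ?_⟩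
  simp only [hkP, hkA1, Prod.mk.injEq]
  omega

theorem hkA0_range (y : V4) (h : hkA y) (h' : cC 0 0 y) : ∃ n, hkP hkA0 n = y := by
  obtain ⟨⟨m, n⟩, ⟨m', n'⟩⟩ := y
  obtain ⟨h1, h2⟩ := h
  obtain ⟨h3, h4, -⟩ := h'
  change n % 2 = 0 at h1
  change n' % 2 = 0 at h2
  change m % 3 = 0 at h3
  change m' % 3 = 0 at h4
  refine ⟨((-n / 2, m / 3 + (-n / 2)), (-n' / 2, m' / 3 + (-n' / 2))), ?_⟩
  simp only [hkP, hkA0, Prod.mk.injEq]
  omega

theorem hkB1_range (y : V4) (h : hkB y) : ∃ n, hkP hkB1 n = y := by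
  obtain ⟨⟨m, n⟩, ⟨m', n'⟩⟩ := y
  obtain ⟨h1, h2⟩ := h
  change (m + n) % 2 = 0 at h1
  change (m' + n') % 2 = 0 at h2
  refine ⟨(((n - m) / 2, -m), ((n' - m') / 2, -m')), ?_⟩
  simp only [hkP, hkB1, Prod.mk.injEq]
  omega

theorem hkB0_range (y : V4) (h : hkB y) (h' : cC 0 0 y) : ∃ n, hkP hkB0 n = y := by
  obtain ⟨⟨m, n⟩, ⟨m', n'⟩⟩ := y
  obtain ⟨h1, h2⟩ := h
  obtain ⟨h3, h4, -⟩ := h'
  change (m + n) % 2 = 0 at h1
  change (m' + n') % 2 = 0 at h2
  change m % 3 = 0 at h3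
  change m' % 3 = 0 at h4
  refine ⟨(((n - m) / 2, -(m / 3)), ((n' - m') / 2, -(m' / 3))), ?_⟩
  simp only [hkP, hkB0, Prod.mk.injEq]
  omega

theorem hkC0_range (y : V4) (h : hkC y) (h' : cC 0 0 y) : ∃ n, hkP hkC0 n = y := by
  obtain ⟨⟨m, n⟩, ⟨m', n'⟩⟩ := y
  obtain ⟨h1, h2⟩ := h
  obtain ⟨h3, h4, -⟩ := h'
  change n % 3 = 0 at h1
  change n' % 3 = 0 at h2
  change m % 3 = 0 at h3
  change m' % 3 = 0 at h4
  refine ⟨((m / 3, n / 3), (m' / 3, n' / 3)), ?_⟩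
  simp only [hkP, hkC0, Prod.mk.injEq]
  omega

theorem hk_cC0 {d : ℕ} {y : V4} (h : cC 0 d y) : cC 0 0 y := ⟨h.1, h.2.1, rfl⟩

theorem heckeA1 {b d : ℕ} (hb : b ≤ 3) (hd : d ≤ 4) (P Q : ℂ) :
    TT 1 1 b d P Q + TT 1 2 b d P Q + TT 1 3 b d P Q =
      TT 1 0 b d P Q + 2 * (KL tau * TT 0 0 b d P Q) := by
  refine hk_three ?_ (hk_cntA 1 b d)
  refine hk_scale (G1 := hkP hkO) (G2 := hkP hkA1) hkO_inj (hkP_inj fun x y h => ?_)
    (fun n => ?_) (fun y hy => hkO_range y (hk_cC0 (ind_ne hy).2.2))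
    (fun y hy => hkA_range y (hk_ite_ne hy).1) tau (fun n => ?_) (fun n => ?_)
    (T_hasSum 0 0 b d P Q)
  · simp only [hkA1, Prod.mk.injEq] at h
    exact Prod.ext (by omega) (by omega)
  · refine hk_ite ?_
    obtain ⟨⟨p, q⟩, ⟨r, s⟩⟩ := n
    have e1 : hkA (hkP hkA1 ((p, q), r, s)) ↔ cA 0 (hkP hkO ((p, q), r, s)) := by
      simp only [hkA, cA, ln, hkP, hkA1, hkO]
      simp
    have e2 : cB b (hkP hkA1 ((p, q), r, s)) ↔ cB b (hkP hkO ((p, q), r, s)) := by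
      unfold cB
      interval_cases b <;> simp [ln, hkP, hkA1, hkO] <;> omega
    have e3 : cC 1 d (hkP hkA1 ((p, q), r, s)) ↔ cC 0 d (hkP hkO ((p, q), r, s)) := by
      unfold cC
      rw [if_pos rfl, if_neg (by norm_num)]
      interval_cases d <;> simp [ln, hkP, hkA1, hkO] <;> omega
    rw [e1, e2, e3]
  · show em (hkA1 n.1) = tau * em (hkO n.1)
    simp only [hkA1, hkO, hk_em]
    push_cast
    linear_combination (-3 * (n.1.1 : ℂ)) * tau_sq
  · show em (hkA1 n.2) = tau * em (hkO n.2)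
    simp only [hkA1, hkO, hk_em]
    push_cast
    linear_combination (-3 * (n.2.1 : ℂ)) * tau_sq

theorem heckeA0 {b d : ℕ} (hb : b ≤ 3) (hd : d ≤ 4) (P Q : ℂ) :
    TT 0 1 b d P Q + TT 0 2 b d P Q + TT 0 3 b d P Q =
      TT 0 0 b d P Q + 2 * (KL (3 * tau) * TT 1 0 b d P Q) := by
  refine hk_three ?_ (hk_cntA 0 b d)
  refine hk_scale (G1 := id) (G2 := hkP hkA0) Function.injective_id (hkP_inj fun x y h => ?_)
    (fun n => ?_) (fun y hy => ⟨y, rfl⟩)
    (fun y hy => hkA0_range y (hk_ite_ne hy).1 (hk_cC0 (hk_ite_ne hy).2.2)) (3 * tau)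
    (fun n => ?_) (fun n => ?_) (T_hasSum 1 0 b d P Q)
  · simp only [hkA0, Prod.mk.injEq] at h
    exact Prod.ext (by omega) (by omega)
  · refine hk_ite ?_
    obtain ⟨⟨p, q⟩, ⟨r, s⟩⟩ := n
    have e1 : hkA (hkP hkA0 ((p, q), r, s)) ↔ cA 0 (id ((p, q), r, s)) := by
      simp only [hkA, cA, ln, hkP, hkA0]
      simp
    have e2 : cB b (hkP hkA0 ((p, q), r, s)) ↔ cB b (id ((p, q), r, s)) := by
      unfold cB
      interval_cases b <;> simp [ln, hkP, hkA0] <;> omega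
    have e3 : cC 0 d (hkP hkA0 ((p, q), r, s)) ↔ cC 1 d (id ((p, q), r, s)) := by
      unfold cC
      rw [if_pos rfl, if_neg (by norm_num)]
      interval_cases d <;> simp [ln, hkP, hkA0] <;> omega
    rw [e1, e2, e3]
  · show em (hkA0 n.1) = 3 * tau * em (n.1.1, n.1.2)
    simp only [hkA0, hk_em]
    push_cast
    linear_combination (-3 * (n.1.1 : ℂ)) * tau_sq
  · show em (hkA0 n.2) = 3 * tau * em (n.2.1, n.2.2)
    simp only [hkA0, hk_em]
    push_cast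
    linear_combination (-3 * (n.2.1 : ℂ)) * tau_sq

theorem heckeB1 {a d : ℕ} (ha : a ≤ 3) (hd : d ≤ 4) (P Q : ℂ) :
    TT 1 a 1 d P Q + TT 1 a 2 d P Q + TT 1 a 3 d P Q =
      TT 1 a 0 d P Q + 2 * (KL (conj tau) * TT 0 a 0 d P Q) := by
  refine hk_three ?_ (hk_cntB 1 a d)
  refine hk_scale (G1 := hkP hkO) (G2 := hkP hkB1) hkO_inj (hkP_inj fun x y h => ?_)
    (fun n => ?_) (fun y hy => hkO_range y (hk_cC0 (ind_ne hy).2.2))
    (fun y hy => hkB1_range y (hk_ite_ne hy).2.1) (conj tau) (fun n => ?_) (fun n => ?_)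
    (T_hasSum 0 a 0 d P Q)
  · simp only [hkB1, Prod.mk.injEq] at h
    exact Prod.ext (by omega) (by omega)
  · refine hk_ite ?_
    obtain ⟨⟨p, q⟩, ⟨r, s⟩⟩ := n
    have e1 : hkB (hkP hkB1 ((p, q), r, s)) ↔ cB 0 (hkP hkO ((p, q), r, s)) := by
      simp only [hkB, cB, ln, hkP, hkB1, hkO]
      simp
      omega
    have e2 : cA a (hkP hkB1 ((p, q), r, s)) ↔ cA a (hkP hkO ((p, q), r, s)) := by
      unfold cA
      interval_cases a <;> simp [ln, hkP, hkB1, hkO] <;> omega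
    have e3 : cC 1 d (hkP hkB1 ((p, q), r, s)) ↔ cC 0 d (hkP hkO ((p, q), r, s)) := by
      unfold cC
      rw [if_pos rfl, if_neg (by norm_num)]
      interval_cases d <;> simp [ln, hkP, hkB1, hkO] <;> omega
    rw [e1, e2, e3]
  · show em (hkB1 n.1) = conj tau * em (hkO n.1)
    rw [conj_tau]
    simp only [hkB1, hkO, hk_em]
    push_cast
    linear_combination (3 * (n.1.1 : ℂ)) * tau_sq
  · show em (hkB1 n.2) = conj tau * em (hkO n.2)
    rw [conj_tau]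
    simp only [hkB1, hkO, hk_em]
    push_cast
    linear_combination (3 * (n.2.1 : ℂ)) * tau_sq

theorem heckeB0 {a d : ℕ} (ha : a ≤ 3) (hd : d ≤ 4) (P Q : ℂ) :
    TT 0 a 1 d P Q + TT 0 a 2 d P Q + TT 0 a 3 d P Q =
      TT 0 a 0 d P Q + 2 * (KL (3 * conj tau) * TT 1 a 0 d P Q) := by
  refine hk_three ?_ (hk_cntB 0 a d)
  refine hk_scale (G1 := id) (G2 := hkP hkB0) Function.injective_id (hkP_inj fun x y h => ?_)
    (fun n => ?_) (fun y hy => ⟨y, rfl⟩)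
    (fun y hy => hkB0_range y (hk_ite_ne hy).2.1 (hk_cC0 (hk_ite_ne hy).2.2)) (3 * conj tau)
    (fun n => ?_) (fun n => ?_) (T_hasSum 1 a 0 d P Q)
  · simp only [hkB0, Prod.mk.injEq] at h
    exact Prod.ext (by omega) (by omega)
  · refine hk_ite ?_
    obtain ⟨⟨p, q⟩, ⟨r, s⟩⟩ := n
    have e1 : hkB (hkP hkB0 ((p, q), r, s)) ↔ cB 0 (id ((p, q), r, s)) := by
      simp only [hkB, cB, ln, hkP, hkB0]
      simp
      omega
    have e2 : cA a (hkP hkB0 ((p, q), r, s)) ↔ cA a (id ((p, q), r, s)) := by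
      unfold cA
      interval_cases a <;> simp [ln, hkP, hkB0] <;> omega
    have e3 : cC 0 d (hkP hkB0 ((p, q), r, s)) ↔ cC 1 d (id ((p, q), r, s)) := by
      unfold cC
      rw [if_pos rfl, if_neg (by norm_num)]
      interval_cases d <;> simp [ln, hkP, hkB0] <;> omega
    rw [e1, e2, e3]
  · show em (hkB0 n.1) = 3 * conj tau * em (n.1.1, n.1.2)
    rw [conj_tau]
    simp only [hkB0, hk_em]
    push_cast
    linear_combination (3 * (n.1.1 : ℂ)) * tau_sq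
  · show em (hkB0 n.2) = 3 * conj tau * em (n.2.1, n.2.2)
    rw [conj_tau]
    simp only [hkB0, hk_em]
    push_cast
    linear_combination (3 * (n.2.1 : ℂ)) * tau_sq

theorem heckeC1 {a b : ℕ} (ha : a ≤ 3) (hb : b ≤ 3) (P Q : ℂ) :
    TT 1 a b 1 P Q + TT 1 a b 2 P Q + TT 1 a b 3 P Q + TT 1 a b 4 P Q =
      TT 1 a b 0 P Q + 3 * TT 0 a b 0 P Q :=
  hk_four (T_hasSum 0 a b 0 P Q) (hk_cntC1 a b)

theorem heckeC0 {a b : ℕ} (ha : a ≤ 3) (hb : b ≤ 3) (P Q : ℂ) :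
    TT 0 a b 1 P Q + TT 0 a b 2 P Q + TT 0 a b 3 P Q + TT 0 a b 4 P Q =
      TT 0 a b 0 P Q + 3 * (KL 3 * TT 1 a b 0 P Q) := by
  refine hk_four ?_ (hk_cntC0 a b)
  refine hk_scale (G1 := id) (G2 := hkP hkC0) Function.injective_id (hkP_inj fun x y h => ?_)
    (fun n => ?_) (fun y hy => ⟨y, rfl⟩)
    (fun y hy => hkC0_range y (hk_ite_ne hy).2.2.2 (hk_ite_ne hy).2.2.1) 3
    (fun n => ?_) (fun n => ?_) (T_hasSum 1 a b 0 P Q)
  · simp only [hkC0, Prod.mk.injEq] at h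
    exact Prod.ext (by omega) (by omega)
  · refine hk_ite ?_
    obtain ⟨⟨p, q⟩, ⟨r, s⟩⟩ := n
    have e1 : cA a (hkP hkC0 ((p, q), r, s)) ↔ cA a (id ((p, q), r, s)) := by
      unfold cA
      interval_cases a <;> simp [ln, hkP, hkC0] <;> omega
    have e2 : cB b (hkP hkC0 ((p, q), r, s)) ↔ cB b (id ((p, q), r, s)) := by
      unfold cB
      interval_cases b <;> simp [ln, hkP, hkC0] <;> omega
    have e3 : cC 0 0 (hkP hkC0 ((p, q), r, s)) ∧ hkC (hkP hkC0 ((p, q), r, s)) ↔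
        cC 1 0 (id ((p, q), r, s)) := by
      unfold cC hkC
      rw [if_pos rfl, if_neg (by norm_num)]
      simp [ln, hkP, hkC0]
    rw [e1, e2, e3]
  · show em (hkC0 n.1) = 3 * em (n.1.1, n.1.2)
    simp only [hkC0, hk_em]
    push_cast
    ring
  · show em (hkC0 n.2) = 3 * em (n.2.1, n.2.2)
    simp only [hkC0, hk_em]
    push_cast
    ring

end RVS
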