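import Pool.Agent.RVS.Sum

/-!
# RVS/Sym: bases of lattices, faces, the symmetries of the three lines
-/

set_option autoImplicit false

open scoped ComplexConjugate

namespace RVS

/-- `G : ℤ⁴ → V4` is a parametrisation of the lattice of type `c a b d` -/
structure Bas (c a b d : ℕ) (G : V4 → V4) : Prop where
  inj : Function.Injective G
  one : ∀ n, cA a (G n) ∧ cB b (G n) ∧ cC c d (G n)
  sur : ∀ y, cA a y → cB b y → cC c d y → ∃ n, G n = y

theorem ind_one {c a b d : ℕ} {x : V4} (h : cA a x ∧ cB b x ∧ cC c d x) : ind c a b d x = 1 := by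
  unfold ind
  rw [if_pos h]

theorem ind_ne {c a b d : ℕ} {x : V4} (h : ind c a b d x ≠ 0) : cA a x ∧ cB b x ∧ cC c d x := by
  by_contra h'
  exact h (by unfold ind; rw [if_neg h'])

theorem Bas.push {c a b d : ℕ} {G : V4 → V4} (h : Bas c a b d G) (f : V4 → ℂ) (S : ℂ) :
    HasSum (fun n => f (G n)) S ↔ HasSum (fun y => ind c a b d y * f y) S :=
  RVS.push h.inj (fun n => ind_one (h.one n)) (fun y hy => by
    obtain ⟨h1, h2, h3⟩ := ind_ne hy
    exact h.sur y h1 h2 h3) f S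

/-- a face of a four-line instance -/
theorem face {c a b d c' a' b' d' : ℕ} {D G : V4 → V4} (hD : Bas c a b d D)
    (hG : Bas c' a' b' d' G) (ρ : ℂ) {y1 y2 : V4 → ℂ} (e1 : ∀ n, y1 (D n) = ρ * em (G n).1)
    (e2 : ∀ n, y2 (D n) = ρ * em (G n).2) (P Q : ℂ) :
    HasSum (fun x => ind c a b d x * KS (y1 x) (y2 x) P Q) (KL ρ * TT c' a' b' d' P Q) := by
  rw [← hD.push (fun x => KS (y1 x) (y2 x) P Q)]
  have h := ((hG.push (fun x => KS (em x.1) (em x.2) P Q) _).mpr
    (T_hasSum c' a' b' d' P Q)).mul_left (KL ρ)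
  have e : (fun n => KS (y1 (D n)) (y2 (D n)) P Q) =
      fun n => KL ρ * KS (em (G n).1) (em (G n).2) P Q := by
    funext n
    rw [e1, e2, KS_scale]
  rw [e]
  exact h

/-- exchange of the lines `p`, `q` -/
def s12 (a : ℕ) : ℕ := if a = 1 then 2 else if a = 2 then 1 else a
/-- exchange of the lines `q`, `p + q` -/
def s23 (a : ℕ) : ℕ := if a = 2 then 3 else if a = 3 then 2 else a

def e12 : V4 ≃ V4 where
  toFun x := (x.2, x.1)
  invFun x := (x.2, x.1)
  left_inv _ := rfl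
  right_inv _ := rfl

def e23 : V4 ≃ V4 where
  toFun x := (x.1, -(x.1 + x.2))
  invFun x := (x.1, -(x.1 + x.2))
  left_inv x := by ext <;> simp
  right_inv x := by ext <;> simp

theorem cA12 {a : ℕ} (ha : a ≤ 4) (x : V4) : cA (s12 a) (e12 x) ↔ cA a x := by
  unfold cA
  interval_cases a <;> simp [s12, e12, ln] <;> omega

theorem cB12 {a : ℕ} (ha : a ≤ 4) (x : V4) : cB (s12 a) (e12 x) ↔ cB a x := by
  unfold cB
  interval_cases a <;> simp [s12, e12, ln] <;> omega

theorem cC12 {c d : ℕ} (hd : d ≤ 4) (x : V4) : cC c (s12 d) (e12 x) ↔ cC c d x := by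
  unfold cC
  by_cases hc : c = 1
  · rw [if_pos hc, if_pos hc]
    interval_cases d <;> simp [s12, e12, ln] <;> omega
  · rw [if_neg hc, if_neg hc]
    interval_cases d <;> simp [s12, e12, ln] <;> omega

theorem cA23 {a : ℕ} (ha : a ≤ 4) (h4 : a ≠ 4) (x : V4) : cA (s23 a) (e23 x) ↔ cA a x := by
  unfold cA
  interval_cases a <;> simp [s23, e23, ln] at * <;> omega

theorem cB23 {a : ℕ} (ha : a ≤ 4) (h4 : a ≠ 4) (x : V4) : cB (s23 a) (e23 x) ↔ cB a x := by
  unfold cB
  interval_cases a <;> simp [s23, e23, ln] at * <;> omega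

theorem cC23 {c d : ℕ} (hd : d ≤ 4) (x : V4) : cC c (s23 d) (e23 x) ↔ cC c d x := by
  unfold cC
  by_cases hc : c = 1
  · rw [if_pos hc, if_pos hc]
    interval_cases d <;> simp [s23, e23, ln] <;> omega
  · rw [if_neg hc, if_neg hc]
    interval_cases d <;> simp [s23, e23, ln] <;> omega

theorem ind12 {c a b d : ℕ} (ha : a ≤ 4) (hb : b ≤ 4) (hd : d ≤ 4) (x : V4) :
    ind c (s12 a) (s12 b) (s12 d) (e12 x) = ind c a b d x := by
  unfold ind
  simp only [cA12 ha, cB12 hb, cC12 hd]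

theorem ind23 {c a b d : ℕ} (ha : a ≤ 3) (hb : b ≤ 3) (hd : d ≤ 4) (x : V4) :
    ind c (s23 a) (s23 b) (s23 d) (e23 x) = ind c a b d x := by
  unfold ind
  simp only [cA23 (show a ≤ 4 by omega) (by omega), cB23 (show b ≤ 4 by omega) (by omega), cC23 hd]

theorem TT12 {c a b d : ℕ} (ha : a ≤ 4) (hb : b ≤ 4) (hd : d ≤ 4) (P Q : ℂ) :
    TT c (s12 a) (s12 b) (s12 d) Q P = -TT c a b d P Q := by
  have h1 := T_hasSum c (s12 a) (s12 b) (s12 d) Q P
  rw [← e12.hasSum_iff] at h1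
  have h2 := (T_hasSum c a b d P Q).neg
  have e : ((fun x : V4 => ind c (s12 a) (s12 b) (s12 d) x * KS (em x.1) (em x.2) Q P) ∘ e12) =
      fun x : V4 => -(ind c a b d x * KS (em x.1) (em x.2) P Q) := by
    funext x
    simp only [Function.comp]
    rw [ind12 ha hb hd]
    show ind c a b d x * KS (em x.2) (em x.1) Q P = _
    rw [KS_swap]
    ring
  rw [e] at h1
  exact h1.unique h2

theorem TT23 {c a b d : ℕ} (ha : a ≤ 3) (hb : b ≤ 3) (hd : d ≤ 4) (P Q : ℂ) :
    TT c (s23 a) (s23 b) (s23 d) P (-(P + Q)) = -TT c a b d P Q := by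
  have h1 := T_hasSum c (s23 a) (s23 b) (s23 d) P (-(P + Q))
  rw [← e23.hasSum_iff] at h1
  have h2 := (T_hasSum c a b d P Q).neg
  have e : ((fun x : V4 => ind c (s23 a) (s23 b) (s23 d) x *
      KS (em x.1) (em x.2) P (-(P + Q))) ∘ e23) =
      fun x : V4 => -(ind c a b d x * KS (em x.1) (em x.2) P Q) := by
    funext x
    simp only [Function.comp]
    rw [ind23 ha hb hd]
    show ind c a b d x * KS (em x.1) (em (-(x.1 + x.2))) P (-(P + Q)) = _
    rw [em_neg, em_add, KS_rot]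
    ring
  rw [e] at h1
  exact h1.unique h2

end RVS
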