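import Pool.Agent.RVS.Sum

/-!
# RVS/Inst: the four-line relation, summed over a lattice
-/

set_option autoImplicit false

open scoped ComplexConjugate

namespace RVS

/-- `|z|²` -/
noncomputable def nn (z : ℂ) : ℂ := z * conj z

theorem lines4 {F : V4 → ℂ} {A B C D : V4 → Prop} [DecidablePred A] [DecidablePred B]
    [DecidablePred C] [DecidablePred D] (h0 : ∀ x, ¬A x → ¬B x → ¬C x → ¬D x → F x = 0)
    (hAB : ∀ x, A x → B x → F x = 0) (hAC : ∀ x, A x → C x → F x = 0)
    (hAD : ∀ x, A x → D x → F x = 0) (hBC : ∀ x, B x → C x → F x = 0)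
    (hBD : ∀ x, B x → D x → F x = 0) (hCD : ∀ x, C x → D x → F x = 0) {a b c d : ℂ}
    (ha : HasSum (fun x => if A x then F x else 0) a)
    (hb : HasSum (fun x => if B x then F x else 0) b)
    (hc : HasSum (fun x => if C x then F x else 0) c)
    (hd : HasSum (fun x => if D x then F x else 0) d) : HasSum F (a + b + c + d) := by
  have h := ((ha.add hb).add hc).add hd
  have e : F = fun x => (if A x then F x else 0) + (if B x then F x else 0)
      + (if C x then F x else 0) + (if D x then F x else 0) := by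
    funext x
    by_cases hA : A x <;> by_cases hB : B x <;> by_cases hC : C x <;> by_cases hD : D x <;>
      simp only [hA, hB, hC, hD, if_true, if_false, add_zero, zero_add]
    all_goals first
      | rw [hAB x hA hB]; simp
      | rw [hAC x hA hC]; simp
      | rw [hAD x hA hD]; simp
      | rw [hBC x hB hC]; simp
      | rw [hBD x hB hD]; simp
      | rw [hCD x hC hD]; simp
      | exact h0 x hA hB hC hD
  rw [e]
  exact h

/-- the four faces at one point -/
noncomputable def F4 (lam P Q p q : ℂ) : ℂ :=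
  KS p q P Q - nn lam * KS (lam * p) q (lam * P) Q
    + nn (1 - lam) * KS ((1 - lam) * p) (-(p + q)) ((1 - lam) * P) (-(P + Q))
    - nn lam * nn (1 - lam) *
      KS ((1 - lam) * q) (lam * (p + q)) ((1 - lam) * Q) (lam * (P + Q))

noncomputable def kap1 (lam P Q : ℂ) : ℂ :=
  -(nn lam * nn (1 - lam) * KS (1 - lam) lam ((1 - lam) * Q) (lam * (P + Q)))
noncomputable def kap2 (lam P Q : ℂ) : ℂ :=
  nn (1 - lam) * KS (1 - lam) (-1) ((1 - lam) * P) (-(P + Q))
noncomputable def kap3 (lam P Q : ℂ) : ℂ := -(nn lam * KS lam (-1) (lam * P) Q)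
noncomputable def kap4 (lam P Q : ℂ) : ℂ := KS 1 (-lam) P Q

theorem F4_off {lam p q : ℂ} (h0 : lam ≠ 0) (h1 : 1 - lam ≠ 0) (hp : p ≠ 0) (hq : q ≠ 0)
    (hr : p + q ≠ 0) (hs : lam * p + q ≠ 0) (P Q : ℂ) : F4 lam P Q p q = 0 := by
  have := four h0 h1 hp hq hr hs P Q
  unfold F4 nn
  exact this

theorem F4_1 (lam P Q q : ℂ) : F4 lam P Q 0 q = kap1 lam P Q * KL q := by
  have e : KS ((1 - lam) * q) (lam * (0 + q)) ((1 - lam) * Q) (lam * (P + Q)) =
      KL q * KS (1 - lam) lam ((1 - lam) * Q) (lam * (P + Q)) := by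
    rw [← KS_scale]
    congr 1 <;> ring
  unfold F4 kap1
  rw [e, mul_zero, mul_zero, KS_zero1, KS_zero1, KS_zero1]
  ring

theorem F4_2 (lam P Q p : ℂ) : F4 lam P Q p 0 = kap2 lam P Q * KL p := by
  have e : KS ((1 - lam) * p) (-(p + 0)) ((1 - lam) * P) (-(P + Q)) =
      KL p * KS (1 - lam) (-1) ((1 - lam) * P) (-(P + Q)) := by
    rw [← KS_scale]
    congr 1 <;> ring
  unfold F4 kap2
  rw [e, mul_zero, KS_zero1, KS_zero2, KS_zero2]
  ring

theorem F4_3 {lam p q : ℂ} (h : p + q = 0) (P Q : ℂ) : F4 lam P Q p q = kap3 lam P Q * KL p := by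
  have hq : q = -p := by linear_combination h
  have e : KS (lam * p) q (lam * P) Q = KL p * KS lam (-1) (lam * P) Q := by
    rw [← KS_scale, hq]
    congr 1 <;> ring
  unfold F4 kap3
  rw [e, KS_zero3 h, h, neg_zero, mul_zero, KS_zero2, KS_zero2]
  ring

theorem F4_4 {lam p q : ℂ} (h : lam * p + q = 0) (P Q : ℂ) :
    F4 lam P Q p q = kap4 lam P Q * KL p := by
  have hq : q = -(lam * p) := by linear_combination h
  have e : KS p q P Q = KL p * KS 1 (-lam) P Q := by
    rw [← KS_scale, hq]
    congr 1 <;> ring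
  have e3 : (1 - lam) * p + -(p + q) = 0 := by linear_combination -h
  have e4 : (1 - lam) * q + lam * (p + q) = 0 := by linear_combination h
  unfold F4 kap4
  rw [e, KS_zero3 h, KS_zero3 e3, KS_zero3 e4]
  ring

theorem F4_00 (lam P Q : ℂ) : F4 lam P Q 0 0 = 0 := by
  rw [F4_1]
  simp [KL]

open Classical in
theorem inst {c : V4 → ℂ} {lam : ℂ} (h0 : lam ≠ 0) (h1 : 1 - lam ≠ 0) {P Q A B C D : ℂ}
    (hA : HasSum (fun x => c x * KS (em x.1) (em x.2) P Q) A)
    (hB : HasSum (fun x => c x * KS (lam * em x.1) (em x.2) (lam * P) Q) B)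
    (hC : HasSum (fun x => c x * KS ((1 - lam) * em x.1) (-(em x.1 + em x.2)) ((1 - lam) * P)
      (-(P + Q))) C)
    (hD : HasSum (fun x => c x * KS ((1 - lam) * em x.2) (lam * (em x.1 + em x.2))
      ((1 - lam) * Q) (lam * (P + Q))) D) {l1 l2 l3 l4 : ℂ}
    (s1 : HasSum (fun x : V4 => if em x.1 = 0 then c x * KL (em x.2) else 0) l1)
    (s2 : HasSum (fun x : V4 => if em x.2 = 0 then c x * KL (em x.1) else 0) l2)
    (s3 : HasSum (fun x : V4 => if em x.1 + em x.2 = 0 then c x * KL (em x.1) else 0) l3)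
    (s4 : HasSum (fun x : V4 => if lam * em x.1 + em x.2 = 0 then c x * KL (em x.1) else 0) l4) :
    A - nn lam * B + nn (1 - lam) * C - nn lam * nn (1 - lam) * D =
      kap1 lam P Q * l1 + kap2 lam P Q * l2 + kap3 lam P Q * l3 + kap4 lam P Q * l4 := by
  have hF : HasSum (fun x : V4 => c x * F4 lam P Q (em x.1) (em x.2))
      (A - nn lam * B + nn (1 - lam) * C - nn lam * nn (1 - lam) * D) := by
    have h := ((hA.sub (hB.mul_left (nn lam))).add (hC.mul_left (nn (1 - lam)))).sub
      (hD.mul_left (nn lam * nn (1 - lam)))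
    have e : (fun x : V4 => c x * F4 lam P Q (em x.1) (em x.2)) = fun x : V4 =>
        c x * KS (em x.1) (em x.2) P Q
        - nn lam * (c x * KS (lam * em x.1) (em x.2) (lam * P) Q)
        + nn (1 - lam) * (c x * KS ((1 - lam) * em x.1) (-(em x.1 + em x.2)) ((1 - lam) * P)
          (-(P + Q)))
        - nn lam * nn (1 - lam) * (c x * KS ((1 - lam) * em x.2) (lam * (em x.1 + em x.2))
          ((1 - lam) * Q) (lam * (P + Q))) := by
      funext x
      unfold F4
      ring
    rw [e]
    exact h
  have t1 : HasSum (fun x : V4 => if em x.1 = 0 then c x * F4 lam P Q (em x.1) (em x.2) else 0)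
      (kap1 lam P Q * l1) := by
    have e : (fun x : V4 => if em x.1 = 0 then c x * F4 lam P Q (em x.1) (em x.2) else 0) =
        fun x : V4 => kap1 lam P Q * (if em x.1 = 0 then c x * KL (em x.2) else 0) := by
      funext x
      by_cases h : em x.1 = 0
      · rw [if_pos h, if_pos h, h, F4_1]
        ring
      · rw [if_neg h, if_neg h, mul_zero]
    rw [e]
    exact s1.mul_left _
  have t2 : HasSum (fun x : V4 => if em x.2 = 0 then c x * F4 lam P Q (em x.1) (em x.2) else 0)
      (kap2 lam P Q * l2) := by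
    have e : (fun x : V4 => if em x.2 = 0 then c x * F4 lam P Q (em x.1) (em x.2) else 0) =
        fun x : V4 => kap2 lam P Q * (if em x.2 = 0 then c x * KL (em x.1) else 0) := by
      funext x
      by_cases h : em x.2 = 0
      · rw [if_pos h, if_pos h, h, F4_2]
        ring
      · rw [if_neg h, if_neg h, mul_zero]
    rw [e]
    exact s2.mul_left _
  have t3 : HasSum (fun x : V4 => if em x.1 + em x.2 = 0 then
      c x * F4 lam P Q (em x.1) (em x.2) else 0) (kap3 lam P Q * l3) := by
    have e : (fun x : V4 => if em x.1 + em x.2 = 0 then c x * F4 lam P Q (em x.1) (em x.2) else 0) =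
        fun x : V4 => kap3 lam P Q * (if em x.1 + em x.2 = 0 then c x * KL (em x.1) else 0) := by
      funext x
      by_cases h : em x.1 + em x.2 = 0
      · rw [if_pos h, if_pos h, F4_3 h]
        ring
      · rw [if_neg h, if_neg h, mul_zero]
    rw [e]
    exact s3.mul_left _
  have t4 : HasSum (fun x : V4 => if lam * em x.1 + em x.2 = 0 then
      c x * F4 lam P Q (em x.1) (em x.2) else 0) (kap4 lam P Q * l4) := by
    have e : (fun x : V4 => if lam * em x.1 + em x.2 = 0 then c x * F4 lam P Q (em x.1) (em x.2) else 0) =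
        fun x : V4 => kap4 lam P Q * (if lam * em x.1 + em x.2 = 0 then c x * KL (em x.1) else 0) := by
      funext x
      by_cases h : lam * em x.1 + em x.2 = 0
      · rw [if_pos h, if_pos h, F4_4 h]
        ring
      · rw [if_neg h, if_neg h, mul_zero]
    rw [e]
    exact s4.mul_left _
  have z : ∀ x : V4, em x.1 = 0 → em x.2 = 0 → c x * F4 lam P Q (em x.1) (em x.2) = 0 := by
    intro x hx hy
    rw [hx, hy, F4_00, mul_zero]
  have hG := lines4 (F := fun x : V4 => c x * F4 lam P Q (em x.1) (em x.2))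
    (A := fun x => em x.1 = 0) (B := fun x => em x.2 = 0) (C := fun x => em x.1 + em x.2 = 0)
    (D := fun x => lam * em x.1 + em x.2 = 0)
    (fun x a b c' d => by
      show c x * F4 lam P Q (em x.1) (em x.2) = 0
      rw [F4_off h0 h1 a b c' d, mul_zero])
    (fun x a b => z x a b)
    (fun x a b => z x a (by
      have a' : em x.1 = 0 := a
      have b' : em x.1 + em x.2 = 0 := b
      rw [a', zero_add] at b'
      exact b'))
    (fun x a b => z x a (by
      have a' : em x.1 = 0 := a
      have b' : lam * em x.1 + em x.2 = 0 := b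
      rw [a', mul_zero, zero_add] at b'
      exact b'))
    (fun x a b => z x (by
      have a' : em x.2 = 0 := a
      have b' : em x.1 + em x.2 = 0 := b
      rw [a', add_zero] at b'
      exact b') a)
    (fun x a b => z x (by
      have a' : em x.2 = 0 := a
      have b' : lam * em x.1 + em x.2 = 0 := b
      rw [a', add_zero] at b'
      exact (mul_eq_zero.mp b').resolve_left h0) a)
    (fun x a b => by
      have a' : em x.1 + em x.2 = 0 := a
      have b' : lam * em x.1 + em x.2 = 0 := b
      have h2 : (1 - lam) * em x.1 = 0 := by linear_combination a' - b'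
      have h3 : em x.1 = 0 := (mul_eq_zero.mp h2).resolve_left h1
      refine z x h3 ?_
      rw [h3, zero_add] at a'
      exact a')
    t1 t2 t3 t4
  exact hF.unique hG

end RVS
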