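import Pool.Agent.RVS.Ideal

/-!
# RVS/Ideal2: the twelve single sums and the sums along the lines `p = 0`, `q = 0`, `p + q = 0`

`id_all`: twelve cases, each from `idM` or `idO` (see `id000`): the ideal is `ρ M` or `ρ O` with
`(1,0,0)`: `tau O`, `G (a,b) = (b - 3a, -2a)`;  `(0,1,0)`: `(conj tau) O`, `G (a,b) = (-b, 2a - b)`;  `(1,1,0)`: `2 M`;
`(0,0,1)`: `O`, `G (a,b) = (3a, b)`;  `(1,0,1)`: `3 tau M`, `G (a,b) = (3(b-a), -2a)`;
`(0,1,1)`: `3 (conj tau) M`, `G (a,b) = (-3b, 2a - 3b)`;  `(1,1,1)`: `2 O`;  `k = 2`: `3 *` the case `k = 0`.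
(`em_eq`, `tau_sq`, `conj_tau` of RVS/Ker; surjectivity by `omega` with explicit quotients.)
-/

set_option autoImplicit false

open scoped ComplexConjugate

namespace RVS

theorem idl_pos {i j k : ℕ} {s : ℤ × ℤ} (h : (i = 0 ∨ s.2 % 2 = 0) ∧ (j = 0 ∨ (s.1 + s.2) % 2 = 0) ∧
    (k = 0 ∨ s.1 % 3 = 0) ∧ (k ≤ 1 ∨ s.2 % 3 = 0)) : idl i j k s = 1 := by
  unfold idl
  rw [if_pos h]

theorem idl_ne {i j k : ℕ} {s : ℤ × ℤ} (h : idl i j k s ≠ 0) :
    (i = 0 ∨ s.2 % 2 = 0) ∧ (j = 0 ∨ (s.1 + s.2) % 2 = 0) ∧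
    (k = 0 ∨ s.1 % 3 = 0) ∧ (k ≤ 1 ∨ s.2 % 3 = 0) := by
  by_contra h'
  exact h (by unfold idl; rw [if_neg h'])

theorem id010 : HasSum (fun s => idl 0 1 0 s * KL (em s)) (KL (conj tau) * LamO) := by
  refine idO 0 1 0 (G := fun n => (-n.2, 2 * n.1 - n.2)) ?_ (conj tau) ?_ ?_ ?_
  · intro v w h
    simp only [Prod.mk.injEq] at h
    ext <;> omega
  · intro n
    refine idl_pos ?_
    dsimp only
    omega
  · intro y hy
    have := idl_ne hy
    refine ⟨((y.2 - y.1) / 2, -y.1), ?_⟩
    ext <;> dsimp only <;> omega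
  · intro n
    rw [em_eq, em_eq, conj_tau]
    push_cast
    linear_combination (3 * (n.1 : ℂ)) * tau_sq

theorem id100 : HasSum (fun s => idl 1 0 0 s * KL (em s)) (KL tau * LamO) := by
  refine idO 1 0 0 (G := fun n => (n.2 - 3 * n.1, -2 * n.1)) ?_ tau ?_ ?_ ?_
  · intro v w h
    simp only [Prod.mk.injEq] at h
    ext <;> omega
  · intro n
    refine idl_pos ?_
    dsimp only
    omega
  · intro y hy
    have := idl_ne hy
    refine ⟨(-(y.2 / 2), y.1 - 3 * (y.2 / 2)), ?_⟩
    ext <;> dsimp only <;> omega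
  · intro n
    rw [em_eq, em_eq]
    push_cast
    linear_combination (-3 * (n.1 : ℂ)) * tau_sq

theorem id110 : HasSum (fun s => idl 1 1 0 s * KL (em s)) (KL 2 * LamM) := by
  refine idM 1 1 0 (G := fun n => (2 * n.1, 2 * n.2)) ?_ 2 ?_ ?_ ?_
  · intro v w h
    simp only [Prod.mk.injEq] at h
    ext <;> omega
  · intro n
    refine idl_pos ?_
    dsimp only
    omega
  · intro y hy
    have := idl_ne hy
    refine ⟨(y.1 / 2, y.2 / 2), ?_⟩
    ext <;> dsimp only <;> omega
  · intro n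
    rw [em_eq, em_eq]
    push_cast
    ring

theorem id001 : HasSum (fun s => idl 0 0 1 s * KL (em s)) (KL 1 * LamO) := by
  refine idO 0 0 1 (G := fun n => (3 * n.1, n.2)) ?_ 1 ?_ ?_ ?_
  · intro v w h
    simp only [Prod.mk.injEq] at h
    ext <;> omega
  · intro n
    refine idl_pos ?_
    dsimp only
    omega
  · intro y hy
    have := idl_ne hy
    refine ⟨(y.1 / 3, y.2), ?_⟩
    ext <;> dsimp only <;> omega
  · intro n
    rw [one_mul]

theorem id101 : HasSum (fun s => idl 1 0 1 s * KL (em s)) (KL (tau * 3) * LamM) := by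
  refine idM 1 0 1 (G := fun n => (3 * (n.2 - n.1), -2 * n.1)) ?_ (tau * 3) ?_ ?_ ?_
  · intro v w h
    simp only [Prod.mk.injEq] at h
    ext <;> omega
  · intro n
    refine idl_pos ?_
    dsimp only
    omega
  · intro y hy
    have := idl_ne hy
    refine ⟨(-(y.2 / 2), y.1 / 3 - y.2 / 2), ?_⟩
    ext <;> dsimp only <;> omega
  · intro n
    rw [em_eq, em_eq]
    push_cast
    linear_combination (-3 * (n.1 : ℂ)) * tau_sq

theorem id011 : HasSum (fun s => idl 0 1 1 s * KL (em s)) (KL (conj tau * 3) * LamM) := by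
  refine idM 0 1 1 (G := fun n => (-3 * n.2, 2 * n.1 - 3 * n.2)) ?_ (conj tau * 3) ?_ ?_ ?_
  · intro v w h
    simp only [Prod.mk.injEq] at h
    ext <;> omega
  · intro n
    refine idl_pos ?_
    dsimp only
    omega
  · intro y hy
    have := idl_ne hy
    refine ⟨((y.2 - y.1) / 2, -(y.1 / 3)), ?_⟩
    ext <;> dsimp only <;> omega
  · intro n
    rw [em_eq, em_eq, conj_tau]
    push_cast
    linear_combination (3 * (n.1 : ℂ)) * tau_sq

theorem id111 : HasSum (fun s => idl 1 1 1 s * KL (em s)) (KL 2 * LamO) := by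
  refine idO 1 1 1 (G := fun n => (6 * n.1, 2 * n.2)) ?_ 2 ?_ ?_ ?_
  · intro v w h
    simp only [Prod.mk.injEq] at h
    ext <;> omega
  · intro n
    refine idl_pos ?_
    dsimp only
    omega
  · intro y hy
    have := idl_ne hy
    refine ⟨(y.1 / 6, y.2 / 2), ?_⟩
    ext <;> dsimp only <;> omega
  · intro n
    rw [em_eq, em_eq]
    push_cast
    ring

theorem id002 : HasSum (fun s => idl 0 0 2 s * KL (em s)) (KL 3 * LamM) := by
  refine idM 0 0 2 (G := fun n => (3 * n.1, 3 * n.2)) ?_ 3 ?_ ?_ ?_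
  · intro v w h
    simp only [Prod.mk.injEq] at h
    ext <;> omega
  · intro n
    refine idl_pos ?_
    dsimp only
    omega
  · intro y hy
    have := idl_ne hy
    refine ⟨(y.1 / 3, y.2 / 3), ?_⟩
    ext <;> dsimp only <;> omega
  · intro n
    rw [em_eq, em_eq]
    push_cast
    ring

theorem id102 : HasSum (fun s => idl 1 0 2 s * KL (em s)) (KL (tau * 3) * LamO) := by
  refine idO 1 0 2 (G := fun n => (3 * (n.2 - 3 * n.1), -6 * n.1)) ?_ (tau * 3) ?_ ?_ ?_
  · intro v w h
    simp only [Prod.mk.injEq] at h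
    ext <;> omega
  · intro n
    refine idl_pos ?_
    dsimp only
    omega
  · intro y hy
    have := idl_ne hy
    refine ⟨(-(y.2 / 6), y.1 / 3 - 3 * (y.2 / 6)), ?_⟩
    ext <;> dsimp only <;> omega
  · intro n
    rw [em_eq, em_eq]
    push_cast
    linear_combination (-9 * (n.1 : ℂ)) * tau_sq

theorem id012 : HasSum (fun s => idl 0 1 2 s * KL (em s)) (KL (conj tau * 3) * LamO) := by
  refine idO 0 1 2 (G := fun n => (-3 * n.2, 3 * (2 * n.1 - n.2))) ?_ (conj tau * 3) ?_ ?_ ?_
  · intro v w h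
    simp only [Prod.mk.injEq] at h
    ext <;> omega
  · intro n
    refine idl_pos ?_
    dsimp only
    omega
  · intro y hy
    have := idl_ne hy
    refine ⟨((y.2 - y.1) / 6, -(y.1 / 3)), ?_⟩
    ext <;> dsimp only <;> omega
  · intro n
    rw [em_eq, em_eq, conj_tau]
    push_cast
    linear_combination (9 * (n.1 : ℂ)) * tau_sq

theorem id112 : HasSum (fun s => idl 1 1 2 s * KL (em s)) (KL (2 * 3) * LamM) := by
  refine idM 1 1 2 (G := fun n => (6 * n.1, 6 * n.2)) ?_ (2 * 3) ?_ ?_ ?_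
  · intro v w h
    simp only [Prod.mk.injEq] at h
    ext <;> omega
  · intro n
    refine idl_pos ?_
    dsimp only
    omega
  · intro y hy
    have := idl_ne hy
    refine ⟨(y.1 / 6, y.2 / 6), ?_⟩
    ext <;> dsimp only <;> omega
  · intro n
    rw [em_eq, em_eq]
    push_cast
    ring

theorem KL_one : KL 1 = 1 := by
  unfold KL
  simp

theorem id_all {i j k : ℕ} (hi : i ≤ 1) (hj : j ≤ 1) (hk : k ≤ 2) :
    HasSum (fun s => idl i j k s * KL (em s)) (LL i j k) := by
  interval_cases i <;> interval_cases j <;> interval_cases k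
  · exact id000
  · have h := id001
    rw [KL_one] at h
    simpa [LL] using h
  · simpa [LL] using id002
  · simpa [LL] using id010
  · have h := id011
    rw [KL_mul, mul_assoc] at h
    simpa [LL] using h
  · have h := id012
    rw [KL_mul, mul_assoc] at h
    simpa [LL] using h
  · simpa [LL] using id100
  · have h := id101
    rw [KL_mul, mul_assoc] at h
    simpa [LL] using h
  · have h := id102
    rw [KL_mul, mul_assoc] at h
    simpa [LL] using h
  · simpa [LL] using id110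
  · simpa [LL] using id111
  · have h := id112
    rw [KL_mul, mul_assoc] at h
    simpa [LL] using h

/-- the line `p = 0` -/
theorem line1 {c : V4 → ℂ} {i j k : ℕ} (hi : i ≤ 1) (hj : j ≤ 1) (hk : k ≤ 2)
    (h : ∀ s, c (0, s) = idl i j k s) [DecidablePred fun x : V4 => em x.1 = 0] :
    HasSum (fun x : V4 => if em x.1 = 0 then c x * KL (em x.2) else 0) (LL i j k) := by
  have hι : Function.Injective fun s : ℤ × ℤ => ((0, s) : V4) := by
    intro v w hvw
    exact (Prod.mk.injEq _ _ _ _ ▸ hvw).2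
  have h1 := hι.hasSum_iff (f := fun x : V4 => if em x.1 = 0 then c x * KL (em x.2) else 0)
    (a := LL i j k) (fun x hx => by
      have hne : ¬ em x.1 = 0 := fun h0 => hx ⟨x.2, by
        ext <;> simp [em_zero.mp h0]⟩
      simp only [if_neg hne])
  rw [← h1]
  have e : ((fun x : V4 => if em x.1 = 0 then c x * KL (em x.2) else 0) ∘
      fun s : ℤ × ℤ => ((0, s) : V4)) = fun s => idl i j k s * KL (em s) := by
    funext s
    have h0 : em (0 : ℤ × ℤ) = 0 := em_zero.mpr rfl
    simp only [Function.comp]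
    rw [if_pos h0, h]
  rw [e]
  exact id_all hi hj hk

/-- the line `q = 0` -/
theorem line2 {c : V4 → ℂ} {i j k : ℕ} (hi : i ≤ 1) (hj : j ≤ 1) (hk : k ≤ 2)
    (h : ∀ s, c (s, 0) = idl i j k s) [DecidablePred fun x : V4 => em x.2 = 0] :
    HasSum (fun x : V4 => if em x.2 = 0 then c x * KL (em x.1) else 0) (LL i j k) := by
  have hι : Function.Injective fun s : ℤ × ℤ => ((s, 0) : V4) := by
    intro v w hvw
    exact (Prod.mk.injEq _ _ _ _ ▸ hvw).1
  have h1 := hι.hasSum_iff (f := fun x : V4 => if em x.2 = 0 then c x * KL (em x.1) else 0)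
    (a := LL i j k) (fun x hx => by
      have hne : ¬ em x.2 = 0 := fun h0 => hx ⟨x.1, by
        ext <;> simp [em_zero.mp h0]⟩
      simp only [if_neg hne])
  rw [← h1]
  have e : ((fun x : V4 => if em x.2 = 0 then c x * KL (em x.1) else 0) ∘
      fun s : ℤ × ℤ => ((s, 0) : V4)) = fun s => idl i j k s * KL (em s) := by
    funext s
    have h0 : em (0 : ℤ × ℤ) = 0 := em_zero.mpr rfl
    simp only [Function.comp]
    rw [if_pos h0, h]
  rw [e]
  exact id_all hi hj hk

/-- the line `p + q = 0` -/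
theorem line3 {c : V4 → ℂ} {i j k : ℕ} (hi : i ≤ 1) (hj : j ≤ 1) (hk : k ≤ 2)
    (h : ∀ s, c (s, -s) = idl i j k s) [DecidablePred fun x : V4 => em x.1 + em x.2 = 0] :
    HasSum (fun x : V4 => if em x.1 + em x.2 = 0 then c x * KL (em x.1) else 0) (LL i j k) := by
  have hι : Function.Injective fun s : ℤ × ℤ => ((s, -s) : V4) := by
    intro v w hvw
    exact (Prod.mk.injEq _ _ _ _ ▸ hvw).1
  have h1 := hι.hasSum_iff (f := fun x : V4 => if em x.1 + em x.2 = 0 then c x * KL (em x.1) else 0)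
    (a := LL i j k) (fun x hx => by
      have hne : ¬ em x.1 + em x.2 = 0 := fun h0 => hx ⟨x.1, by
        rw [← em_add, em_zero] at h0
        have h2 : x.2 = -x.1 := (neg_eq_of_add_eq_zero_right h0).symm
        exact Prod.ext rfl h2.symm⟩
      simp only [if_neg hne])
  rw [← h1]
  have e : ((fun x : V4 => if em x.1 + em x.2 = 0 then c x * KL (em x.1) else 0) ∘
      fun s : ℤ × ℤ => ((s, -s) : V4)) = fun s => idl i j k s * KL (em s) := by
    funext s
    have h0 : em s + em (-s) = 0 := by rw [em_neg]; ring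
    simp only [Function.comp]
    rw [if_pos h0, h]
  rw [e]
  exact id_all hi hj hk

end RVS
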