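import Pool.Agent.RVS.Lit

/-!
# RVS/KLv: values of `KL` (generated)
-/

set_option autoImplicit false
set_option linter.unusedSimpArgs false
set_option linter.unusedVariables false
set_option linter.unnecessarySeqFocus false
set_option linter.unreachableTactic false
set_option linter.unusedTactic false

open scoped ComplexConjugate

namespace RVS

theorem KLv0 : KL (-tau) = 27 / 16 + 81 / 16 * tau := by
  have hc : conj (-tau : ℂ) = 1 + tau := by
    simp only [map_add, map_sub, map_mul, map_neg, map_div₀, map_ofNat, map_one, map_zero, conj_tau]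
    try ring
  refine KL_eq hc ?_
  linear_combination (-3 / 2 + 9 / 4 * tau - 9 / 8 * tau ^ 2 - 27 / 16 * tau ^ 3 + 27 / 4 * tau ^ 4 + 81 / 16 * tau ^ 5) * tau_sq

theorem KLv1 : KL (1 : ℂ) = 1 := by
  have hc : conj (1 : ℂ) = 1 := by
    simp only [map_add, map_sub, map_mul, map_neg, map_div₀, map_ofNat, map_one, map_zero, conj_tau]
    try ring
  refine KL_eq hc ?_
  linear_combination (0) * tau_sq

theorem KLv2 : KL (-3 * tau) = 1 / 432 + 1 / 144 * tau := by
  have hc : conj (-3 * tau : ℂ) = 3 + 3 * tau := by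
    simp only [map_add, map_sub, map_mul, map_neg, map_div₀, map_ofNat, map_one, map_zero, conj_tau]
    try ring
  refine KL_eq hc ?_
  linear_combination (-3 / 2 + 9 / 4 * tau - 9 / 8 * tau ^ 2 - 27 / 16 * tau ^ 3 + 27 / 4 * tau ^ 4 + 81 / 16 * tau ^ 5) * tau_sq

theorem KLv3 : KL (3 + 3 * tau) = -1 / 216 - 1 / 144 * tau := by
  have hc : conj (3 + 3 * tau : ℂ) = -3 * tau := by
    simp only [map_add, map_sub, map_mul, map_neg, map_div₀, map_ofNat, map_one, map_zero, conj_tau]
    try ring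
  refine KL_eq hc ?_
  linear_combination (-3 / 2 + 9 / 4 * tau - 99 / 16 * tau ^ 2 - 351 / 16 * tau ^ 3 - 297 / 16 * tau ^ 4 - 81 / 16 * tau ^ 5) * tau_sq

theorem KLv4 : KL (2 : ℂ) = 1 / 64 := by
  have hc : conj (2 : ℂ) = 2 := by
    simp only [map_add, map_sub, map_mul, map_neg, map_div₀, map_ofNat, map_one, map_zero, conj_tau]
    try ring
  refine KL_eq hc ?_
  linear_combination (0) * tau_sq

theorem KLv5 : KL (3 : ℂ) = 1 / 729 := by
  have hc : conj (3 : ℂ) = 3 := by
    simp only [map_add, map_sub, map_mul, map_neg, map_div₀, map_ofNat, map_one, map_zero, conj_tau]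
    try ring
  refine KL_eq hc ?_
  linear_combination (0) * tau_sq

theorem KLv6 : KL (1 + 3 / 2 * tau) = -5 / 4 - 3 / 4 * tau := by
  have hc : conj (1 + 3 / 2 * tau : ℂ) = -1 / 2 - 3 / 2 * tau := by
    simp only [map_add, map_sub, map_mul, map_neg, map_div₀, map_ofNat, map_one, map_zero, conj_tau]
    try ring
  refine KL_eq hc ?_
  linear_combination (-63 / 32 - 189 / 64 * tau - 2997 / 128 * tau ^ 2 - 11907 / 256 * tau ^ 3 - 2187 / 64 * tau ^ 4 - 2187 / 256 * tau ^ 5) * tau_sq

theorem KLv7 : KL (3 / 2 * tau) = 4 / 27 + 4 / 9 * tau := by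
  have hc : conj (3 / 2 * tau : ℂ) = -3 / 2 - 3 / 2 * tau := by
    simp only [map_add, map_sub, map_mul, map_neg, map_div₀, map_ofNat, map_one, map_zero, conj_tau]
    try ring
  refine KL_eq hc ?_
  linear_combination (-3 / 2 + 9 / 4 * tau - 9 / 8 * tau ^ 2 - 27 / 16 * tau ^ 3 + 27 / 4 * tau ^ 4 + 81 / 16 * tau ^ 5) * tau_sq

theorem KLv8 : KL (1 / 3 : ℂ) = 729 := by
  have hc : conj (1 / 3 : ℂ) = 1 / 3 := by
    simp only [map_add, map_sub, map_mul, map_neg, map_div₀, map_ofNat, map_one, map_zero, conj_tau]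
    try ring
  refine KL_eq hc ?_
  linear_combination (0) * tau_sq

theorem KLv9 : KL (1 / 2 * tau) = 108 + 324 * tau := by
  have hc : conj (1 / 2 * tau : ℂ) = -1 / 2 - 1 / 2 * tau := by
    simp only [map_add, map_sub, map_mul, map_neg, map_div₀, map_ofNat, map_one, map_zero, conj_tau]
    try ring
  refine KL_eq hc ?_
  linear_combination (-3 / 2 + 9 / 4 * tau - 9 / 8 * tau ^ 2 - 27 / 16 * tau ^ 3 + 27 / 4 * tau ^ 4 + 81 / 16 * tau ^ 5) * tau_sq

theorem KLv10 : KL (1 + tau) = -27 / 8 - 81 / 16 * tau := by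
  have hc : conj (1 + tau : ℂ) = -tau := by
    simp only [map_add, map_sub, map_mul, map_neg, map_div₀, map_ofNat, map_one, map_zero, conj_tau]
    try ring
  refine KL_eq hc ?_
  linear_combination (-3 / 2 + 9 / 4 * tau - 99 / 16 * tau ^ 2 - 351 / 16 * tau ^ 3 - 297 / 16 * tau ^ 4 - 81 / 16 * tau ^ 5) * tau_sq

end RVS
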