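import Pool.Agent.RVS.Lit
import Pool.Agent.RVS.Ideal2
import Pool.Agent.RVS.KLv

/-!
# RVS/C5: four-line instance, `lam = -2 - 3 * tau`, lattice 0 2 0 0 (generated)
-/

set_option autoImplicit false
set_option linter.unusedSimpArgs false
set_option linter.unusedVariables false
set_option linter.unnecessarySeqFocus false
set_option linter.unreachableTactic false
set_option linter.unusedTactic false

open scoped ComplexConjugate

namespace RVS

def C5_D (n : V4) : V4 := ((3 * n.1.2, n.1.1 + 2 * n.1.2), (3 * n.2.2, 2 * n.2.1 + 2 * n.2.2))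

theorem C5_b1 : Bas 0 2 0 0 C5_D where
  inj := by
    intro m n h
    simp only [C5_D, Prod.mk.injEq] at h
    obtain ⟨⟨h1, h2⟩, h3, h4⟩ := h
    ext <;> omega
  one := fun n => by
    simp only [C5_D, cA, cB, cC, ln, Prod.fst_add, Prod.snd_add, Prod.fst_sub, Prod.snd_sub,
      Prod.fst_zero, Prod.snd_zero, if_true, OfNat.ofNat_ne_one, zero_ne_one, if_false]
    try omega
  sur := fun y h1 h2 h3 => by
    simp only [cA, cB, cC, ln, Prod.fst_add, Prod.snd_add, Prod.fst_sub, Prod.snd_sub,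
      Prod.fst_zero, Prod.snd_zero, if_true, OfNat.ofNat_ne_one, zero_ne_one, if_false] at h1 h2 h3
    refine ⟨(((-2 * y.1.1 + 3 * y.1.2) / 3, (y.1.1) / 3), ((-2 * y.2.1 + 3 * y.2.2) / 6, (y.2.1) / 3)), ?_⟩
    simp only [C5_D]
    try (ext <;> simp only [] <;> omega)

def C5_G2 (n : V4) : V4 := ((-n.1.1 + n.1.2, 2 * n.1.2), (n.2.1 + n.2.2, n.2.1))

theorem C5_b2 : Bas 1 1 0 0 C5_G2 where
  inj := by
    intro m n h
    simp only [C5_G2, Prod.mk.injEq] at h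
    obtain ⟨⟨h1, h2⟩, h3, h4⟩ := h
    ext <;> omega
  one := fun n => by
    simp only [C5_G2, cA, cB, cC, ln, Prod.fst_add, Prod.snd_add, Prod.fst_sub, Prod.snd_sub,
      Prod.fst_zero, Prod.snd_zero, if_true, OfNat.ofNat_ne_one, zero_ne_one, if_false]
    try omega
  sur := fun y h1 h2 h3 => by
    simp only [cA, cB, cC, ln, Prod.fst_add, Prod.snd_add, Prod.fst_sub, Prod.snd_sub,
      Prod.fst_zero, Prod.snd_zero, if_true, OfNat.ofNat_ne_one, zero_ne_one, if_false] at h1 h2 h3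
    refine ⟨(((-2 * y.1.1 + y.1.2) / 2, (y.1.2) / 2), (y.2.2, y.2.1 - y.2.2)), ?_⟩
    simp only [C5_G2]
    try (ext <;> simp only [] <;> omega)

def C5_G3 (n : V4) : V4 := ((3 * n.1.1 + 6 * n.1.2, 3 * n.1.1), (-3 * n.1.2 - 3 * n.2.2, -n.1.1 - 2 * n.1.2 - 2 * n.2.1 - 2 * n.2.2))

theorem C5_b3 : Bas 0 3 1 1 C5_G3 where
  inj := by
    intro m n h
    simp only [C5_G3, Prod.mk.injEq] at h
    obtain ⟨⟨h1, h2⟩, h3, h4⟩ := h
    ext <;> omega
  one := fun n => by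
    simp only [C5_G3, cA, cB, cC, ln, Prod.fst_add, Prod.snd_add, Prod.fst_sub, Prod.snd_sub,
      Prod.fst_zero, Prod.snd_zero, if_true, OfNat.ofNat_ne_one, zero_ne_one, if_false]
    try omega
  sur := fun y h1 h2 h3 => by
    simp only [cA, cB, cC, ln, Prod.fst_add, Prod.snd_add, Prod.fst_sub, Prod.snd_sub,
      Prod.fst_zero, Prod.snd_zero, if_true, OfNat.ofNat_ne_one, zero_ne_one, if_false] at h1 h2 h3
    refine ⟨(((y.1.2) / 3, (y.1.1 - y.1.2) / 6), ((-y.1.2 + 2 * y.2.1 - 3 * y.2.2) / 6, (-y.1.1 + y.1.2 - 2 * y.2.1) / 6)), ?_⟩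
    simp only [C5_G3]
    try (ext <;> simp only [] <;> omega)

def C5_G4 (n : V4) : V4 := ((3 * n.2.1, n.2.1 - 2 * n.2.2), (-n.1.1 + n.1.2 - 2 * n.2.1 + n.2.2, 2 * n.1.2 + 2 * n.2.2))

theorem C5_b4 : Bas 1 2 1 1 C5_G4 where
  inj := by
    intro m n h
    simp only [C5_G4, Prod.mk.injEq] at h
    obtain ⟨⟨h1, h2⟩, h3, h4⟩ := h
    ext <;> omega
  one := fun n => by
    simp only [C5_G4, cA, cB, cC, ln, Prod.fst_add, Prod.snd_add, Prod.fst_sub, Prod.snd_sub,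
      Prod.fst_zero, Prod.snd_zero, if_true, OfNat.ofNat_ne_one, zero_ne_one, if_false]
    try omega
  sur := fun y h1 h2 h3 => by
    simp only [cA, cB, cC, ln, Prod.fst_add, Prod.snd_add, Prod.fst_sub, Prod.snd_sub,
      Prod.fst_zero, Prod.snd_zero, if_true, OfNat.ofNat_ne_one, zero_ne_one, if_false] at h1 h2 h3
    refine ⟨(((-4 * y.1.1 - 6 * y.2.1 + 3 * y.2.2) / 6, (-y.1.1 + 3 * y.1.2 + 3 * y.2.2) / 6), ((y.1.1) / 3, (y.1.1 - 3 * y.1.2) / 6)), ?_⟩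
    simp only [C5_G4]
    try (ext <;> simp only [] <;> omega)

theorem C5_f2 (P Q : ℂ) : HasSum (fun x => ind 0 2 0 0 x * KS ((-2 - 3 * tau) * em x.1) (em x.2)
    ((-2 - 3 * tau) * P) (Q)) ((1 / 432 + 1 / 144 * tau) * TT 1 1 0 0 ((-2 - 3 * tau) * P) (Q)) := by
  have h := face C5_b1 C5_b2 (-3 * tau) (y1 := fun x => (-2 - 3 * tau) * em x.1) (y2 := fun x => em x.2)
    (fun n => by
      simp only [C5_D, C5_G2, em_eq]
      try push_cast
      try linear_combination (-3 * (n.1.1 : ℂ) - 6 * (n.1.2 : ℂ)) * tau_sq)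
    (fun n => by
      simp only [C5_D, C5_G2, em_eq]
      try push_cast
      try linear_combination (3 * (n.2.1 : ℂ) + 3 * (n.2.2 : ℂ)) * tau_sq)
    ((-2 - 3 * tau) * P) (Q)
  rw [KLv2] at h
  exact h

theorem C5_f3 (P Q : ℂ) : HasSum (fun x => ind 0 2 0 0 x * KS ((1 - (-2 - 3 * tau)) * em x.1) (-(em x.1 + em x.2))
    ((1 - (-2 - 3 * tau)) * P) (-(P + Q))) ((1) * TT 0 3 1 1 ((1 - (-2 - 3 * tau)) * P) (-(P + Q))) := by
  have h := face C5_b1 C5_b3 (1 : ℂ) (y1 := fun x => (1 - (-2 - 3 * tau)) * em x.1) (y2 := fun x => -(em x.1 + em x.2))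
    (fun n => by
      simp only [C5_D, C5_G3, em_eq]
      try push_cast
      try linear_combination (9 * (n.1.2 : ℂ)) * tau_sq)
    (fun n => by
      simp only [C5_D, C5_G3, em_eq]
      try push_cast
      try linear_combination (0) * tau_sq)
    ((1 - (-2 - 3 * tau)) * P) (-(P + Q))
  rw [KLv1] at h
  exact h

theorem C5_f4 (P Q : ℂ) : HasSum (fun x => ind 0 2 0 0 x * KS ((1 - (-2 - 3 * tau)) * em x.2) ((-2 - 3 * tau) * (em x.1 + em x.2))
    ((1 - (-2 - 3 * tau)) * Q) ((-2 - 3 * tau) * (P + Q))) ((1 / 432 + 1 / 144 * tau) * TT 1 2 1 1 ((1 - (-2 - 3 * tau)) * Q) ((-2 - 3 * tau) * (P + Q))) := by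
  have h := face C5_b1 C5_b4 (-3 * tau) (y1 := fun x => (1 - (-2 - 3 * tau)) * em x.2) (y2 := fun x => (-2 - 3 * tau) * (em x.1 + em x.2))
    (fun n => by
      simp only [C5_D, C5_G4, em_eq]
      try push_cast
      try linear_combination (9 * (n.2.1 : ℂ) + 9 * (n.2.2 : ℂ)) * tau_sq)
    (fun n => by
      simp only [C5_D, C5_G4, em_eq]
      try push_cast
      try linear_combination (-3 * (n.1.1 : ℂ) - 6 * (n.1.2 : ℂ) - 6 * (n.2.1 : ℂ) - 6 * (n.2.2 : ℂ)) * tau_sq)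
    ((1 - (-2 - 3 * tau)) * Q) ((-2 - 3 * tau) * (P + Q))
  rw [KLv2] at h
  exact h

theorem C5_w1 (s : ℤ × ℤ) : ind 0 2 0 0 (0, s) = idl 1 0 1 s := by
  refine ind_idl ?_
  simp only [cA, cB, cC, ln, Prod.fst_add, Prod.snd_add, Prod.fst_sub, Prod.snd_sub, Prod.fst_neg,
    Prod.snd_neg, Prod.fst_zero, Prod.snd_zero, if_true, OfNat.ofNat_ne_one, zero_ne_one, if_false]
  constructor
  · rintro ⟨h1, h2, h3⟩
    refine ⟨?_, ?_, ?_, ?_⟩ <;> first | omega | simp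
  · rintro ⟨h1, h2, h3, h4⟩
    refine ⟨?_, ?_, ?_⟩ <;> first | omega | simp

theorem C5_w2 (s : ℤ × ℤ) : ind 0 2 0 0 (s, 0) = idl 0 0 1 s := by
  refine ind_idl ?_
  simp only [cA, cB, cC, ln, Prod.fst_add, Prod.snd_add, Prod.fst_sub, Prod.snd_sub, Prod.fst_neg,
    Prod.snd_neg, Prod.fst_zero, Prod.snd_zero, if_true, OfNat.ofNat_ne_one, zero_ne_one, if_false]
  constructor
  · rintro ⟨h1, h2, h3⟩
    refine ⟨?_, ?_, ?_, ?_⟩ <;> first | omega | simp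
  · rintro ⟨h1, h2, h3, h4⟩
    refine ⟨?_, ?_, ?_⟩ <;> first | omega | simp

theorem C5_w3 (s : ℤ × ℤ) : ind 0 2 0 0 (s, -s) = idl 1 0 1 s := by
  refine ind_idl ?_
  simp only [cA, cB, cC, ln, Prod.fst_add, Prod.snd_add, Prod.fst_sub, Prod.snd_sub, Prod.fst_neg,
    Prod.snd_neg, Prod.fst_zero, Prod.snd_zero, if_true, OfNat.ofNat_ne_one, zero_ne_one, if_false]
  constructor
  · rintro ⟨h1, h2, h3⟩
    refine ⟨?_, ?_, ?_, ?_⟩ <;> first | omega | simp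
  · rintro ⟨h1, h2, h3, h4⟩
    refine ⟨?_, ?_, ?_⟩ <;> first | omega | simp

def C5_i (s : ℤ × ℤ) : V4 := ((3 * s.1, s.2), (-3 * s.1 + 3 * s.2, -6 * s.1 + 2 * s.2))

theorem C5_i0 (y : V4) (h : (-2 - 3 * tau) * em y.1 + em y.2 = 0) :
    (-6 * y.1.2 + 3 * y.2.2 - -6 * y.1.1 = 0) ∧ (3 * y.1.1 + -9 * y.1.2 + 3 * y.2.1 = 0) := by
  refine ztau ?_
  simp only [em_eq] at h
  try push_cast
  linear_combination 3 * h - (-9 * (y.1.1 : ℂ)) * tau_sq

theorem C5_i1 (s : ℤ × ℤ) : (-2 - 3 * tau) * em (C5_i s).1 + em (C5_i s).2 = 0 := by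
  simp only [C5_i, em_eq]
  try push_cast
  try linear_combination (-9 * (s.1 : ℂ)) * tau_sq

theorem C5_i2 (s : ℤ × ℤ) : em (C5_i s).1 = (1 : ℂ) * em (3 * s.1, s.2) := by
  simp only [C5_i, em_eq]
  try push_cast
  try linear_combination (0) * tau_sq

theorem C5_l4 [DecidablePred fun x : V4 => (-2 - 3 * tau) * em x.1 + em x.2 = 0] :
    HasSum (fun x : V4 => if (-2 - 3 * tau) * em x.1 + em x.2 = 0 then ind 0 2 0 0 x * KL (em x.1)
      else 0) ((1) * LamO) := by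
  have hinj : Function.Injective C5_i := by
    intro m n h
    simp only [C5_i, Prod.mk.injEq] at h
    obtain ⟨⟨h1, h2⟩, h3, h4⟩ := h
    ext <;> omega
  refine (line hinj (c := ind 0 2 0 0)
    (L := fun x : V4 => (-2 - 3 * tau) * em x.1 + em x.2 = 0) (fun s => ind_one ?_)
    (fun s => C5_i1 s) (fun y hy hL => ?_) (fun x => KL (em x.1)) _).mp ?_
  · simp only [C5_i, cA, cB, cC, ln, Prod.fst_add, Prod.snd_add, Prod.fst_sub, Prod.snd_sub,
      Prod.fst_zero, Prod.snd_zero, if_true, OfNat.ofNat_ne_one, zero_ne_one, if_false]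
    omega
  · obtain ⟨h1, h2, h3⟩ := ind_ne hy
    obtain ⟨h4, h5⟩ := C5_i0 y hL
    simp only [cA, cB, cC, ln, Prod.fst_add, Prod.snd_add, Prod.fst_sub, Prod.snd_sub,
      Prod.fst_zero, Prod.snd_zero, if_true, OfNat.ofNat_ne_one, zero_ne_one, if_false] at h1 h2 h3
    refine ⟨((y.1.1) / 3, (3 * y.1.2) / 3), ?_⟩
    simp only [C5_i]
    ext <;> simp only [] <;> omega
  · simp only [C5_i2, KL_mul, KLv1]
    exact LamO_hasSum.mul_left _

theorem C5 (P Q : ℂ) :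
    TT 0 2 0 0 P Q - 4 * ((1 / 432 + 1 / 144 * tau) * TT 1 1 0 0 ((-2 - 3 * tau) * P) (Q))
      + 6 * ((1) * TT 0 3 1 1 ((1 - (-2 - 3 * tau)) * P) (-(P + Q)))
      - 4 * 6 * ((1 / 432 + 1 / 144 * tau) * TT 1 2 1 1 ((1 - (-2 - 3 * tau)) * Q) ((-2 - 3 * tau) * (P + Q))) =
      -((-3 - 6 * tau) * (h2 Q (P + Q) ((-2 - 3 * tau) * P + Q) * LL 1 0 1 + (1 / 4) * h2 P (P + Q) (P + Q * (1 / 4 + 3 / 4 * tau)) * LL 0 0 1
        + (1 / 6) * h2 P (-Q) (-(((-2 - 3 * tau) * P + Q) * (-1 / 2 * tau))) * LL 1 0 1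
        + (1 / 24) * h2 P (-(Q * (1 / 4 + 3 / 4 * tau))) ((P + Q) * (-1 / 2 * tau)) * ((1) * LamO))) := by
  have hlb : conj (-2 - 3 * tau) = (1 + 3 * tau) := by
    simp only [map_add, map_sub, map_mul, map_neg, map_div₀, map_ofNat, map_one, map_zero, conj_tau]
    try ring
  have hmu : (-2 - 3 * tau) * (1 / 4 + 3 / 4 * tau) = 1 := by linear_combination (-9 / 4) * tau_sq
  have hnu : (1 - (-2 - 3 * tau)) * (-1 / 2 * tau) = 1 := by linear_combination (-3 / 2) * tau_sq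
  have hn1 : (-2 - 3 * tau) * (1 + 3 * tau) = 4 := by linear_combination (-9) * tau_sq
  have hn2 : (1 - (-2 - 3 * tau)) * (1 - (1 + 3 * tau)) = 6 := by linear_combination (-9) * tau_sq
  have h0 : (-2 - 3 * tau) ≠ 0 := left_ne_zero_of_mul_eq_one hmu
  have h1 : 1 - (-2 - 3 * tau) ≠ 0 := left_ne_zero_of_mul_eq_one hnu
  have k1 := kap1_eq hlb hmu hnu hn1 hn2 P Q
  have k2 := kap2_eq hlb hmu hnu hn1 hn2 P Q
  have k3 := kap3_eq hlb hmu hnu hn1 hn2 P Q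
  have k4 := kap4_eq hlb hmu hnu hn1 hn2 P Q
  have h := inst (c := ind 0 2 0 0) h0 h1 (T_hasSum 0 2 0 0 P Q) (C5_f2 P Q) (C5_f3 P Q)
    (C5_f4 P Q) (line1 (by norm_num) (by norm_num) (by norm_num) C5_w1)
    (line2 (by norm_num) (by norm_num) (by norm_num) C5_w2)
    (line3 (by norm_num) (by norm_num) (by norm_num) C5_w3) C5_l4
  have e1 : nn (-2 - 3 * tau) = 4 := by rw [nn, hlb, hn1]
  have e2 : nn (1 - (-2 - 3 * tau)) = 6 := by rw [nn, map_sub, map_one, hlb, hn2]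
  rw [e1, e2] at h
  linear_combination h + (LL 1 0 1) * k1 + (1 / 4) * (LL 0 0 1) * k2 + (1 / 6) * (LL 1 0 1) * k3
    + (1 / 24) * ((1) * LamO) * k4

end RVS
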