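import Pool.Agent.RVS.Lit
import Pool.Agent.RVS.Ideal2
import Pool.Agent.RVS.KLv

/-!
# RVS/C9: four-line instance, `lam = 2 + 3 * tau`, lattice 0 2 3 1 (generated)
-/

set_option autoImplicit false
set_option linter.unusedSimpArgs false
set_option linter.unusedVariables false
set_option linter.unnecessarySeqFocus false
set_option linter.unreachableTactic false
set_option linter.unusedTactic false

open scoped ComplexConjugate

namespace RVS

def C9_D (n : V4) : V4 := ((3 * n.1.1 + 9 * n.1.2, 3 * n.1.1 + 6 * n.1.2), (3 * n.1.2 + 6 * n.2.2, 2 * n.1.2 + 2 * n.2.1 + 4 * n.2.2))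

theorem C9_b1 : Bas 0 2 3 1 C9_D where
  inj := by
    intro m n h
    simp only [C9_D, Prod.mk.injEq] at h
    obtain ⟨⟨h1, h2⟩, h3, h4⟩ := h
    ext <;> omega
  one := fun n => by
    simp only [C9_D, cA, cB, cC, ln, Prod.fst_add, Prod.snd_add, Prod.fst_sub, Prod.snd_sub,
      Prod.fst_zero, Prod.snd_zero, if_true, OfNat.ofNat_ne_one, zero_ne_one, if_false]
    try omega
  sur := fun y h1 h2 h3 => by
    simp only [cA, cB, cC, ln, Prod.fst_add, Prod.snd_add, Prod.fst_sub, Prod.snd_sub,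
      Prod.fst_zero, Prod.snd_zero, if_true, OfNat.ofNat_ne_one, zero_ne_one, if_false] at h1 h2 h3
    refine ⟨(((-2 * y.1.1 + 3 * y.1.2) / 3, (y.1.1 - y.1.2) / 3), ((-2 * y.2.1 + 3 * y.2.2) / 6, (-y.1.1 + y.1.2 + y.2.1) / 6)), ?_⟩
    simp only [C9_D]
    try (ext <;> simp only [] <;> omega)

def C9_G2 (n : V4) : V4 := ((-3 * n.1.2, -2 * n.1.1 - 6 * n.1.2), (n.1.2 + n.2.1 + 2 * n.2.2, n.2.1))

theorem C9_b2 : Bas 1 1 3 1 C9_G2 where
  inj := by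
    intro m n h
    simp only [C9_G2, Prod.mk.injEq] at h
    obtain ⟨⟨h1, h2⟩, h3, h4⟩ := h
    ext <;> omega
  one := fun n => by
    simp only [C9_G2, cA, cB, cC, ln, Prod.fst_add, Prod.snd_add, Prod.fst_sub, Prod.snd_sub,
      Prod.fst_zero, Prod.snd_zero, if_true, OfNat.ofNat_ne_one, zero_ne_one, if_false]
    try omega
  sur := fun y h1 h2 h3 => by
    simp only [cA, cB, cC, ln, Prod.fst_add, Prod.snd_add, Prod.fst_sub, Prod.snd_sub,
      Prod.fst_zero, Prod.snd_zero, if_true, OfNat.ofNat_ne_one, zero_ne_one, if_false] at h1 h2 h3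
    refine ⟨(((2 * y.1.1 - y.1.2) / 2, (-y.1.1) / 3), (y.2.2, (y.1.1 + 3 * y.2.1 - 3 * y.2.2) / 6)), ?_⟩
    simp only [C9_G2]
    try (ext <;> simp only [] <;> omega)

def C9_G3 (n : V4) : V4 := ((-3 * n.1.1 - 6 * n.1.2, -n.1.1), (-2 * n.1.2 + n.2.1 - n.2.2, -n.1.1 - 4 * n.1.2 - 2 * n.2.2))

theorem C9_b3 : Bas 1 3 1 1 C9_G3 where
  inj := by
    intro m n h
    simp only [C9_G3, Prod.mk.injEq] at h
    obtain ⟨⟨h1, h2⟩, h3, h4⟩ := h
    ext <;> omega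
  one := fun n => by
    simp only [C9_G3, cA, cB, cC, ln, Prod.fst_add, Prod.snd_add, Prod.fst_sub, Prod.snd_sub,
      Prod.fst_zero, Prod.snd_zero, if_true, OfNat.ofNat_ne_one, zero_ne_one, if_false]
    try omega
  sur := fun y h1 h2 h3 => by
    simp only [cA, cB, cC, ln, Prod.fst_add, Prod.snd_add, Prod.fst_sub, Prod.snd_sub,
      Prod.fst_zero, Prod.snd_zero, if_true, OfNat.ofNat_ne_one, zero_ne_one, if_false] at h1 h2 h3
    refine ⟨((-y.1.2, (-y.1.1 + 3 * y.1.2) / 6), ((y.1.2 + 2 * y.2.1 - y.2.2) / 2, (2 * y.1.1 - 3 * y.1.2 - 3 * y.2.2) / 6)), ?_⟩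
    simp only [C9_G3]
    try (ext <;> simp only [] <;> omega)

def C9_G4 (n : V4) : V4 := ((-3 * n.2.1, 2 * n.1.2 - n.2.1 + 4 * n.2.2), (3 * n.1.1 + 6 * n.1.2 + 3 * n.2.1 + 3 * n.2.2, -4 * n.1.2 + 2 * n.2.1 - 2 * n.2.2))

theorem C9_b4 : Bas 0 2 1 4 C9_G4 where
  inj := by
    intro m n h
    simp only [C9_G4, Prod.mk.injEq] at h
    obtain ⟨⟨h1, h2⟩, h3, h4⟩ := h
    ext <;> omega
  one := fun n => by
    simp only [C9_G4, cA, cB, cC, ln, Prod.fst_add, Prod.snd_add, Prod.fst_sub, Prod.snd_sub,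
      Prod.fst_zero, Prod.snd_zero, if_true, OfNat.ofNat_ne_one, zero_ne_one, if_false]
    try omega
  sur := fun y h1 h2 h3 => by
    simp only [cA, cB, cC, ln, Prod.fst_add, Prod.snd_add, Prod.fst_sub, Prod.snd_sub,
      Prod.fst_zero, Prod.snd_zero, if_true, OfNat.ofNat_ne_one, zero_ne_one, if_false] at h1 h2 h3
    refine ⟨(((4 * y.1.1 + 2 * y.2.1 + 3 * y.2.2) / 6, (-y.1.1 - y.1.2 - 2 * y.2.2) / 6), ((-y.1.1) / 3, (2 * y.1.2 + y.2.2) / 6)), ?_⟩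
    simp only [C9_G4]
    try (ext <;> simp only [] <;> omega)

theorem C9_f2 (P Q : ℂ) : HasSum (fun x => ind 0 2 3 1 x * KS ((2 + 3 * tau) * em x.1) (em x.2)
    ((2 + 3 * tau) * P) (Q)) ((1 / 432 + 1 / 144 * tau) * TT 1 1 3 1 ((2 + 3 * tau) * P) (Q)) := by
  have h := face C9_b1 C9_b2 (-3 * tau) (y1 := fun x => (2 + 3 * tau) * em x.1) (y2 := fun x => em x.2)
    (fun n => by
      simp only [C9_D, C9_G2, em_eq]
      try push_cast
      try linear_combination (9 * (n.1.1 : ℂ) + 18 * (n.1.2 : ℂ)) * tau_sq)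
    (fun n => by
      simp only [C9_D, C9_G2, em_eq]
      try push_cast
      try linear_combination (3 * (n.1.2 : ℂ) + 3 * (n.2.1 : ℂ) + 6 * (n.2.2 : ℂ)) * tau_sq)
    ((2 + 3 * tau) * P) (Q)
  rw [KLv2] at h
  exact h

theorem C9_f3 (P Q : ℂ) : HasSum (fun x => ind 0 2 3 1 x * KS ((1 - (2 + 3 * tau)) * em x.1) (-(em x.1 + em x.2))
    ((1 - (2 + 3 * tau)) * P) (-(P + Q))) ((-1 / 216 - 1 / 144 * tau) * TT 1 3 1 1 ((1 - (2 + 3 * tau)) * P) (-(P + Q))) := by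
  have h := face C9_b1 C9_b3 (3 + 3 * tau) (y1 := fun x => (1 - (2 + 3 * tau)) * em x.1) (y2 := fun x => -(em x.1 + em x.2))
    (fun n => by
      simp only [C9_D, C9_G3, em_eq]
      try push_cast
      try linear_combination (-9 * (n.1.2 : ℂ)) * tau_sq)
    (fun n => by
      simp only [C9_D, C9_G3, em_eq]
      try push_cast
      try linear_combination (6 * (n.1.2 : ℂ) - 3 * (n.2.1 : ℂ) + 3 * (n.2.2 : ℂ)) * tau_sq)
    ((1 - (2 + 3 * tau)) * P) (-(P + Q))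
  rw [KLv3] at h
  exact h

theorem C9_f4 (P Q : ℂ) : HasSum (fun x => ind 0 2 3 1 x * KS ((1 - (2 + 3 * tau)) * em x.2) ((2 + 3 * tau) * (em x.1 + em x.2))
    ((1 - (2 + 3 * tau)) * Q) ((2 + 3 * tau) * (P + Q))) ((1 / 64) * TT 0 2 1 4 ((1 - (2 + 3 * tau)) * Q) ((2 + 3 * tau) * (P + Q))) := by
  have h := face C9_b1 C9_b4 (2 : ℂ) (y1 := fun x => (1 - (2 + 3 * tau)) * em x.2) (y2 := fun x => (2 + 3 * tau) * (em x.1 + em x.2))
    (fun n => by
      simp only [C9_D, C9_G4, em_eq]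
      try push_cast
      try linear_combination (-9 * (n.1.2 : ℂ) - 18 * (n.2.2 : ℂ)) * tau_sq)
    (fun n => by
      simp only [C9_D, C9_G4, em_eq]
      try push_cast
      try linear_combination (9 * (n.1.1 : ℂ) + 36 * (n.1.2 : ℂ) + 18 * (n.2.2 : ℂ)) * tau_sq)
    ((1 - (2 + 3 * tau)) * Q) ((2 + 3 * tau) * (P + Q))
  rw [KLv4] at h
  exact h

theorem C9_w1 (s : ℤ × ℤ) : ind 0 2 3 1 (0, s) = idl 1 1 1 s := by
  refine ind_idl ?_
  simp only [cA, cB, cC, ln, Prod.fst_add, Prod.snd_add, Prod.fst_sub, Prod.snd_sub, Prod.fst_neg,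
    Prod.snd_neg, Prod.fst_zero, Prod.snd_zero, if_true, OfNat.ofNat_ne_one, zero_ne_one, if_false]
  constructor
  · rintro ⟨h1, h2, h3⟩
    refine ⟨?_, ?_, ?_, ?_⟩ <;> first | omega | simp
  · rintro ⟨h1, h2, h3, h4⟩
    refine ⟨?_, ?_, ?_⟩ <;> first | omega | simp

theorem C9_w2 (s : ℤ × ℤ) : ind 0 2 3 1 (s, 0) = idl 0 1 2 s := by
  refine ind_idl ?_
  simp only [cA, cB, cC, ln, Prod.fst_add, Prod.snd_add, Prod.fst_sub, Prod.snd_sub, Prod.fst_neg,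
    Prod.snd_neg, Prod.fst_zero, Prod.snd_zero, if_true, OfNat.ofNat_ne_one, zero_ne_one, if_false]
  constructor
  · rintro ⟨h1, h2, h3⟩
    refine ⟨?_, ?_, ?_, ?_⟩ <;> first | omega | simp
  · rintro ⟨h1, h2, h3, h4⟩
    refine ⟨?_, ?_, ?_⟩ <;> first | omega | simp

theorem C9_w3 (s : ℤ × ℤ) : ind 0 2 3 1 (s, -s) = idl 1 0 2 s := by
  refine ind_idl ?_
  simp only [cA, cB, cC, ln, Prod.fst_add, Prod.snd_add, Prod.fst_sub, Prod.snd_sub, Prod.fst_neg,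
    Prod.snd_neg, Prod.fst_zero, Prod.snd_zero, if_true, OfNat.ofNat_ne_one, zero_ne_one, if_false]
  constructor
  · rintro ⟨h1, h2, h3⟩
    refine ⟨?_, ?_, ?_, ?_⟩ <;> first | omega | simp
  · rintro ⟨h1, h2, h3, h4⟩
    refine ⟨?_, ?_, ?_⟩ <;> first | omega | simp

def C9_i (s : ℤ × ℤ) : V4 := ((3 * s.1, 3 * s.2), (3 * s.1 - 9 * s.2, 6 * s.1 - 6 * s.2))

theorem C9_i0 (y : V4) (h : (2 + 3 * tau) * em y.1 + em y.2 = 0) :
    (6 * y.1.2 + 3 * y.2.2 - 6 * y.1.1 = 0) ∧ (-3 * y.1.1 + 9 * y.1.2 + 3 * y.2.1 = 0) := by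
  refine ztau ?_
  simp only [em_eq] at h
  try push_cast
  linear_combination 3 * h - (9 * (y.1.1 : ℂ)) * tau_sq

theorem C9_i1 (s : ℤ × ℤ) : (2 + 3 * tau) * em (C9_i s).1 + em (C9_i s).2 = 0 := by
  simp only [C9_i, em_eq]
  try push_cast
  try linear_combination (9 * (s.1 : ℂ)) * tau_sq

theorem C9_i2 (s : ℤ × ℤ) : em (C9_i s).1 = (3 : ℂ) * em s := by
  simp only [C9_i, em_eq]
  try push_cast
  try linear_combination (0) * tau_sq

theorem C9_l4 [DecidablePred fun x : V4 => (2 + 3 * tau) * em x.1 + em x.2 = 0] :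
    HasSum (fun x : V4 => if (2 + 3 * tau) * em x.1 + em x.2 = 0 then ind 0 2 3 1 x * KL (em x.1)
      else 0) ((1 / 729) * LamM) := by
  have hinj : Function.Injective C9_i := by
    intro m n h
    simp only [C9_i, Prod.mk.injEq] at h
    obtain ⟨⟨h1, h2⟩, h3, h4⟩ := h
    ext <;> omega
  refine (line hinj (c := ind 0 2 3 1)
    (L := fun x : V4 => (2 + 3 * tau) * em x.1 + em x.2 = 0) (fun s => ind_one ?_)
    (fun s => C9_i1 s) (fun y hy hL => ?_) (fun x => KL (em x.1)) _).mp ?_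
  · simp only [C9_i, cA, cB, cC, ln, Prod.fst_add, Prod.snd_add, Prod.fst_sub, Prod.snd_sub,
      Prod.fst_zero, Prod.snd_zero, if_true, OfNat.ofNat_ne_one, zero_ne_one, if_false]
    omega
  · obtain ⟨h1, h2, h3⟩ := ind_ne hy
    obtain ⟨h4, h5⟩ := C9_i0 y hL
    simp only [cA, cB, cC, ln, Prod.fst_add, Prod.snd_add, Prod.fst_sub, Prod.snd_sub,
      Prod.fst_zero, Prod.snd_zero, if_true, OfNat.ofNat_ne_one, zero_ne_one, if_false] at h1 h2 h3
    refine ⟨((3 * y.1.1) / 9, (3 * y.1.2) / 9), ?_⟩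
    simp only [C9_i]
    ext <;> simp only [] <;> omega
  · simp only [C9_i2, KL_mul, KLv5]
    exact LamM_hasSum.mul_left _

theorem C9 (P Q : ℂ) :
    TT 0 2 3 1 P Q - 4 * ((1 / 432 + 1 / 144 * tau) * TT 1 1 3 1 ((2 + 3 * tau) * P) (Q))
      + 4 * ((-1 / 216 - 1 / 144 * tau) * TT 1 3 1 1 ((1 - (2 + 3 * tau)) * P) (-(P + Q)))
      - 4 * 4 * ((1 / 64) * TT 0 2 1 4 ((1 - (2 + 3 * tau)) * Q) ((2 + 3 * tau) * (P + Q))) =
      -((3 + 6 * tau) * (h2 Q (P + Q) ((2 + 3 * tau) * P + Q) * LL 1 1 1 + (1 / 4) * h2 P (P + Q) (P + Q * (-1 / 4 - 3 / 4 * tau)) * LL 0 1 2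
        + (1 / 4) * h2 P (-Q) (-(((2 + 3 * tau) * P + Q) * (1 / 2 + 3 / 4 * tau))) * LL 1 0 2
        + (1 / 16) * h2 P (-(Q * (-1 / 4 - 3 / 4 * tau))) ((P + Q) * (1 / 2 + 3 / 4 * tau)) * ((1 / 729) * LamM))) := by
  have hlb : conj (2 + 3 * tau) = (-1 - 3 * tau) := by
    simp only [map_add, map_sub, map_mul, map_neg, map_div₀, map_ofNat, map_one, map_zero, conj_tau]
    try ring
  have hmu : (2 + 3 * tau) * (-1 / 4 - 3 / 4 * tau) = 1 := by linear_combination (-9 / 4) * tau_sq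
  have hnu : (1 - (2 + 3 * tau)) * (1 / 2 + 3 / 4 * tau) = 1 := by linear_combination (-9 / 4) * tau_sq
  have hn1 : (2 + 3 * tau) * (-1 - 3 * tau) = 4 := by linear_combination (-9) * tau_sq
  have hn2 : (1 - (2 + 3 * tau)) * (1 - (-1 - 3 * tau)) = 4 := by linear_combination (-9) * tau_sq
  have h0 : (2 + 3 * tau) ≠ 0 := left_ne_zero_of_mul_eq_one hmu
  have h1 : 1 - (2 + 3 * tau) ≠ 0 := left_ne_zero_of_mul_eq_one hnu
  have k1 := kap1_eq hlb hmu hnu hn1 hn2 P Q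
  have k2 := kap2_eq hlb hmu hnu hn1 hn2 P Q
  have k3 := kap3_eq hlb hmu hnu hn1 hn2 P Q
  have k4 := kap4_eq hlb hmu hnu hn1 hn2 P Q
  have h := inst (c := ind 0 2 3 1) h0 h1 (T_hasSum 0 2 3 1 P Q) (C9_f2 P Q) (C9_f3 P Q)
    (C9_f4 P Q) (line1 (by norm_num) (by norm_num) (by norm_num) C9_w1)
    (line2 (by norm_num) (by norm_num) (by norm_num) C9_w2)
    (line3 (by norm_num) (by norm_num) (by norm_num) C9_w3) C9_l4
  have e1 : nn (2 + 3 * tau) = 4 := by rw [nn, hlb, hn1]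
  have e2 : nn (1 - (2 + 3 * tau)) = 4 := by rw [nn, map_sub, map_one, hlb, hn2]
  rw [e1, e2] at h
  linear_combination h + (LL 1 1 1) * k1 + (1 / 4) * (LL 0 1 2) * k2 + (1 / 4) * (LL 1 0 2) * k3
    + (1 / 16) * ((1 / 729) * LamM) * k4

end RVS
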