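import Pool.Agent.RVS.KLv
import Pool.Agent.RVS.Sym
import Pool.Agent.RVS.Ideal

/-!
# RVS/S3r: reduction of the types modulo the symmetries of the three lines, values of `LL` (generated)
-/

set_option autoImplicit false
set_option linter.unusedSimpArgs false
set_option linter.unusedVariables false
set_option linter.unnecessarySeqFocus false
set_option linter.unreachableTactic false
set_option linter.unusedTactic false

open scoped ComplexConjugate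

namespace RVS

theorem E12_0_0_0_0 (P Q : ℂ) : TT 0 0 0 0 P Q = -TT 0 0 0 0 Q P := by
  have h := TT12 (c := 0) (a := 0) (b := 0) (d := 0) (by norm_num) (by norm_num) (by norm_num) P Q
  have e : TT 0 (s12 0) (s12 0) (s12 0) Q P = TT 0 0 0 0 Q P := rfl
  rw [e] at h
  rw [h, neg_neg]

theorem E12_0_0_2_0 (P Q : ℂ) : TT 0 0 2 0 P Q = -TT 0 0 1 0 Q P := by
  have h := TT12 (c := 0) (a := 0) (b := 2) (d := 0) (by norm_num) (by norm_num) (by norm_num) P Q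
  have e : TT 0 (s12 0) (s12 2) (s12 0) Q P = TT 0 0 1 0 Q P := rfl
  rw [e] at h
  rw [h, neg_neg]

theorem E12_0_2_0_0 (P Q : ℂ) : TT 0 2 0 0 P Q = -TT 0 1 0 0 Q P := by
  have h := TT12 (c := 0) (a := 2) (b := 0) (d := 0) (by norm_num) (by norm_num) (by norm_num) P Q
  have e : TT 0 (s12 2) (s12 0) (s12 0) Q P = TT 0 1 0 0 Q P := rfl
  rw [e] at h
  rw [h, neg_neg]

theorem E12_0_2_0_1 (P Q : ℂ) : TT 0 2 0 1 P Q = -TT 0 1 0 2 Q P := by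
  have h := TT12 (c := 0) (a := 2) (b := 0) (d := 1) (by norm_num) (by norm_num) (by norm_num) P Q
  have e : TT 0 (s12 2) (s12 0) (s12 1) Q P = TT 0 1 0 2 Q P := rfl
  rw [e] at h
  rw [h, neg_neg]

theorem E12_0_2_1_0 (P Q : ℂ) : TT 0 2 1 0 P Q = -TT 0 1 2 0 Q P := by
  have h := TT12 (c := 0) (a := 2) (b := 1) (d := 0) (by norm_num) (by norm_num) (by norm_num) P Q
  have e : TT 0 (s12 2) (s12 1) (s12 0) Q P = TT 0 1 2 0 Q P := rfl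
  rw [e] at h
  rw [h, neg_neg]

theorem E12_0_2_1_1 (P Q : ℂ) : TT 0 2 1 1 P Q = -TT 0 1 2 2 Q P := by
  have h := TT12 (c := 0) (a := 2) (b := 1) (d := 1) (by norm_num) (by norm_num) (by norm_num) P Q
  have e : TT 0 (s12 2) (s12 1) (s12 1) Q P = TT 0 1 2 2 Q P := rfl
  rw [e] at h
  rw [h, neg_neg]

theorem E12_0_2_1_2 (P Q : ℂ) : TT 0 2 1 2 P Q = -TT 0 1 2 1 Q P := by
  have h := TT12 (c := 0) (a := 2) (b := 1) (d := 2) (by norm_num) (by norm_num) (by norm_num) P Q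
  have e : TT 0 (s12 2) (s12 1) (s12 2) Q P = TT 0 1 2 1 Q P := rfl
  rw [e] at h
  rw [h, neg_neg]

theorem E12_0_2_1_3 (P Q : ℂ) : TT 0 2 1 3 P Q = -TT 0 1 2 3 Q P := by
  have h := TT12 (c := 0) (a := 2) (b := 1) (d := 3) (by norm_num) (by norm_num) (by norm_num) P Q
  have e : TT 0 (s12 2) (s12 1) (s12 3) Q P = TT 0 1 2 3 Q P := rfl
  rw [e] at h
  rw [h, neg_neg]

theorem E12_0_2_1_4 (P Q : ℂ) : TT 0 2 1 4 P Q = -TT 0 1 2 4 Q P := by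
  have h := TT12 (c := 0) (a := 2) (b := 1) (d := 4) (by norm_num) (by norm_num) (by norm_num) P Q
  have e : TT 0 (s12 2) (s12 1) (s12 4) Q P = TT 0 1 2 4 Q P := rfl
  rw [e] at h
  rw [h, neg_neg]

theorem E12_0_2_3_1 (P Q : ℂ) : TT 0 2 3 1 P Q = -TT 0 1 3 2 Q P := by
  have h := TT12 (c := 0) (a := 2) (b := 3) (d := 1) (by norm_num) (by norm_num) (by norm_num) P Q
  have e : TT 0 (s12 2) (s12 3) (s12 1) Q P = TT 0 1 3 2 Q P := rfl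
  rw [e] at h
  rw [h, neg_neg]

theorem E12_1_0_0_0 (P Q : ℂ) : TT 1 0 0 0 P Q = -TT 1 0 0 0 Q P := by
  have h := TT12 (c := 1) (a := 0) (b := 0) (d := 0) (by norm_num) (by norm_num) (by norm_num) P Q
  have e : TT 1 (s12 0) (s12 0) (s12 0) Q P = TT 1 0 0 0 Q P := rfl
  rw [e] at h
  rw [h, neg_neg]

theorem E12_1_0_0_2 (P Q : ℂ) : TT 1 0 0 2 P Q = -TT 1 0 0 1 Q P := by
  have h := TT12 (c := 1) (a := 0) (b := 0) (d := 2) (by norm_num) (by norm_num) (by norm_num) P Q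
  have e : TT 1 (s12 0) (s12 0) (s12 2) Q P = TT 1 0 0 1 Q P := rfl
  rw [e] at h
  rw [h, neg_neg]

theorem E12_1_0_2_1 (P Q : ℂ) : TT 1 0 2 1 P Q = -TT 1 0 1 2 Q P := by
  have h := TT12 (c := 1) (a := 0) (b := 2) (d := 1) (by norm_num) (by norm_num) (by norm_num) P Q
  have e : TT 1 (s12 0) (s12 2) (s12 1) Q P = TT 1 0 1 2 Q P := rfl
  rw [e] at h
  rw [h, neg_neg]

theorem E12_1_0_2_2 (P Q : ℂ) : TT 1 0 2 2 P Q = -TT 1 0 1 1 Q P := by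
  have h := TT12 (c := 1) (a := 0) (b := 2) (d := 2) (by norm_num) (by norm_num) (by norm_num) P Q
  have e : TT 1 (s12 0) (s12 2) (s12 2) Q P = TT 1 0 1 1 Q P := rfl
  rw [e] at h
  rw [h, neg_neg]

theorem E12_1_0_3_2 (P Q : ℂ) : TT 1 0 3 2 P Q = -TT 1 0 3 1 Q P := by
  have h := TT12 (c := 1) (a := 0) (b := 3) (d := 2) (by norm_num) (by norm_num) (by norm_num) P Q
  have e : TT 1 (s12 0) (s12 3) (s12 2) Q P = TT 1 0 3 1 Q P := rfl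
  rw [e] at h
  rw [h, neg_neg]

theorem E12_1_2_0_1 (P Q : ℂ) : TT 1 2 0 1 P Q = -TT 1 1 0 2 Q P := by
  have h := TT12 (c := 1) (a := 2) (b := 0) (d := 1) (by norm_num) (by norm_num) (by norm_num) P Q
  have e : TT 1 (s12 2) (s12 0) (s12 1) Q P = TT 1 1 0 2 Q P := rfl
  rw [e] at h
  rw [h, neg_neg]

theorem E12_1_2_0_2 (P Q : ℂ) : TT 1 2 0 2 P Q = -TT 1 1 0 1 Q P := by
  have h := TT12 (c := 1) (a := 2) (b := 0) (d := 2) (by norm_num) (by norm_num) (by norm_num) P Q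
  have e : TT 1 (s12 2) (s12 0) (s12 2) Q P = TT 1 1 0 1 Q P := rfl
  rw [e] at h
  rw [h, neg_neg]

theorem E12_1_2_0_3 (P Q : ℂ) : TT 1 2 0 3 P Q = -TT 1 1 0 3 Q P := by
  have h := TT12 (c := 1) (a := 2) (b := 0) (d := 3) (by norm_num) (by norm_num) (by norm_num) P Q
  have e : TT 1 (s12 2) (s12 0) (s12 3) Q P = TT 1 1 0 3 Q P := rfl
  rw [e] at h
  rw [h, neg_neg]

theorem E12_1_2_1_0 (P Q : ℂ) : TT 1 2 1 0 P Q = -TT 1 1 2 0 Q P := by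
  have h := TT12 (c := 1) (a := 2) (b := 1) (d := 0) (by norm_num) (by norm_num) (by norm_num) P Q
  have e : TT 1 (s12 2) (s12 1) (s12 0) Q P = TT 1 1 2 0 Q P := rfl
  rw [e] at h
  rw [h, neg_neg]

theorem E12_1_2_1_1 (P Q : ℂ) : TT 1 2 1 1 P Q = -TT 1 1 2 2 Q P := by
  have h := TT12 (c := 1) (a := 2) (b := 1) (d := 1) (by norm_num) (by norm_num) (by norm_num) P Q
  have e : TT 1 (s12 2) (s12 1) (s12 1) Q P = TT 1 1 2 2 Q P := rfl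
  rw [e] at h
  rw [h, neg_neg]

theorem E12_1_2_1_2 (P Q : ℂ) : TT 1 2 1 2 P Q = -TT 1 1 2 1 Q P := by
  have h := TT12 (c := 1) (a := 2) (b := 1) (d := 2) (by norm_num) (by norm_num) (by norm_num) P Q
  have e : TT 1 (s12 2) (s12 1) (s12 2) Q P = TT 1 1 2 1 Q P := rfl
  rw [e] at h
  rw [h, neg_neg]

theorem E12_1_2_1_3 (P Q : ℂ) : TT 1 2 1 3 P Q = -TT 1 1 2 3 Q P := by
  have h := TT12 (c := 1) (a := 2) (b := 1) (d := 3) (by norm_num) (by norm_num) (by norm_num) P Q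
  have e : TT 1 (s12 2) (s12 1) (s12 3) Q P = TT 1 1 2 3 Q P := rfl
  rw [e] at h
  rw [h, neg_neg]

theorem E12_1_2_2_1 (P Q : ℂ) : TT 1 2 2 1 P Q = -TT 1 1 1 2 Q P := by
  have h := TT12 (c := 1) (a := 2) (b := 2) (d := 1) (by norm_num) (by norm_num) (by norm_num) P Q
  have e : TT 1 (s12 2) (s12 2) (s12 1) Q P = TT 1 1 1 2 Q P := rfl
  rw [e] at h
  rw [h, neg_neg]

theorem E12_1_2_2_2 (P Q : ℂ) : TT 1 2 2 2 P Q = -TT 1 1 1 1 Q P := by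
  have h := TT12 (c := 1) (a := 2) (b := 2) (d := 2) (by norm_num) (by norm_num) (by norm_num) P Q
  have e : TT 1 (s12 2) (s12 2) (s12 2) Q P = TT 1 1 1 1 Q P := rfl
  rw [e] at h
  rw [h, neg_neg]

theorem E12_1_3_0_2 (P Q : ℂ) : TT 1 3 0 2 P Q = -TT 1 3 0 1 Q P := by
  have h := TT12 (c := 1) (a := 3) (b := 0) (d := 2) (by norm_num) (by norm_num) (by norm_num) P Q
  have e : TT 1 (s12 3) (s12 0) (s12 2) Q P = TT 1 3 0 1 Q P := rfl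
  rw [e] at h
  rw [h, neg_neg]

theorem E12_1_3_2_1 (P Q : ℂ) : TT 1 3 2 1 P Q = -TT 1 3 1 2 Q P := by
  have h := TT12 (c := 1) (a := 3) (b := 2) (d := 1) (by norm_num) (by norm_num) (by norm_num) P Q
  have e : TT 1 (s12 3) (s12 2) (s12 1) Q P = TT 1 3 1 2 Q P := rfl
  rw [e] at h
  rw [h, neg_neg]

theorem E12_1_3_3_2 (P Q : ℂ) : TT 1 3 3 2 P Q = -TT 1 3 3 1 Q P := by
  have h := TT12 (c := 1) (a := 3) (b := 3) (d := 2) (by norm_num) (by norm_num) (by norm_num) P Q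
  have e : TT 1 (s12 3) (s12 3) (s12 2) Q P = TT 1 3 3 1 Q P := rfl
  rw [e] at h
  rw [h, neg_neg]

theorem E23_0_0_0_0 (P Q : ℂ) : TT 0 0 0 0 P Q = -TT 0 0 0 0 P (-(P + Q)) := by
  have h := TT23 (c := 0) (a := 0) (b := 0) (d := 0) (by norm_num) (by norm_num) (by norm_num) P Q
  have e : TT 0 (s23 0) (s23 0) (s23 0) P (-(P + Q)) = TT 0 0 0 0 P (-(P + Q)) := rfl
  rw [e] at h
  rw [h, neg_neg]

theorem E23_0_0_0_1 (P Q : ℂ) : TT 0 0 0 1 P Q = -TT 0 0 0 1 P (-(P + Q)) := by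
  have h := TT23 (c := 0) (a := 0) (b := 0) (d := 1) (by norm_num) (by norm_num) (by norm_num) P Q
  have e : TT 0 (s23 0) (s23 0) (s23 1) P (-(P + Q)) = TT 0 0 0 1 P (-(P + Q)) := rfl
  rw [e] at h
  rw [h, neg_neg]

theorem E23_0_0_1_0 (P Q : ℂ) : TT 0 0 1 0 P Q = -TT 0 0 1 0 P (-(P + Q)) := by
  have h := TT23 (c := 0) (a := 0) (b := 1) (d := 0) (by norm_num) (by norm_num) (by norm_num) P Q
  have e : TT 0 (s23 0) (s23 1) (s23 0) P (-(P + Q)) = TT 0 0 1 0 P (-(P + Q)) := rfl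
  rw [e] at h
  rw [h, neg_neg]

theorem E23_0_0_1_3 (P Q : ℂ) : TT 0 0 1 3 P Q = -TT 0 0 1 2 P (-(P + Q)) := by
  have h := TT23 (c := 0) (a := 0) (b := 1) (d := 3) (by norm_num) (by norm_num) (by norm_num) P Q
  have e : TT 0 (s23 0) (s23 1) (s23 3) P (-(P + Q)) = TT 0 0 1 2 P (-(P + Q)) := rfl
  rw [e] at h
  rw [h, neg_neg]

theorem E23_0_1_0_0 (P Q : ℂ) : TT 0 1 0 0 P Q = -TT 0 1 0 0 P (-(P + Q)) := by
  have h := TT23 (c := 0) (a := 1) (b := 0) (d := 0) (by norm_num) (by norm_num) (by norm_num) P Q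
  have e : TT 0 (s23 1) (s23 0) (s23 0) P (-(P + Q)) = TT 0 1 0 0 P (-(P + Q)) := rfl
  rw [e] at h
  rw [h, neg_neg]

theorem E23_0_1_0_3 (P Q : ℂ) : TT 0 1 0 3 P Q = -TT 0 1 0 2 P (-(P + Q)) := by
  have h := TT23 (c := 0) (a := 1) (b := 0) (d := 3) (by norm_num) (by norm_num) (by norm_num) P Q
  have e : TT 0 (s23 1) (s23 0) (s23 3) P (-(P + Q)) = TT 0 1 0 2 P (-(P + Q)) := rfl
  rw [e] at h
  rw [h, neg_neg]

theorem E23_0_1_1_0 (P Q : ℂ) : TT 0 1 1 0 P Q = -TT 0 1 1 0 P (-(P + Q)) := by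
  have h := TT23 (c := 0) (a := 1) (b := 1) (d := 0) (by norm_num) (by norm_num) (by norm_num) P Q
  have e : TT 0 (s23 1) (s23 1) (s23 0) P (-(P + Q)) = TT 0 1 1 0 P (-(P + Q)) := rfl
  rw [e] at h
  rw [h, neg_neg]

theorem E23_0_1_3_0 (P Q : ℂ) : TT 0 1 3 0 P Q = -TT 0 1 2 0 P (-(P + Q)) := by
  have h := TT23 (c := 0) (a := 1) (b := 3) (d := 0) (by norm_num) (by norm_num) (by norm_num) P Q
  have e : TT 0 (s23 1) (s23 3) (s23 0) P (-(P + Q)) = TT 0 1 2 0 P (-(P + Q)) := rfl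
  rw [e] at h
  rw [h, neg_neg]

theorem E23_0_1_3_1 (P Q : ℂ) : TT 0 1 3 1 P Q = -TT 0 1 2 1 P (-(P + Q)) := by
  have h := TT23 (c := 0) (a := 1) (b := 3) (d := 1) (by norm_num) (by norm_num) (by norm_num) P Q
  have e : TT 0 (s23 1) (s23 3) (s23 1) P (-(P + Q)) = TT 0 1 2 1 P (-(P + Q)) := rfl
  rw [e] at h
  rw [h, neg_neg]

theorem E23_0_1_3_2 (P Q : ℂ) : TT 0 1 3 2 P Q = -TT 0 1 2 3 P (-(P + Q)) := by
  have h := TT23 (c := 0) (a := 1) (b := 3) (d := 2) (by norm_num) (by norm_num) (by norm_num) P Q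
  have e : TT 0 (s23 1) (s23 3) (s23 2) P (-(P + Q)) = TT 0 1 2 3 P (-(P + Q)) := rfl
  rw [e] at h
  rw [h, neg_neg]

theorem E23_0_3_0_1 (P Q : ℂ) : TT 0 3 0 1 P Q = -TT 0 2 0 1 P (-(P + Q)) := by
  have h := TT23 (c := 0) (a := 3) (b := 0) (d := 1) (by norm_num) (by norm_num) (by norm_num) P Q
  have e : TT 0 (s23 3) (s23 0) (s23 1) P (-(P + Q)) = TT 0 2 0 1 P (-(P + Q)) := rfl
  rw [e] at h
  rw [h, neg_neg]

theorem E23_0_3_1_0 (P Q : ℂ) : TT 0 3 1 0 P Q = -TT 0 2 1 0 P (-(P + Q)) := by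
  have h := TT23 (c := 0) (a := 3) (b := 1) (d := 0) (by norm_num) (by norm_num) (by norm_num) P Q
  have e : TT 0 (s23 3) (s23 1) (s23 0) P (-(P + Q)) = TT 0 2 1 0 P (-(P + Q)) := rfl
  rw [e] at h
  rw [h, neg_neg]

theorem E23_0_3_1_1 (P Q : ℂ) : TT 0 3 1 1 P Q = -TT 0 2 1 1 P (-(P + Q)) := by
  have h := TT23 (c := 0) (a := 3) (b := 1) (d := 1) (by norm_num) (by norm_num) (by norm_num) P Q
  have e : TT 0 (s23 3) (s23 1) (s23 1) P (-(P + Q)) = TT 0 2 1 1 P (-(P + Q)) := rfl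
  rw [e] at h
  rw [h, neg_neg]

theorem E23_0_3_1_2 (P Q : ℂ) : TT 0 3 1 2 P Q = -TT 0 2 1 3 P (-(P + Q)) := by
  have h := TT23 (c := 0) (a := 3) (b := 1) (d := 2) (by norm_num) (by norm_num) (by norm_num) P Q
  have e : TT 0 (s23 3) (s23 1) (s23 2) P (-(P + Q)) = TT 0 2 1 3 P (-(P + Q)) := rfl
  rw [e] at h
  rw [h, neg_neg]

theorem E23_1_0_0_0 (P Q : ℂ) : TT 1 0 0 0 P Q = -TT 1 0 0 0 P (-(P + Q)) := by
  have h := TT23 (c := 1) (a := 0) (b := 0) (d := 0) (by norm_num) (by norm_num) (by norm_num) P Q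
  have e : TT 1 (s23 0) (s23 0) (s23 0) P (-(P + Q)) = TT 1 0 0 0 P (-(P + Q)) := rfl
  rw [e] at h
  rw [h, neg_neg]

theorem E23_1_0_0_1 (P Q : ℂ) : TT 1 0 0 1 P Q = -TT 1 0 0 1 P (-(P + Q)) := by
  have h := TT23 (c := 1) (a := 0) (b := 0) (d := 1) (by norm_num) (by norm_num) (by norm_num) P Q
  have e : TT 1 (s23 0) (s23 0) (s23 1) P (-(P + Q)) = TT 1 0 0 1 P (-(P + Q)) := rfl
  rw [e] at h
  rw [h, neg_neg]

theorem E23_1_0_0_3 (P Q : ℂ) : TT 1 0 0 3 P Q = -TT 1 0 0 2 P (-(P + Q)) := by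
  have h := TT23 (c := 1) (a := 0) (b := 0) (d := 3) (by norm_num) (by norm_num) (by norm_num) P Q
  have e : TT 1 (s23 0) (s23 0) (s23 3) P (-(P + Q)) = TT 1 0 0 2 P (-(P + Q)) := rfl
  rw [e] at h
  rw [h, neg_neg]

theorem E23_1_0_1_0 (P Q : ℂ) : TT 1 0 1 0 P Q = -TT 1 0 1 0 P (-(P + Q)) := by
  have h := TT23 (c := 1) (a := 0) (b := 1) (d := 0) (by norm_num) (by norm_num) (by norm_num) P Q
  have e : TT 1 (s23 0) (s23 1) (s23 0) P (-(P + Q)) = TT 1 0 1 0 P (-(P + Q)) := rfl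
  rw [e] at h
  rw [h, neg_neg]

theorem E23_1_0_1_1 (P Q : ℂ) : TT 1 0 1 1 P Q = -TT 1 0 1 1 P (-(P + Q)) := by
  have h := TT23 (c := 1) (a := 0) (b := 1) (d := 1) (by norm_num) (by norm_num) (by norm_num) P Q
  have e : TT 1 (s23 0) (s23 1) (s23 1) P (-(P + Q)) = TT 1 0 1 1 P (-(P + Q)) := rfl
  rw [e] at h
  rw [h, neg_neg]

theorem E23_1_0_1_3 (P Q : ℂ) : TT 1 0 1 3 P Q = -TT 1 0 1 2 P (-(P + Q)) := by
  have h := TT23 (c := 1) (a := 0) (b := 1) (d := 3) (by norm_num) (by norm_num) (by norm_num) P Q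
  have e : TT 1 (s23 0) (s23 1) (s23 3) P (-(P + Q)) = TT 1 0 1 2 P (-(P + Q)) := rfl
  rw [e] at h
  rw [h, neg_neg]

theorem E23_1_0_3_1 (P Q : ℂ) : TT 1 0 3 1 P Q = -TT 1 0 2 1 P (-(P + Q)) := by
  have h := TT23 (c := 1) (a := 0) (b := 3) (d := 1) (by norm_num) (by norm_num) (by norm_num) P Q
  have e : TT 1 (s23 0) (s23 3) (s23 1) P (-(P + Q)) = TT 1 0 2 1 P (-(P + Q)) := rfl
  rw [e] at h
  rw [h, neg_neg]

theorem E23_1_1_0_0 (P Q : ℂ) : TT 1 1 0 0 P Q = -TT 1 1 0 0 P (-(P + Q)) := by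
  have h := TT23 (c := 1) (a := 1) (b := 0) (d := 0) (by norm_num) (by norm_num) (by norm_num) P Q
  have e : TT 1 (s23 1) (s23 0) (s23 0) P (-(P + Q)) = TT 1 1 0 0 P (-(P + Q)) := rfl
  rw [e] at h
  rw [h, neg_neg]

theorem E23_1_1_0_1 (P Q : ℂ) : TT 1 1 0 1 P Q = -TT 1 1 0 1 P (-(P + Q)) := by
  have h := TT23 (c := 1) (a := 1) (b := 0) (d := 1) (by norm_num) (by norm_num) (by norm_num) P Q
  have e : TT 1 (s23 1) (s23 0) (s23 1) P (-(P + Q)) = TT 1 1 0 1 P (-(P + Q)) := rfl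
  rw [e] at h
  rw [h, neg_neg]

theorem E23_1_1_0_3 (P Q : ℂ) : TT 1 1 0 3 P Q = -TT 1 1 0 2 P (-(P + Q)) := by
  have h := TT23 (c := 1) (a := 1) (b := 0) (d := 3) (by norm_num) (by norm_num) (by norm_num) P Q
  have e : TT 1 (s23 1) (s23 0) (s23 3) P (-(P + Q)) = TT 1 1 0 2 P (-(P + Q)) := rfl
  rw [e] at h
  rw [h, neg_neg]

theorem E23_1_1_1_0 (P Q : ℂ) : TT 1 1 1 0 P Q = -TT 1 1 1 0 P (-(P + Q)) := by
  have h := TT23 (c := 1) (a := 1) (b := 1) (d := 0) (by norm_num) (by norm_num) (by norm_num) P Q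
  have e : TT 1 (s23 1) (s23 1) (s23 0) P (-(P + Q)) = TT 1 1 1 0 P (-(P + Q)) := rfl
  rw [e] at h
  rw [h, neg_neg]

theorem E23_1_1_1_1 (P Q : ℂ) : TT 1 1 1 1 P Q = -TT 1 1 1 1 P (-(P + Q)) := by
  have h := TT23 (c := 1) (a := 1) (b := 1) (d := 1) (by norm_num) (by norm_num) (by norm_num) P Q
  have e : TT 1 (s23 1) (s23 1) (s23 1) P (-(P + Q)) = TT 1 1 1 1 P (-(P + Q)) := rfl
  rw [e] at h
  rw [h, neg_neg]

theorem E23_1_1_1_3 (P Q : ℂ) : TT 1 1 1 3 P Q = -TT 1 1 1 2 P (-(P + Q)) := by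
  have h := TT23 (c := 1) (a := 1) (b := 1) (d := 3) (by norm_num) (by norm_num) (by norm_num) P Q
  have e : TT 1 (s23 1) (s23 1) (s23 3) P (-(P + Q)) = TT 1 1 1 2 P (-(P + Q)) := rfl
  rw [e] at h
  rw [h, neg_neg]

theorem E23_1_1_3_0 (P Q : ℂ) : TT 1 1 3 0 P Q = -TT 1 1 2 0 P (-(P + Q)) := by
  have h := TT23 (c := 1) (a := 1) (b := 3) (d := 0) (by norm_num) (by norm_num) (by norm_num) P Q
  have e : TT 1 (s23 1) (s23 3) (s23 0) P (-(P + Q)) = TT 1 1 2 0 P (-(P + Q)) := rfl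
  rw [e] at h
  rw [h, neg_neg]

theorem E23_1_1_3_1 (P Q : ℂ) : TT 1 1 3 1 P Q = -TT 1 1 2 1 P (-(P + Q)) := by
  have h := TT23 (c := 1) (a := 1) (b := 3) (d := 1) (by norm_num) (by norm_num) (by norm_num) P Q
  have e : TT 1 (s23 1) (s23 3) (s23 1) P (-(P + Q)) = TT 1 1 2 1 P (-(P + Q)) := rfl
  rw [e] at h
  rw [h, neg_neg]

theorem E23_1_1_3_2 (P Q : ℂ) : TT 1 1 3 2 P Q = -TT 1 1 2 3 P (-(P + Q)) := by
  have h := TT23 (c := 1) (a := 1) (b := 3) (d := 2) (by norm_num) (by norm_num) (by norm_num) P Q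
  have e : TT 1 (s23 1) (s23 3) (s23 2) P (-(P + Q)) = TT 1 1 2 3 P (-(P + Q)) := rfl
  rw [e] at h
  rw [h, neg_neg]

theorem E23_1_3_0_1 (P Q : ℂ) : TT 1 3 0 1 P Q = -TT 1 2 0 1 P (-(P + Q)) := by
  have h := TT23 (c := 1) (a := 3) (b := 0) (d := 1) (by norm_num) (by norm_num) (by norm_num) P Q
  have e : TT 1 (s23 3) (s23 0) (s23 1) P (-(P + Q)) = TT 1 2 0 1 P (-(P + Q)) := rfl
  rw [e] at h
  rw [h, neg_neg]

theorem E23_1_3_1_0 (P Q : ℂ) : TT 1 3 1 0 P Q = -TT 1 2 1 0 P (-(P + Q)) := by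
  have h := TT23 (c := 1) (a := 3) (b := 1) (d := 0) (by norm_num) (by norm_num) (by norm_num) P Q
  have e : TT 1 (s23 3) (s23 1) (s23 0) P (-(P + Q)) = TT 1 2 1 0 P (-(P + Q)) := rfl
  rw [e] at h
  rw [h, neg_neg]

theorem E23_1_3_1_1 (P Q : ℂ) : TT 1 3 1 1 P Q = -TT 1 2 1 1 P (-(P + Q)) := by
  have h := TT23 (c := 1) (a := 3) (b := 1) (d := 1) (by norm_num) (by norm_num) (by norm_num) P Q
  have e : TT 1 (s23 3) (s23 1) (s23 1) P (-(P + Q)) = TT 1 2 1 1 P (-(P + Q)) := rfl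
  rw [e] at h
  rw [h, neg_neg]

theorem E23_1_3_1_2 (P Q : ℂ) : TT 1 3 1 2 P Q = -TT 1 2 1 3 P (-(P + Q)) := by
  have h := TT23 (c := 1) (a := 3) (b := 1) (d := 2) (by norm_num) (by norm_num) (by norm_num) P Q
  have e : TT 1 (s23 3) (s23 1) (s23 2) P (-(P + Q)) = TT 1 2 1 3 P (-(P + Q)) := rfl
  rw [e] at h
  rw [h, neg_neg]

theorem E23_1_3_3_1 (P Q : ℂ) : TT 1 3 3 1 P Q = -TT 1 2 2 1 P (-(P + Q)) := by
  have h := TT23 (c := 1) (a := 3) (b := 3) (d := 1) (by norm_num) (by norm_num) (by norm_num) P Q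
  have e : TT 1 (s23 3) (s23 3) (s23 1) P (-(P + Q)) = TT 1 2 2 1 P (-(P + Q)) := rfl
  rw [e] at h
  rw [h, neg_neg]

theorem S_0_0_1_3 (P Q : ℂ) : TT 0 0 1 3 P Q = -TT 0 0 1 2 P (-(P + Q)) := by
  rw [E23_0_0_1_3]

theorem S_0_0_2_0 (P Q : ℂ) : TT 0 0 2 0 P Q = -TT 0 0 1 0 Q P := by
  rw [E12_0_0_2_0]

theorem S_0_1_0_3 (P Q : ℂ) : TT 0 1 0 3 P Q = -TT 0 1 0 2 P (-(P + Q)) := by
  rw [E23_0_1_0_3]

theorem S_0_1_3_0 (P Q : ℂ) : TT 0 1 3 0 P Q = -TT 0 1 2 0 P (-(P + Q)) := by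
  rw [E23_0_1_3_0]

theorem S_0_1_3_1 (P Q : ℂ) : TT 0 1 3 1 P Q = -TT 0 1 2 1 P (-(P + Q)) := by
  rw [E23_0_1_3_1]

theorem S_0_1_3_2 (P Q : ℂ) : TT 0 1 3 2 P Q = -TT 0 1 2 3 P (-(P + Q)) := by
  rw [E23_0_1_3_2]

theorem S_0_2_0_0 (P Q : ℂ) : TT 0 2 0 0 P Q = -TT 0 1 0 0 Q P := by
  rw [E12_0_2_0_0]

theorem S_0_2_0_1 (P Q : ℂ) : TT 0 2 0 1 P Q = -TT 0 1 0 2 Q P := by
  rw [E12_0_2_0_1]

theorem S_0_2_1_0 (P Q : ℂ) : TT 0 2 1 0 P Q = -TT 0 1 2 0 Q P := by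
  rw [E12_0_2_1_0]

theorem S_0_2_1_2 (P Q : ℂ) : TT 0 2 1 2 P Q = -TT 0 1 2 1 Q P := by
  rw [E12_0_2_1_2]

theorem S_0_2_1_4 (P Q : ℂ) : TT 0 2 1 4 P Q = -TT 0 1 2 4 Q P := by
  rw [E12_0_2_1_4]

theorem S_0_2_3_1 (P Q : ℂ) : TT 0 2 3 1 P Q = TT 0 1 2 3 Q (-(Q + P)) := by
  rw [E12_0_2_3_1, E23_0_1_3_2]
  ring

theorem S_0_3_0_1 (P Q : ℂ) : TT 0 3 0 1 P Q = TT 0 1 0 2 (-(P + Q)) P := by
  rw [E23_0_3_0_1, E12_0_2_0_1]
  ring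

theorem S_0_3_1_0 (P Q : ℂ) : TT 0 3 1 0 P Q = TT 0 1 2 0 (-(P + Q)) P := by
  rw [E23_0_3_1_0, E12_0_2_1_0]
  ring

theorem S_0_3_1_1 (P Q : ℂ) : TT 0 3 1 1 P Q = TT 0 1 2 2 (-(P + Q)) P := by
  rw [E23_0_3_1_1, E12_0_2_1_1]
  ring

theorem S_0_3_1_2 (P Q : ℂ) : TT 0 3 1 2 P Q = TT 0 1 2 3 (-(P + Q)) P := by
  rw [E23_0_3_1_2, E12_0_2_1_3]
  ring

theorem S_1_0_0_3 (P Q : ℂ) : TT 1 0 0 3 P Q = TT 1 0 0 1 (-(P + Q)) P := by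
  rw [E23_1_0_0_3, E12_1_0_0_2]
  ring

theorem S_1_0_1_3 (P Q : ℂ) : TT 1 0 1 3 P Q = -TT 1 0 1 2 P (-(P + Q)) := by
  rw [E23_1_0_1_3]

theorem S_1_0_2_1 (P Q : ℂ) : TT 1 0 2 1 P Q = -TT 1 0 1 2 Q P := by
  rw [E12_1_0_2_1]

theorem S_1_0_2_2 (P Q : ℂ) : TT 1 0 2 2 P Q = -TT 1 0 1 1 Q P := by
  rw [E12_1_0_2_2]

theorem S_1_0_3_1 (P Q : ℂ) : TT 1 0 3 1 P Q = TT 1 0 1 2 (-(P + Q)) P := by
  rw [E23_1_0_3_1, E12_1_0_2_1]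
  ring

theorem S_1_0_3_2 (P Q : ℂ) : TT 1 0 3 2 P Q = -TT 1 0 1 2 (-(Q + P)) Q := by
  rw [E12_1_0_3_2, E23_1_0_3_1, E12_1_0_2_1]
  ring

theorem S_1_1_0_3 (P Q : ℂ) : TT 1 1 0 3 P Q = -TT 1 1 0 2 P (-(P + Q)) := by
  rw [E23_1_1_0_3]

theorem S_1_1_1_3 (P Q : ℂ) : TT 1 1 1 3 P Q = -TT 1 1 1 2 P (-(P + Q)) := by
  rw [E23_1_1_1_3]

theorem S_1_1_3_0 (P Q : ℂ) : TT 1 1 3 0 P Q = -TT 1 1 2 0 P (-(P + Q)) := by
  rw [E23_1_1_3_0]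

theorem S_1_1_3_1 (P Q : ℂ) : TT 1 1 3 1 P Q = -TT 1 1 2 1 P (-(P + Q)) := by
  rw [E23_1_1_3_1]

theorem S_1_1_3_2 (P Q : ℂ) : TT 1 1 3 2 P Q = -TT 1 1 2 3 P (-(P + Q)) := by
  rw [E23_1_1_3_2]

theorem S_1_2_0_1 (P Q : ℂ) : TT 1 2 0 1 P Q = -TT 1 1 0 2 Q P := by
  rw [E12_1_2_0_1]

theorem S_1_2_0_2 (P Q : ℂ) : TT 1 2 0 2 P Q = -TT 1 1 0 1 Q P := by
  rw [E12_1_2_0_2]

theorem S_1_2_0_3 (P Q : ℂ) : TT 1 2 0 3 P Q = TT 1 1 0 2 Q (-(Q + P)) := by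
  rw [E12_1_2_0_3, E23_1_1_0_3]
  ring

theorem S_1_2_1_0 (P Q : ℂ) : TT 1 2 1 0 P Q = -TT 1 1 2 0 Q P := by
  rw [E12_1_2_1_0]

theorem S_1_2_1_1 (P Q : ℂ) : TT 1 2 1 1 P Q = -TT 1 1 2 2 Q P := by
  rw [E12_1_2_1_1]

theorem S_1_2_1_2 (P Q : ℂ) : TT 1 2 1 2 P Q = -TT 1 1 2 1 Q P := by
  rw [E12_1_2_1_2]

theorem S_1_2_2_2 (P Q : ℂ) : TT 1 2 2 2 P Q = -TT 1 1 1 1 Q P := by
  rw [E12_1_2_2_2]

theorem S_1_3_0_1 (P Q : ℂ) : TT 1 3 0 1 P Q = TT 1 1 0 2 (-(P + Q)) P := by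
  rw [E23_1_3_0_1, E12_1_2_0_1]
  ring

theorem S_1_3_0_2 (P Q : ℂ) : TT 1 3 0 2 P Q = -TT 1 1 0 2 (-(Q + P)) Q := by
  rw [E12_1_3_0_2, E23_1_3_0_1, E12_1_2_0_1]
  ring

theorem S_1_3_1_0 (P Q : ℂ) : TT 1 3 1 0 P Q = TT 1 1 2 0 (-(P + Q)) P := by
  rw [E23_1_3_1_0, E12_1_2_1_0]
  ring

theorem S_1_3_1_1 (P Q : ℂ) : TT 1 3 1 1 P Q = TT 1 1 2 2 (-(P + Q)) P := by
  rw [E23_1_3_1_1, E12_1_2_1_1]
  ring

theorem S_1_3_1_2 (P Q : ℂ) : TT 1 3 1 2 P Q = TT 1 1 2 3 (-(P + Q)) P := by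
  rw [E23_1_3_1_2, E12_1_2_1_3]
  ring

theorem S_1_3_2_1 (P Q : ℂ) : TT 1 3 2 1 P Q = -TT 1 1 2 3 (-(Q + P)) Q := by
  rw [E12_1_3_2_1, E23_1_3_1_2, E12_1_2_1_3]
  ring

theorem S_1_3_3_2 (P Q : ℂ) : TT 1 3 3 2 P Q = -TT 1 1 1 2 (-(Q + P)) Q := by
  rw [E12_1_3_3_2, E23_1_3_3_1, E12_1_2_2_1]
  ring

theorem KL_ctau : KL (conj tau) = -27 / 8 - 81 / 16 * tau := by
  have hc : conj (conj tau) = tau := Complex.conj_conj tau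
  rw [conj_tau] at hc ⊢
  refine KL_eq hc ?_
  linear_combination (-3 / 2 + 9 / 4 * tau - 99 / 16 * tau ^ 2 - 351 / 16 * tau ^ 3 - 297 / 16 * tau ^ 4 - 81 / 16 * tau ^ 5) * tau_sq

theorem KL_2 : KL 2 = 1 / 64 := by
  have hc : conj (2 : ℂ) = 2 := map_ofNat _ 2
  refine KL_eq hc ?_
  norm_num

theorem KL_3 : KL 3 = 1 / 729 := by
  have hc : conj (3 : ℂ) = 3 := map_ofNat _ 3
  refine KL_eq hc ?_
  norm_num

theorem KL_3tau : KL (3 * tau) = 1 / 432 + 1 / 144 * tau := by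
  rw [KL_mul, KL_3, KL_tau]
  ring

theorem KL_3ctau : KL (3 * conj tau) = -1 / 216 - 1 / 144 * tau := by
  rw [KL_mul, KL_3, KL_ctau]
  ring

theorem LLv_0_0_0 : LL 0 0 0 = (1) * LamM := by
  have h : LL 0 0 0 = 1 * (LamM) := by simp [LL]
  rw [h]
  try simp only [KL_tau, KL_ctau, KL_2, KL_3]
  try ring

theorem LLv_0_0_1 : LL 0 0 1 = (1) * LamO := by
  have h : LL 0 0 1 = 1 * (LamO) := by simp [LL]
  rw [h]
  try simp only [KL_tau, KL_ctau, KL_2, KL_3]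
  try ring

theorem LLv_0_1_0 : LL 0 1 0 = (-27 / 8 - 81 / 16 * tau) * LamO := by
  have h : LL 0 1 0 = KL (conj tau) * (LamO) := by simp [LL]
  rw [h]
  try simp only [KL_tau, KL_ctau, KL_2, KL_3]
  try ring

theorem LLv_0_1_1 : LL 0 1 1 = (-1 / 216 - 1 / 144 * tau) * LamM := by
  have h : LL 0 1 1 = KL (conj tau) * (KL 3 * LamM) := by simp [LL]
  rw [h]
  try simp only [KL_tau, KL_ctau, KL_2, KL_3]
  try ring

theorem LLv_0_1_2 : LL 0 1 2 = (-1 / 216 - 1 / 144 * tau) * LamO := by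
  have h : LL 0 1 2 = KL (conj tau) * (KL 3 * LamO) := by simp [LL]
  rw [h]
  try simp only [KL_tau, KL_ctau, KL_2, KL_3]
  try ring

theorem LLv_1_0_0 : LL 1 0 0 = (27 / 16 + 81 / 16 * tau) * LamO := by
  have h : LL 1 0 0 = KL tau * (LamO) := by simp [LL]
  rw [h]
  try simp only [KL_tau, KL_ctau, KL_2, KL_3]
  try ring

theorem LLv_1_0_1 : LL 1 0 1 = (1 / 432 + 1 / 144 * tau) * LamM := by
  have h : LL 1 0 1 = KL tau * (KL 3 * LamM) := by simp [LL]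
  rw [h]
  try simp only [KL_tau, KL_ctau, KL_2, KL_3]
  try ring

theorem LLv_1_0_2 : LL 1 0 2 = (1 / 432 + 1 / 144 * tau) * LamO := by
  have h : LL 1 0 2 = KL tau * (KL 3 * LamO) := by simp [LL]
  rw [h]
  try simp only [KL_tau, KL_ctau, KL_2, KL_3]
  try ring

theorem LLv_1_1_1 : LL 1 1 1 = (1 / 64) * LamO := by
  have h : LL 1 1 1 = KL 2 * (LamO) := by simp [LL]
  rw [h]
  try simp only [KL_tau, KL_ctau, KL_2, KL_3]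
  try ring

end RVS
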