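import Pool.Agent.RVS.C2
import Pool.Agent.RVS.S3r

/-!
# RVS/R2: scalar rows of C2 (generated)
-/

set_option autoImplicit false
set_option linter.unusedSimpArgs false
set_option linter.unusedVariables false
set_option linter.unnecessarySeqFocus false
set_option linter.unreachableTactic false
set_option linter.unusedTactic false

open scoped ComplexConjugate

namespace RVS

theorem R2_0 : (27 + 81 * tau) * T0 0 0 1 2 + (-27 - 81 * tau) * T1 0 0 1 2 + (27 + 81 * tau) * T2 0 0 1 2 + (36) * T0 0 1 0 2 + (-54) * T1 0 1 0 2 + (81) * T2 0 1 0 2 + (1 / 3 + tau) * T0 1 0 1 2 + (1) * T2 1 1 0 2 = 0 := by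
  have h := C2 1 0
  rw [LLv_0_0_1, LLv_1_0_0, LLv_1_0_1] at h
  simp only [S_0_0_1_3, S_0_3_0_1, S_1_0_2_1, S_1_2_0_3] at h
  simp only [TT, h2] at h
  linear_combination h - (0) * tau_sq

theorem R2_1 : (27 / 4 + 81 / 4 * tau) * T2 0 0 1 2 + (9) * T0 0 1 0 2 + (1 / 3 + tau) * T0 1 0 1 2 + (-1 / 2 - 3 / 2 * tau) * T1 1 0 1 2 + (3 / 4 + 9 / 4 * tau) * T2 1 0 1 2 + (1) * T0 1 1 0 2 + (-1) * T1 1 1 0 2 + (1) * T2 1 1 0 2 = 0 := by
  have h := C2 0 1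
  rw [LLv_0_0_1, LLv_1_0_0, LLv_1_0_1] at h
  simp only [S_0_0_1_3, S_0_3_0_1, S_1_0_2_1, S_1_2_0_3] at h
  simp only [TT, h2] at h
  linear_combination h - (0) * tau_sq

theorem R2_2 : (27 + 81 * tau) * T0 0 0 1 2 + (-27 / 2 - 81 / 2 * tau) * T1 0 0 1 2 + (27 / 4 + 81 / 4 * tau) * T2 0 0 1 2 + (9) * T0 0 1 0 2 + (-27) * T1 0 1 0 2 + (81) * T2 0 1 0 2 + (4 / 3 + 4 * tau) * T0 1 0 1 2 + (-1 - 3 * tau) * T1 1 0 1 2 + (3 / 4 + 9 / 4 * tau) * T2 1 0 1 2 + (1) * T0 1 1 0 2 + (-2) * T1 1 1 0 2 + (4) * T2 1 1 0 2 = 0 := by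
  have h := C2 1 1
  rw [LLv_0_0_1, LLv_1_0_0, LLv_1_0_1] at h
  simp only [S_0_0_1_3, S_0_3_0_1, S_1_0_2_1, S_1_2_0_3] at h
  simp only [TT, h2] at h
  linear_combination h - (0) * tau_sq

end RVS
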