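import Pool.Agent.RVS.C20
import Pool.Agent.RVS.S3r

/-!
# RVS/R20: scalar rows of C20 (generated)
-/

set_option autoImplicit false
set_option linter.unusedSimpArgs false
set_option linter.unusedVariables false
set_option linter.unnecessarySeqFocus false
set_option linter.unreachableTactic false
set_option linter.unusedTactic false

open scoped ComplexConjugate

namespace RVS

theorem R20_0 : (-3 / 2) * T2 0 0 0 1 + (1) * T2 0 0 1 0 + (-1) * T2 0 1 0 0 + (4 / 9 + 2 / 3 * tau) * T0 1 1 2 3 + (-4 / 9) * T1 1 1 2 3 + (-2 / 9 - 2 / 3 * tau) * T2 1 1 2 3 + (-5 / 2592 - 5 / 1296 * tau) * LamM + (9 + 18 * tau) * LamO = 0 := by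
  have h := C20 1 0
  rw [LLv_0_0_1, LLv_1_0_1] at h
  simp only [S_0_0_2_0, S_0_2_0_0, S_1_3_2_1] at h
  simp only [TT, h2] at h
  linear_combination h - ((81 / 16 + 81 / 32 * tau) * T2 0 0 0 1 + (-27 / 8 - 27 / 16 * tau) * T2 0 0 1 0 + (-1 - 3 / 2 * tau) * T0 1 1 2 3 + (1) * T1 1 1 2 3 + (1 / 864 + 131 / 3456 * tau + 65 / 576 * tau ^ 2 + 19 / 192 * tau ^ 3 + 1 / 32 * tau ^ 4) * LamM) * tau_sq

theorem R20_1 : (-9 / 8 - 27 / 8 * tau) * T0 0 0 0 1 + (9 / 4 + 9 / 4 * tau) * T1 0 0 0 1 + (-3 / 2) * T2 0 0 0 1 + (-5 / 4 - 3 / 4 * tau) * T0 0 0 1 0 + (-1) * T0 0 1 0 0 + (-2 / 9 - 2 / 3 * tau) * T0 1 1 2 3 + (2 / 9 + 2 / 3 * tau) * T1 1 1 2 3 + (-2 / 9 - 2 / 3 * tau) * T2 1 1 2 3 + (-35 / 432 - 35 / 1296 * tau) * LamM + (27 / 8 + 9 / 8 * tau) * LamO = 0 := by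
  have h := C20 0 1
  rw [LLv_0_0_1, LLv_1_0_1] at h
  simp only [S_0_0_2_0, S_0_2_0_0, S_1_3_2_1] at h
  simp only [TT, h2] at h
  linear_combination h - ((27 / 16 + 81 / 32 * tau) * T0 0 0 0 1 + (-27 / 8 - 81 / 32 * tau) * T1 0 0 0 1 + (81 / 16 + 81 / 32 * tau) * T2 0 0 0 1 + (29 / 192 - 83 / 1728 * tau - 5 / 96 * tau ^ 2) * LamM + (-27 / 8 + 27 / 4 * tau) * LamO) * tau_sq

theorem R20_2 : (-9 / 8 - 27 / 8 * tau) * T0 0 0 0 1 + (9 / 2 + 9 / 2 * tau) * T1 0 0 0 1 + (-6) * T2 0 0 0 1 + (-5 / 4 - 3 / 4 * tau) * T0 0 0 1 0 + (-1 / 2 - 3 / 2 * tau) * T1 0 0 1 0 + (1) * T2 0 0 1 0 + (-1) * T0 0 1 0 0 + (-1) * T1 0 1 0 0 + (-1) * T2 0 1 0 0 + (10 / 9) * T0 1 1 2 3 + (-4 / 9 + 4 / 3 * tau) * T1 1 1 2 3 + (-8 / 9 - 8 / 3 * tau) * T2 1 1 2 3 + (-295 / 2592 - 5 / 81 * tau) * LamM + (219 / 8 + 273 / 8 * tau) * LamO = 0 := by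
  have h := C20 1 1
  rw [LLv_0_0_1, LLv_1_0_1] at h
  simp only [S_0_0_2_0, S_0_2_0_0, S_1_3_2_1] at h
  simp only [TT, h2] at h
  linear_combination h - ((27 / 16 + 81 / 32 * tau) * T0 0 0 0 1 + (-27 / 4 - 81 / 16 * tau) * T1 0 0 0 1 + (81 / 4 + 81 / 8 * tau) * T2 0 0 0 1 + (-9 / 8) * T1 0 0 1 0 + (-27 / 8 - 27 / 16 * tau) * T2 0 0 1 0 + (-3 - 3 / 2 * tau) * T0 1 1 2 3 + (2) * T1 1 1 2 3 + (373 / 1728 + 245 / 3456 * tau + 79 / 576 * tau ^ 2 + 9 / 64 * tau ^ 3 + 1 / 32 * tau ^ 4) * LamM + (-171 / 8 + 27 / 4 * tau) * LamO) * tau_sq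

end RVS
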