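import Pool.Agent.RVS.C21
import Pool.Agent.RVS.S3r

/-!
# RVS/R21: scalar rows of C21 (generated)
-/

set_option autoImplicit false
set_option linter.unusedSimpArgs false
set_option linter.unusedVariables false
set_option linter.unnecessarySeqFocus false
set_option linter.unreachableTactic false
set_option linter.unusedTactic false

open scoped ComplexConjugate

namespace RVS

theorem R21_0 : (-162 - 486 * tau) * T0 0 0 1 2 + (-324 - 486 * tau) * T0 0 1 0 2 + (486 * tau) * T1 0 1 0 2 + (486) * T2 0 1 0 2 + (-108 - 324 * tau) * T2 0 1 2 0 + (1) * T0 1 0 0 0 + (289 / 24 + 523 / 24 * tau) * LamM + (-63 / 16 + 99 / 16 * tau) * LamO = 0 := by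
  have h := C21 1 0
  rw [LLv_0_0_0] at h
  simp only [TT, h2] at h
  linear_combination h - ((-486) * T0 0 0 1 2 + (486) * T0 0 1 0 2 + (-324) * T2 0 1 2 0 + (31 / 8 + 187 / 8 * tau + 189 / 8 * tau ^ 2 + 27 / 4 * tau ^ 3) * LamM + (351 / 16 + 81 / 8 * tau) * LamO) * tau_sq

theorem R21_1 : (-486) * T2 0 0 1 2 + (486) * T2 0 1 0 2 + (216 + 324 * tau) * T0 0 1 2 0 + (-216) * T1 0 1 2 0 + (-108 - 324 * tau) * T2 0 1 2 0 + (1) * T2 1 0 0 0 + (81 / 8 + 81 / 4 * tau) * LamM + (-81 / 16 - 81 / 8 * tau) * LamO = 0 := by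
  have h := C21 0 1
  rw [LLv_0_0_0] at h
  simp only [TT, h2] at h
  linear_combination h - ((-324) * T0 0 1 2 0 + (324) * T1 0 1 2 0 + (-324) * T2 0 1 2 0 + (27 / 4 + 27 / 2 * tau) * LamM + (243 / 16 + 243 / 8 * tau) * LamO) * tau_sq

theorem R21_2 : (-162 - 486 * tau) * T0 0 0 1 2 + (-486 - 486 * tau) * T1 0 0 1 2 + (-486) * T2 0 0 1 2 + (-324 - 486 * tau) * T0 0 1 0 2 + (972 * tau) * T1 0 1 0 2 + (1944) * T2 0 1 0 2 + (216 + 324 * tau) * T0 0 1 2 0 + (-432) * T1 0 1 2 0 + (-432 - 1296 * tau) * T2 0 1 2 0 + (1) * T0 1 0 0 0 + (1) * T1 1 0 0 0 + (1) * T2 1 0 0 0 + (415 / 12 + 1495 / 24 * tau) * LamM + (-225 / 8 - 225 / 16 * tau) * LamO = 0 := by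
  have h := C21 1 1
  rw [LLv_0_0_0] at h
  simp only [TT, h2] at h
  linear_combination h - ((-486) * T0 0 0 1 2 + (486) * T0 0 1 0 2 + (-324) * T0 0 1 2 0 + (648) * T1 0 1 2 0 + (-1296) * T2 0 1 2 0 + (167 / 8 + 601 / 8 * tau + 297 / 8 * tau ^ 2 + 27 / 4 * tau ^ 3) * LamM + (1377 / 16 + 567 / 8 * tau) * LamO) * tau_sq

end RVS
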