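import Pool.Agent.RVS.C22
import Pool.Agent.RVS.S3r

/-!
# RVS/R22: scalar rows of C22 (generated)
-/

set_option autoImplicit false
set_option linter.unusedSimpArgs false
set_option linter.unusedVariables false
set_option linter.unnecessarySeqFocus false
set_option linter.unreachableTactic false
set_option linter.unusedTactic false

open scoped ComplexConjugate

namespace RVS

theorem R22_0 : (324 + 486 * tau) * T0 0 1 2 3 + (-324 - 486 * tau) * T1 0 1 2 3 + (324 + 486 * tau) * T2 0 1 2 3 + (-9 / 4 - 27 / 8 * tau) * T0 1 0 0 1 + (9 / 4 * tau) * T1 1 0 0 1 + (3 / 2) * T2 1 0 0 1 + (1) * T0 1 0 1 0 + (1 / 2 - 3 / 4 * tau) * T0 1 1 0 0 + (-9 / 4 + 9 / 8 * tau) * LamM + (315 / 8 - 315 / 16 * tau) * LamO = 0 := by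
  have h := C22 1 0
  rw [LLv_0_0_0, LLv_0_1_0] at h
  simp only [S_0_2_3_1] at h
  simp only [TT, h2] at h
  linear_combination h - ((-729 - 2187 / 2 * tau) * T0 0 1 2 3 + (729 + 2187 / 2 * tau) * T1 0 1 2 3 + (-729 - 2187 / 2 * tau) * T2 0 1 2 3 + (27 / 8) * T0 1 0 0 1 + (-9 / 4) * T0 1 1 0 0 + (81 / 8 + 27 / 4 * tau) * LamM + (-999 / 8 - 1323 / 32 * tau - 5751 / 64 * tau ^ 2 - 5103 / 64 * tau ^ 3 - 729 / 32 * tau ^ 4) * LamO) * tau_sq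

theorem R22_1 : (324 + 486 * tau) * T0 0 1 2 3 + (-324) * T1 0 1 2 3 + (-162 - 486 * tau) * T2 0 1 2 3 + (3 / 2) * T2 1 0 0 1 + (1) * T2 1 0 1 0 + (-1) * T2 1 1 0 0 + (9 + 18 * tau) * LamM + (-45 / 32 - 45 / 16 * tau) * LamO = 0 := by
  have h := C22 0 1
  rw [LLv_0_0_0, LLv_0_1_0] at h
  simp only [S_0_2_3_1] at h
  simp only [TT, h2] at h
  linear_combination h - ((-729 - 2187 / 2 * tau) * T0 0 1 2 3 + (729) * T1 0 1 2 3 + (-3537 / 128 - 12987 / 128 * tau - 5913 / 64 * tau ^ 2) * LamO) * tau_sq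

theorem R22_2 : (1296 + 1944 * tau) * T0 0 1 2 3 + (-1296 - 972 * tau) * T1 0 1 2 3 + (810) * T2 0 1 2 3 + (-9 / 4 - 27 / 8 * tau) * T0 1 0 0 1 + (9 / 2 * tau) * T1 1 0 0 1 + (6) * T2 1 0 0 1 + (1) * T0 1 0 1 0 + (1) * T1 1 0 1 0 + (1) * T2 1 0 1 0 + (1 / 2 - 3 / 4 * tau) * T0 1 1 0 0 + (-1 - 3 / 2 * tau) * T1 1 1 0 0 + (-1) * T2 1 1 0 0 + (27 / 4 + 273 / 8 * tau) * LamM + (1215 / 32 - 45 * tau) * LamO = 0 := by
  have h := C22 1 1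
  rw [LLv_0_0_0, LLv_0_1_0] at h
  simp only [S_0_2_3_1] at h
  simp only [TT, h2] at h
  linear_combination h - ((-2916 - 4374 * tau) * T0 0 1 2 3 + (2916 + 2187 * tau) * T1 0 1 2 3 + (-2187 - 2187 / 2 * tau) * T2 0 1 2 3 + (27 / 8) * T0 1 0 0 1 + (-9 / 4) * T0 1 1 0 0 + (225 / 8 + 27 / 4 * tau) * LamM + (-24705 / 128 - 29511 / 128 * tau - 5103 / 16 * tau ^ 2 - 7047 / 64 * tau ^ 3 - 729 / 32 * tau ^ 4) * LamO) * tau_sq

end RVS
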