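import Pool.Agent.RVS.C3
import Pool.Agent.RVS.S3r

/-!
# RVS/R3: scalar rows of C3 (generated)
-/

set_option autoImplicit false
set_option linter.unusedSimpArgs false
set_option linter.unusedVariables false
set_option linter.unnecessarySeqFocus false
set_option linter.unreachableTactic false
set_option linter.unusedTactic false

open scoped ComplexConjugate

namespace RVS

theorem R3_0 : (-1) * T2 0 0 1 0 + (36 + 54 * tau) * T0 0 1 2 1 + (-36 - 36 * tau) * T1 0 1 2 1 + (30 + 18 * tau) * T2 0 1 2 1 + (-1 / 27 - 1 / 9 * tau) * T0 1 0 1 0 + (-2 / 9 - 2 / 3 * tau) * T2 1 1 2 1 + (-101 / 2592 + 19 / 1296 * tau) * LamM + (439 / 96 + 893 / 96 * tau) * LamO = 0 := by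
  have h := C3 1 0
  rw [LLv_0_0_1, LLv_0_1_1] at h
  simp only [S_0_0_2_0, S_0_1_3_1] at h
  simp only [TT, h2] at h
  linear_combination h - ((-54) * T0 0 1 2 1 + (54) * T1 0 1 2 1 + (-54) * T2 0 1 2 1 + (1 / 12 + 1 / 4 * tau) * T0 1 0 1 0 + (1 / 2 + 3 / 2 * tau) * T2 1 1 2 1 + (-23 / 3456 - 1477 / 3456 * tau - 463 / 1152 * tau ^ 2 - 17 / 384 * tau ^ 3 - 1 / 64 * tau ^ 4) * LamM + (7 / 32 + 1 / 16 * tau) * LamO) * tau_sq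

theorem R3_1 : (-1) * T0 0 0 1 0 + (-6) * T2 0 1 2 1 + (1 / 54 + 1 / 36 * tau) * T2 1 0 1 0 + (1 / 3 - 1 / 2 * tau) * T0 1 1 2 1 + (2 / 3 * tau) * T1 1 1 2 1 + (-2 / 9 - 2 / 3 * tau) * T2 1 1 2 1 + (227 / 2592 - 53 / 1296 * tau) * LamM + (139 / 192 + 341 / 384 * tau) * LamO = 0 := by
  have h := C3 0 1
  rw [LLv_0_0_1, LLv_0_1_1] at h
  simp only [S_0_0_2_0, S_0_1_3_1] at h
  simp only [TT, h2] at h
  linear_combination h - ((-1 / 2 + 3 / 2 * tau) * T0 1 1 2 1 + (-3 / 2 * tau) * T1 1 1 2 1 + (1 / 2 + 3 / 2 * tau) * T2 1 1 2 1 + (-907 / 3456 - 25 / 3456 * tau - 1 / 576 * tau ^ 2) * LamM + (-13 / 128 + 73 / 64 * tau) * LamO) * tau_sq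

theorem R3_2 : (-1) * T0 0 0 1 0 + (-1) * T1 0 0 1 0 + (-1) * T2 0 0 1 0 + (36 + 54 * tau) * T0 0 1 2 1 + (-36 - 18 * tau) * T1 0 1 2 1 + (12 - 18 * tau) * T2 0 1 2 1 + (-1 / 27 - 1 / 9 * tau) * T0 1 0 1 0 + (-1 / 27) * T1 1 0 1 0 + (1 / 54 + 1 / 36 * tau) * T2 1 0 1 0 + (1 / 3 - 1 / 2 * tau) * T0 1 1 2 1 + (4 / 3 * tau) * T1 1 1 2 1 + (-8 / 9 - 8 / 3 * tau) * T2 1 1 2 1 + (5 / 24 + 55 / 324 * tau) * LamM + (615 / 64 + 5945 / 384 * tau) * LamO = 0 := by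
  have h := C3 1 1
  rw [LLv_0_0_1, LLv_0_1_1] at h
  simp only [S_0_0_2_0, S_0_1_3_1] at h
  simp only [TT, h2] at h
  linear_combination h - ((-54) * T0 0 1 2 1 + (54) * T1 0 1 2 1 + (-54) * T2 0 1 2 1 + (1 / 12 + 1 / 4 * tau) * T0 1 0 1 0 + (1 / 12) * T1 1 0 1 0 + (-1 / 2 + 3 / 2 * tau) * T0 1 1 2 1 + (-3 * tau) * T1 1 1 2 1 + (2 + 6 * tau) * T2 1 1 2 1 + (-97 / 144 - 26 / 27 * tau - 169 / 384 * tau ^ 2 - 7 / 128 * tau ^ 3 - 1 / 64 * tau ^ 4) * LamM + (-483 / 128 + 91 / 64 * tau) * LamO) * tau_sq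

end RVS
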