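import Pool.Agent.RVS.C5
import Pool.Agent.RVS.S3r

/-!
# RVS/R5: scalar rows of C5 (generated)
-/

set_option autoImplicit false
set_option linter.unusedSimpArgs false
set_option linter.unusedVariables false
set_option linter.unnecessarySeqFocus false
set_option linter.unreachableTactic false
set_option linter.unusedTactic false

open scoped ComplexConjugate

namespace RVS

theorem R5_0 : (-1) * T2 0 1 0 0 + (-12 + 18 * tau) * T0 0 1 2 2 + (-36 * tau) * T1 0 1 2 2 + (18 + 54 * tau) * T2 0 1 2 2 + (2 / 27 + 1 / 9 * tau) * T0 1 1 0 0 + (-4 / 9 - 2 / 3 * tau) * T0 1 1 2 2 + (-139 / 2592 - 19 / 1296 * tau) * LamM + (-227 / 48 - 893 / 96 * tau) * LamO = 0 := by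
  have h := C5 1 0
  rw [LLv_0_0_1, LLv_1_0_1] at h
  simp only [S_0_2_0_0, S_0_3_1_1, S_1_2_1_1] at h
  simp only [TT, h2] at h
  linear_combination h - ((54) * T0 0 1 2 2 + (-54) * T1 0 1 2 2 + (54) * T2 0 1 2 2 + (-1 / 6 - 1 / 4 * tau) * T0 1 1 0 0 + (1 + 3 / 2 * tau) * T0 1 1 2 2 + (41 / 864 - 529 / 1728 * tau - 209 / 576 * tau ^ 2 - 7 / 384 * tau ^ 3 - 1 / 64 * tau ^ 4) * LamM + (5 / 32 - 1 / 16 * tau) * LamO) * tau_sq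

theorem R5_1 : (-1) * T0 0 1 0 0 + (6) * T0 0 1 2 2 + (-1 / 108 - 1 / 36 * tau) * T2 1 1 0 0 + (-4 / 9 - 2 / 3 * tau) * T0 1 1 2 2 + (2 / 3 + 2 / 3 * tau) * T1 1 1 2 2 + (-5 / 6 - 1 / 2 * tau) * T2 1 1 2 2 + (37 / 288 + 53 / 1296 * tau) * LamM + (-21 / 128 - 341 / 384 * tau) * LamO = 0 := by
  have h := C5 0 1
  rw [LLv_0_0_1, LLv_1_0_1] at h
  simp only [S_0_2_0_0, S_0_3_1_1, S_1_2_1_1] at h
  simp only [TT, h2] at h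
  linear_combination h - ((1 + 3 / 2 * tau) * T0 1 1 2 2 + (-3 / 2 - 3 / 2 * tau) * T1 1 1 2 2 + (2 + 3 / 2 * tau) * T2 1 1 2 2 + (-37 / 144 + 13 / 3456 * tau - 1 / 576 * tau ^ 2) * LamM + (-159 / 128 - 73 / 64 * tau) * LamO) * tau_sq

theorem R5_2 : (-1) * T0 0 1 0 0 + (-1) * T1 0 1 0 0 + (-1) * T2 0 1 0 0 + (-30 - 18 * tau) * T0 0 1 2 2 + (18 - 18 * tau) * T1 0 1 2 2 + (18 + 54 * tau) * T2 0 1 2 2 + (2 / 27 + 1 / 9 * tau) * T0 1 1 0 0 + (-1 / 27) * T1 1 1 0 0 + (-1 / 108 - 1 / 36 * tau) * T2 1 1 0 0 + (-16 / 9 - 8 / 3 * tau) * T0 1 1 2 2 + (4 / 3 + 4 / 3 * tau) * T1 1 1 2 2 + (-5 / 6 - 1 / 2 * tau) * T2 1 1 2 2 + (25 / 648 - 55 / 324 * tau) * LamM + (-2255 / 384 - 5945 / 384 * tau) * LamO = 0 := by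
  have h := C5 1 1
  rw [LLv_0_0_1, LLv_1_0_1] at h
  simp only [S_0_2_0_0, S_0_3_1_1, S_1_2_1_1] at h
  simp only [TT, h2] at h
  linear_combination h - ((54) * T0 0 1 2 2 + (-54) * T1 0 1 2 2 + (54) * T2 0 1 2 2 + (-1 / 6 - 1 / 4 * tau) * T0 1 1 0 0 + (1 / 12) * T1 1 1 0 0 + (4 + 6 * tau) * T0 1 1 2 2 + (-3 - 3 * tau) * T1 1 1 2 2 + (2 + 3 / 2 * tau) * T2 1 1 2 2 + (-193 / 1728 + 637 / 3456 * tau - 71 / 192 * tau ^ 2 - 1 / 128 * tau ^ 3 - 1 / 64 * tau ^ 4) * LamM + (-665 / 128 - 91 / 64 * tau) * LamO) * tau_sq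

end RVS
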