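import Pool.Agent.RVS.C6
import Pool.Agent.RVS.S3r

/-!
# RVS/R6: scalar rows of C6 (generated)
-/

set_option autoImplicit false
set_option linter.unusedSimpArgs false
set_option linter.unusedVariables false
set_option linter.unnecessarySeqFocus false
set_option linter.unreachableTactic false
set_option linter.unusedTactic false

open scoped ComplexConjugate

namespace RVS

theorem R6_0 : (-54 - 81 * tau) * T0 0 1 0 2 + (54 + 81 * tau) * T1 0 1 0 2 + (-54 - 81 * tau) * T2 0 1 0 2 + (-12 + 18 * tau) * T0 0 1 2 0 + (-36 * tau) * T1 0 1 2 0 + (18 + 54 * tau) * T2 0 1 2 0 + (1) * T2 1 1 0 2 + (-4 / 9 - 2 / 3 * tau) * T0 1 1 2 0 + (-7 / 24 - 31 / 96 * tau) * LamM + (63 / 32 - 9 / 2 * tau) * LamO = 0 := by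
  have h := C6 1 0
  rw [LLv_0_0_1, LLv_1_0_0, LLv_1_0_1] at h
  simp only [S_0_1_0_3, S_0_3_1_0, S_1_2_0_3, S_1_2_1_0] at h
  simp only [TT, h2] at h
  linear_combination h - ((243 / 2 + 729 / 4 * tau) * T0 0 1 0 2 + (-243 / 2 - 729 / 4 * tau) * T1 0 1 0 2 + (243 / 2 + 729 / 4 * tau) * T2 0 1 0 2 + (54) * T0 0 1 2 0 + (-54) * T1 0 1 2 0 + (54) * T2 0 1 2 0 + (1 + 3 / 2 * tau) * T0 1 1 2 0 + (7 / 32 - 3 / 8 * tau - 3 / 8 * tau ^ 2) * LamM + (-351 / 32 + 297 / 64 * tau + 567 / 64 * tau ^ 2 - 1701 / 128 * tau ^ 3 - 729 / 64 * tau ^ 4) * LamO) * tau_sq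

theorem R6_1 : (27 / 4 + 81 / 4 * tau) * T2 0 1 0 2 + (6) * T0 0 1 2 0 + (1) * T0 1 1 0 2 + (-1) * T1 1 1 0 2 + (1) * T2 1 1 0 2 + (-4 / 9 - 2 / 3 * tau) * T0 1 1 2 0 + (2 / 3 + 2 / 3 * tau) * T1 1 1 2 0 + (-5 / 6 - 1 / 2 * tau) * T2 1 1 2 0 + (13 / 128 + 53 / 384 * tau) * LamM + (153 / 64 - 99 / 64 * tau) * LamO = 0 := by
  have h := C6 0 1
  rw [LLv_0_0_1, LLv_1_0_0, LLv_1_0_1] at h
  simp only [S_0_1_0_3, S_0_3_1_0, S_1_2_0_3, S_1_2_1_0] at h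
  simp only [TT, h2] at h
  linear_combination h - ((1 + 3 / 2 * tau) * T0 1 1 2 0 + (-3 / 2 - 3 / 2 * tau) * T1 1 1 2 0 + (2 + 3 / 2 * tau) * T2 1 1 2 0 + (-29 / 128 - 19 / 64 * tau) * LamM + (-405 / 64 + 243 / 128 * tau - 81 / 64 * tau ^ 2) * LamO) * tau_sq

theorem R6_2 : (-54 - 81 * tau) * T0 0 1 0 2 + (27 + 81 * tau) * T1 0 1 0 2 + (27 / 4 - 243 / 4 * tau) * T2 0 1 0 2 + (-30 - 18 * tau) * T0 0 1 2 0 + (18 - 18 * tau) * T1 0 1 2 0 + (18 + 54 * tau) * T2 0 1 2 0 + (1) * T0 1 1 0 2 + (-2) * T1 1 1 0 2 + (4) * T2 1 1 0 2 + (-16 / 9 - 8 / 3 * tau) * T0 1 1 2 0 + (4 / 3 + 4 / 3 * tau) * T1 1 1 2 0 + (-5 / 6 - 1 / 2 * tau) * T2 1 1 2 0 + (-515 / 1152 - 485 / 1152 * tau) * LamM + (-165 / 64 - 795 / 64 * tau) * LamO = 0 := by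
  have h := C6 1 1
  rw [LLv_0_0_1, LLv_1_0_0, LLv_1_0_1] at h
  simp only [S_0_1_0_3, S_0_3_1_0, S_1_2_0_3, S_1_2_1_0] at h
  simp only [TT, h2] at h
  linear_combination h - ((243 / 2 + 729 / 4 * tau) * T0 0 1 0 2 + (-243 / 4 - 729 / 4 * tau) * T1 0 1 0 2 + (729 / 4 * tau) * T2 0 1 0 2 + (54) * T0 0 1 2 0 + (-54) * T1 0 1 2 0 + (54) * T2 0 1 2 0 + (4 + 6 * tau) * T0 1 1 2 0 + (-3 - 3 * tau) * T1 1 1 2 0 + (2 + 3 / 2 * tau) * T2 1 1 2 0 + (179 / 384 - 25 / 64 * tau - 3 / 8 * tau ^ 2) * LamM + (-45 / 4 - 405 / 128 * tau + 243 / 64 * tau ^ 2 - 729 / 128 * tau ^ 3 - 729 / 64 * tau ^ 4) * LamO) * tau_sq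

end RVS
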