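import Pool.Agent.RVS.C9
import Pool.Agent.RVS.S3r

/-!
# RVS/R9: scalar rows of C9 (generated)
-/

set_option autoImplicit false
set_option linter.unusedSimpArgs false
set_option linter.unusedVariables false
set_option linter.unnecessarySeqFocus false
set_option linter.unreachableTactic false
set_option linter.unusedTactic false

open scoped ComplexConjugate

namespace RVS

theorem R9_0 : (1) * T2 0 1 2 3 + (-1 / 2 + 3 / 4 * tau) * T0 0 1 2 4 + (-2 / 27 - 1 / 9 * tau) * T0 1 1 2 1 + (2 / 27 + 1 / 9 * tau) * T1 1 1 2 1 + (-2 / 27 - 1 / 9 * tau) * T2 1 1 2 1 + (5 / 54 + 1 / 12 * tau) * T0 1 1 2 2 + (-2 / 27 - 1 / 9 * tau) * T1 1 1 2 2 + (1 / 27 + 1 / 9 * tau) * T2 1 1 2 2 + (1 / 31104 + 29 / 62208 * tau) * LamM + (-365 / 1152 - 445 / 2304 * tau) * LamO = 0 := by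
  have h := C9 1 0
  rw [LLv_0_1_2, LLv_1_0_2, LLv_1_1_1] at h
  simp only [S_0_2_1_4, S_0_2_3_1, S_1_1_3_1, S_1_3_1_1] at h
  simp only [TT, h2] at h
  linear_combination h - ((9 / 4) * T0 0 1 2 4 + (1 / 6 + 1 / 4 * tau) * T0 1 1 2 1 + (-1 / 6 - 1 / 4 * tau) * T1 1 1 2 1 + (1 / 6 + 1 / 4 * tau) * T2 1 1 2 1 + (-1 / 4 - 1 / 4 * tau) * T0 1 1 2 2 + (1 / 6 + 1 / 4 * tau) * T1 1 1 2 2 + (-1 / 12 - 1 / 4 * tau) * T2 1 1 2 2 + (13 / 20736 + 1 / 3456 * tau) * LamM + (721 / 768 + 213 / 256 * tau + 39 / 512 * tau ^ 2 + 135 / 1024 * tau ^ 3 + 27 / 512 * tau ^ 4) * LamO) * tau_sq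

theorem R9_1 : (1) * T0 0 1 2 3 + (-1) * T1 0 1 2 3 + (1) * T2 0 1 2 3 + (-1 / 2 + 3 / 4 * tau) * T0 0 1 2 4 + (1) * T1 0 1 2 4 + (-5 / 4 - 3 / 4 * tau) * T2 0 1 2 4 + (1 / 108 + 1 / 36 * tau) * T2 1 1 2 1 + (-1 / 54 - 1 / 36 * tau) * T0 1 1 2 2 + (-11 / 62208 - 11 / 31104 * tau) * LamM + (635 / 2304 + 635 / 1152 * tau) * LamO = 0 := by
  have h := C9 0 1
  rw [LLv_0_1_2, LLv_1_0_2, LLv_1_1_1] at h
  simp only [S_0_2_1_4, S_0_2_3_1, S_1_1_3_1, S_1_3_1_1] at h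
  simp only [TT, h2] at h
  linear_combination h - ((9 / 4) * T0 0 1 2 4 + (-9 / 4) * T1 0 1 2 4 + (9 / 4) * T2 0 1 2 4 + (1 / 2304 + 1 / 1152 * tau) * LamM + (9 / 1024 + 9 / 512 * tau) * LamO) * tau_sq

theorem R9_2 : (1) * T0 0 1 2 3 + (-2) * T1 0 1 2 3 + (4) * T2 0 1 2 3 + (-2 + 3 * tau) * T0 0 1 2 4 + (2) * T1 0 1 2 4 + (-5 / 4 - 3 / 4 * tau) * T2 0 1 2 4 + (-2 / 27 - 1 / 9 * tau) * T0 1 1 2 1 + (1 / 9 + 1 / 9 * tau) * T1 1 1 2 1 + (-5 / 36 - 1 / 12 * tau) * T2 1 1 2 1 + (1 / 9) * T0 1 1 2 2 + (-1 / 9 - 1 / 9 * tau) * T1 1 1 2 2 + (1 / 27 + 1 / 9 * tau) * T2 1 1 2 2 + (-5 / 6912 - 5 / 20736 * tau) * LamM + (-475 / 2304 + 2095 / 2304 * tau) * LamO = 0 := by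
  have h := C9 1 1
  rw [LLv_0_1_2, LLv_1_0_2, LLv_1_1_1] at h
  simp only [S_0_2_1_4, S_0_2_3_1, S_1_1_3_1, S_1_3_1_1] at h
  simp only [TT, h2] at h
  linear_combination h - ((9) * T0 0 1 2 4 + (-9 / 2) * T1 0 1 2 4 + (9 / 4) * T2 0 1 2 4 + (1 / 6 + 1 / 4 * tau) * T0 1 1 2 1 + (-1 / 4 - 1 / 4 * tau) * T1 1 1 2 1 + (1 / 3 + 1 / 4 * tau) * T2 1 1 2 1 + (-5 / 12 - 1 / 4 * tau) * T0 1 1 2 2 + (1 / 4 + 1 / 4 * tau) * T1 1 1 2 2 + (-1 / 12 - 1 / 4 * tau) * T2 1 1 2 2 + (17 / 6912 + 7 / 3456 * tau) * LamM + (2073 / 1024 + 473 / 512 * tau + 21 / 128 * tau ^ 2 + 171 / 1024 * tau ^ 3 + 27 / 512 * tau ^ 4) * LamO) * tau_sq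

end RVS
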