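import Pool.Agent.RVS.S3r

/-!
# RVS/RS: stabiliser rows (generated)
-/

set_option autoImplicit false
set_option linter.unusedSimpArgs false
set_option linter.unusedVariables false
set_option linter.unnecessarySeqFocus false
set_option linter.unreachableTactic false
set_option linter.unusedTactic false

open scoped ComplexConjugate

namespace RVS

theorem S0000_12_0 : (1) * T0 0 0 0 0 + (1) * T2 0 0 0 0 = 0 := by
  have h := E12_0_0_0_0 1 0
  simp only [TT] at h
  linear_combination h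

theorem S0000_12_2 : (2) * T0 0 0 0 0 + (2) * T1 0 0 0 0 + (2) * T2 0 0 0 0 = 0 := by
  have h := E12_0_0_0_0 1 1
  simp only [TT] at h
  linear_combination h

theorem S0000_23_0 : (2) * T0 0 0 0 0 + (-1) * T1 0 0 0 0 + (1) * T2 0 0 0 0 = 0 := by
  have h := E23_0_0_0_0 1 0
  simp only [TT] at h
  linear_combination h

theorem S0001_23_0 : (2) * T0 0 0 0 1 + (-1) * T1 0 0 0 1 + (1) * T2 0 0 0 1 = 0 := by
  have h := E23_0_0_0_1 1 0
  simp only [TT] at h
  linear_combination h

theorem S0001_23_1 : (2) * T2 0 0 0 1 = 0 := by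
  have h := E23_0_0_0_1 0 1
  simp only [TT] at h
  linear_combination h

theorem S0010_23_0 : (2) * T0 0 0 1 0 + (-1) * T1 0 0 1 0 + (1) * T2 0 0 1 0 = 0 := by
  have h := E23_0_0_1_0 1 0
  simp only [TT] at h
  linear_combination h

theorem S0010_23_1 : (2) * T2 0 0 1 0 = 0 := by
  have h := E23_0_0_1_0 0 1
  simp only [TT] at h
  linear_combination h

theorem S0100_23_0 : (2) * T0 0 1 0 0 + (-1) * T1 0 1 0 0 + (1) * T2 0 1 0 0 = 0 := by
  have h := E23_0_1_0_0 1 0
  simp only [TT] at h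
  linear_combination h

theorem S0100_23_1 : (2) * T2 0 1 0 0 = 0 := by
  have h := E23_0_1_0_0 0 1
  simp only [TT] at h
  linear_combination h

theorem S0110_23_0 : (2) * T0 0 1 1 0 + (-1) * T1 0 1 1 0 + (1) * T2 0 1 1 0 = 0 := by
  have h := E23_0_1_1_0 1 0
  simp only [TT] at h
  linear_combination h

theorem S0110_23_1 : (2) * T2 0 1 1 0 = 0 := by
  have h := E23_0_1_1_0 0 1
  simp only [TT] at h
  linear_combination h

theorem S1000_12_0 : (1) * T0 1 0 0 0 + (1) * T2 1 0 0 0 = 0 := by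
  have h := E12_1_0_0_0 1 0
  simp only [TT] at h
  linear_combination h

theorem S1000_12_2 : (2) * T0 1 0 0 0 + (2) * T1 1 0 0 0 + (2) * T2 1 0 0 0 = 0 := by
  have h := E12_1_0_0_0 1 1
  simp only [TT] at h
  linear_combination h

theorem S1000_23_0 : (2) * T0 1 0 0 0 + (-1) * T1 1 0 0 0 + (1) * T2 1 0 0 0 = 0 := by
  have h := E23_1_0_0_0 1 0
  simp only [TT] at h
  linear_combination h

theorem S1001_23_0 : (2) * T0 1 0 0 1 + (-1) * T1 1 0 0 1 + (1) * T2 1 0 0 1 = 0 := by
  have h := E23_1_0_0_1 1 0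
  simp only [TT] at h
  linear_combination h

theorem S1001_23_1 : (2) * T2 1 0 0 1 = 0 := by
  have h := E23_1_0_0_1 0 1
  simp only [TT] at h
  linear_combination h

theorem S1010_23_0 : (2) * T0 1 0 1 0 + (-1) * T1 1 0 1 0 + (1) * T2 1 0 1 0 = 0 := by
  have h := E23_1_0_1_0 1 0
  simp only [TT] at h
  linear_combination h

theorem S1010_23_1 : (2) * T2 1 0 1 0 = 0 := by
  have h := E23_1_0_1_0 0 1
  simp only [TT] at h
  linear_combination h

theorem S1011_23_0 : (2) * T0 1 0 1 1 + (-1) * T1 1 0 1 1 + (1) * T2 1 0 1 1 = 0 := by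
  have h := E23_1_0_1_1 1 0
  simp only [TT] at h
  linear_combination h

theorem S1100_23_0 : (2) * T0 1 1 0 0 + (-1) * T1 1 1 0 0 + (1) * T2 1 1 0 0 = 0 := by
  have h := E23_1_1_0_0 1 0
  simp only [TT] at h
  linear_combination h

theorem S1100_23_1 : (2) * T2 1 1 0 0 = 0 := by
  have h := E23_1_1_0_0 0 1
  simp only [TT] at h
  linear_combination h

theorem S1101_23_0 : (2) * T0 1 1 0 1 + (-1) * T1 1 1 0 1 + (1) * T2 1 1 0 1 = 0 := by
  have h := E23_1_1_0_1 1 0
  simp only [TT] at h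
  linear_combination h

theorem S1110_23_0 : (2) * T0 1 1 1 0 + (-1) * T1 1 1 1 0 + (1) * T2 1 1 1 0 = 0 := by
  have h := E23_1_1_1_0 1 0
  simp only [TT] at h
  linear_combination h

theorem S1110_23_1 : (2) * T2 1 1 1 0 = 0 := by
  have h := E23_1_1_1_0 0 1
  simp only [TT] at h
  linear_combination h

theorem S1111_23_0 : (2) * T0 1 1 1 1 + (-1) * T1 1 1 1 1 + (1) * T2 1 1 1 1 = 0 := by
  have h := E23_1_1_1_1 1 0
  simp only [TT] at h
  linear_combination h

end RVS
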