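import Pool.Agent.RVS.Sum
import Pool.Agent.RVS.LinkP

/-!
# RVS/Wts: the weight `cw` as a combination of indicators of lattices

`sg m = (2 [n even] - 1)(2 [m+n even] - 1)` for `v = (m, n)`; `t3 m = [3 | m]`; expand
`cw = sg p (-1/3 + t3 p + t3 r - 6 t3 p t3 q) + t3 q (sg r - sg q)`, `r = p + q`.
`wt_pt`: unfold everything, the congruences mod 2 and 3 of the coordinates (`split_ifs`, `omega`, `norm_num`; better: first
`sg m = ...` as a product of two indicators, then `ring`).  `wt_sum`: `tsum` is linear, `w_sum`, `k1_sum`, `k2_sum`, `ind_le`,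
`K13 y0 x = 2 k2 - k1` at `em`.
-/

set_option autoImplicit false

open scoped ComplexConjugate

namespace RVS

open RVP

theorem Wts_ind (c a b d : ℕ) (x : V4) : ind c a b d x =
    (if cA a x then 1 else 0) * (if cB b x then 1 else 0) * (if cC c d x then 1 else 0) := by
  unfold ind
  by_cases h1 : cA a x <;> by_cases h2 : cB b x <;> by_cases h3 : cC c d x <;> simp [h1, h2, h3]

theorem Wts_sg (m n : ℤ) : ((sg m : ℝ) : ℂ) =
    (2 * (if n % 2 = 0 then 1 else 0) - 1) * (2 * (if (m + n) % 2 = 0 then 1 else 0) - 1) := by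
  unfold sg
  split_ifs <;> first | omega | norm_num

theorem Wts_t3 (m : ℤ) : ((t3 m : ℝ) : ℂ) = if m % 3 = 0 then 1 else 0 := by
  unfold t3
  split_ifs <;> norm_num

theorem Wts_and (m m' : ℤ) : (if m % 3 = 0 ∧ m' % 3 = 0 then (1 : ℂ) else 0) =
    (if m % 3 = 0 then 1 else 0) * (if m' % 3 = 0 then 1 else 0) := by
  by_cases h1 : m % 3 = 0 <;> by_cases h2 : m' % 3 = 0 <;> simp [h1, h2]

theorem wt_pt (x : V4) : (cw x.1.1 x.2.1 : ℂ) =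
    (-4 / 3) * ind 1 1 1 0 x + 4 * ind 1 1 1 1 x + 4 * ind 1 1 1 3 x
    + (-24) * ind 0 1 1 0 x + (2 / 3) * ind 1 1 0 0 x + (-2) * ind 1 1 0 1 x
    + (-2) * ind 1 1 0 3 x + 12 * ind 0 1 0 0 x + (2 / 3) * ind 1 0 1 0 x
    + (-2) * ind 1 0 1 1 x + (-2) * ind 1 0 1 3 x + 12 * ind 0 0 1 0 x
    + (-1 / 3) * ind 1 0 0 0 x + 1 * ind 1 0 0 1 x + 1 * ind 1 0 0 3 x
    + (-6) * ind 0 0 0 0 x + 4 * ind 1 3 3 2 x + (-2) * ind 1 3 0 2 x
    + (-2) * ind 1 0 3 2 x + (-4) * ind 1 2 2 2 x + 2 * ind 1 2 0 2 x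
    + 2 * ind 1 0 2 2 x := by
  obtain ⟨⟨m, n⟩, ⟨m', n'⟩⟩ := x
  simp only [Wts_ind, cA, cB, cC, ln, Prod.fst_add, Prod.snd_add, Prod.fst_zero, Prod.snd_zero,
    if_true, Nat.zero_ne_one, if_false, one_ne_zero, zero_ne_one, add_zero, Int.zero_emod,
    and_true, Wts_and]
  have h1 := Wts_sg m n
  have h2 := Wts_sg m' n'
  have h3 := Wts_sg (m + m') (n + n')
  unfold cw
  push_cast
  rw [h1, h2, h3, Wts_t3, Wts_t3, Wts_t3]
  ring

/-- the target functional -/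
noncomputable def TF (c a b d : ℕ) : ℂ := 2 * T2 c a b d - T1 c a b d

theorem Wts_hs (c a b d : ℕ) :
    HasSum (fun x : V4 => ind c a b d x * K13 y0 x) (TF c a b d) := by
  have s1 := ((w_sum k2_sum (ind_le c a b d)).hasSum).mul_left (2 : ℂ)
  have s2 := (w_sum k1_sum (ind_le c a b d)).hasSum
  have h := s1.sub s2
  have e : (fun x : V4 => ind c a b d x * K13 y0 x) = fun x : V4 =>
      2 * (ind c a b d x * k2 (em x.1) (em x.2)) - ind c a b d x * k1 (em x.1) (em x.2) := by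
    funext x
    unfold K13 em
    ring
  rw [e]
  exact h

theorem wt_sum : ∑' x : V4, (cw x.1.1 x.2.1 : ℂ) * K13 y0 x =
    (-4 / 3) * TF 1 1 1 0 + 4 * TF 1 1 1 1 + 4 * TF 1 1 1 3
    + (-24) * TF 0 1 1 0 + (2 / 3) * TF 1 1 0 0 + (-2) * TF 1 1 0 1
    + (-2) * TF 1 1 0 3 + 12 * TF 0 1 0 0 + (2 / 3) * TF 1 0 1 0
    + (-2) * TF 1 0 1 1 + (-2) * TF 1 0 1 3 + 12 * TF 0 0 1 0
    + (-1 / 3) * TF 1 0 0 0 + 1 * TF 1 0 0 1 + 1 * TF 1 0 0 3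
    + (-6) * TF 0 0 0 0 + 4 * TF 1 3 3 2 + (-2) * TF 1 3 0 2
    + (-2) * TF 1 0 3 2 + (-4) * TF 1 2 2 2 + 2 * TF 1 2 0 2
    + 2 * TF 1 0 2 2 := by
  have h :=
    (((((((((((((((((((((((Wts_hs 1 1 1 0).mul_left (-4 / 3 : ℂ)).add
      ((Wts_hs 1 1 1 1).mul_left (4 : ℂ))).add
      ((Wts_hs 1 1 1 3).mul_left (4 : ℂ))).add
      ((Wts_hs 0 1 1 0).mul_left (-24 : ℂ))).add
      ((Wts_hs 1 1 0 0).mul_left (2 / 3 : ℂ))).add
      ((Wts_hs 1 1 0 1).mul_left (-2 : ℂ))).add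
      ((Wts_hs 1 1 0 3).mul_left (-2 : ℂ))).add
      ((Wts_hs 0 1 0 0).mul_left (12 : ℂ))).add
      ((Wts_hs 1 0 1 0).mul_left (2 / 3 : ℂ))).add
      ((Wts_hs 1 0 1 1).mul_left (-2 : ℂ))).add
      ((Wts_hs 1 0 1 3).mul_left (-2 : ℂ))).add
      ((Wts_hs 0 0 1 0).mul_left (12 : ℂ))).add
      ((Wts_hs 1 0 0 0).mul_left (-1 / 3 : ℂ))).add
      ((Wts_hs 1 0 0 1).mul_left (1 : ℂ))).add
      ((Wts_hs 1 0 0 3).mul_left (1 : ℂ))).add
      ((Wts_hs 0 0 0 0).mul_left (-6 : ℂ))).add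
      ((Wts_hs 1 3 3 2).mul_left (4 : ℂ))).add
      ((Wts_hs 1 3 0 2).mul_left (-2 : ℂ))).add
      ((Wts_hs 1 0 3 2).mul_left (-2 : ℂ))).add
      ((Wts_hs 1 2 2 2).mul_left (-4 : ℂ))).add
      ((Wts_hs 1 2 0 2).mul_left (2 : ℂ))).add
      ((Wts_hs 1 0 2 2).mul_left (2 : ℂ)))
  rw [← h.tsum_eq]
  refine tsum_congr fun x => ?_
  rw [wt_pt x]
  ring

end RVS
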