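import Pool.Agent.RVS.S3r
import Pool.Agent.RVS.Wts

/-!
# RVS/RT: the target in the reduced symbols (generated)
-/

set_option autoImplicit false
set_option linter.unusedSimpArgs false
set_option linter.unusedVariables false
set_option linter.unnecessarySeqFocus false
set_option linter.unreachableTactic false
set_option linter.unusedTactic false

open scoped ComplexConjugate

namespace RVS

theorem TF_eq (c a b d : ℕ) : TF c a b d = 3 * TT c a b d 0 1 + TT c a b d 1 0 - TT c a b d 1 1 := by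
  unfold TF TT
  ring

theorem TFv_1_1_1_0 : TF 1 1 1 0 = (-1) * T1 1 1 1 0 + (2) * T2 1 1 1 0 := by
  rw [TF_eq]
  simp only [TT]
  ring

theorem TFv_1_1_1_1 : TF 1 1 1 1 = (-1) * T1 1 1 1 1 + (2) * T2 1 1 1 1 := by
  rw [TF_eq]
  simp only [TT]
  ring

theorem TFv_1_1_1_3 : TF 1 1 1 3 = (-1) * T1 1 1 1 2 := by
  rw [TF_eq]
  simp only [S_1_1_1_3]
  simp only [TT]
  ring

theorem TFv_0_1_1_0 : TF 0 1 1 0 = (-1) * T1 0 1 1 0 + (2) * T2 0 1 1 0 := by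
  rw [TF_eq]
  simp only [TT]
  ring

theorem TFv_1_1_0_0 : TF 1 1 0 0 = (-1) * T1 1 1 0 0 + (2) * T2 1 1 0 0 := by
  rw [TF_eq]
  simp only [TT]
  ring

theorem TFv_1_1_0_1 : TF 1 1 0 1 = (-1) * T1 1 1 0 1 + (2) * T2 1 1 0 1 := by
  rw [TF_eq]
  simp only [TT]
  ring

theorem TFv_1_1_0_3 : TF 1 1 0 3 = (-1) * T1 1 1 0 2 := by
  rw [TF_eq]
  simp only [S_1_1_0_3]
  simp only [TT]
  ring

theorem TFv_0_1_0_0 : TF 0 1 0 0 = (-1) * T1 0 1 0 0 + (2) * T2 0 1 0 0 := by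
  rw [TF_eq]
  simp only [TT]
  ring

theorem TFv_1_0_1_0 : TF 1 0 1 0 = (-1) * T1 1 0 1 0 + (2) * T2 1 0 1 0 := by
  rw [TF_eq]
  simp only [TT]
  ring

theorem TFv_1_0_1_1 : TF 1 0 1 1 = (-1) * T1 1 0 1 1 + (2) * T2 1 0 1 1 := by
  rw [TF_eq]
  simp only [TT]
  ring

theorem TFv_1_0_1_3 : TF 1 0 1 3 = (-1) * T1 1 0 1 2 := by
  rw [TF_eq]
  simp only [S_1_0_1_3]
  simp only [TT]
  ring

theorem TFv_0_0_1_0 : TF 0 0 1 0 = (-1) * T1 0 0 1 0 + (2) * T2 0 0 1 0 := by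
  rw [TF_eq]
  simp only [TT]
  ring

theorem TFv_1_0_0_0 : TF 1 0 0 0 = (-1) * T1 1 0 0 0 + (2) * T2 1 0 0 0 := by
  rw [TF_eq]
  simp only [TT]
  ring

theorem TFv_1_0_0_1 : TF 1 0 0 1 = (-1) * T1 1 0 0 1 + (2) * T2 1 0 0 1 := by
  rw [TF_eq]
  simp only [TT]
  ring

theorem TFv_1_0_0_3 : TF 1 0 0 3 = (1) * T1 1 0 0 1 := by
  rw [TF_eq]
  simp only [S_1_0_0_3]
  simp only [TT]
  ring

theorem TFv_0_0_0_0 : TF 0 0 0 0 = (-1) * T1 0 0 0 0 + (2) * T2 0 0 0 0 := by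
  rw [TF_eq]
  simp only [TT]
  ring

theorem TFv_1_3_3_2 : TF 1 3 3 2 = (1) * T1 1 1 1 2 + (-2) * T2 1 1 1 2 := by
  rw [TF_eq]
  simp only [S_1_3_3_2]
  simp only [TT]
  ring

theorem TFv_1_3_0_2 : TF 1 3 0 2 = (1) * T1 1 1 0 2 + (-2) * T2 1 1 0 2 := by
  rw [TF_eq]
  simp only [S_1_3_0_2]
  simp only [TT]
  ring

theorem TFv_1_0_3_2 : TF 1 0 3 2 = (1) * T1 1 0 1 2 + (-2) * T2 1 0 1 2 := by
  rw [TF_eq]
  simp only [S_1_0_3_2]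
  simp only [TT]
  ring

theorem TFv_1_2_2_2 : TF 1 2 2 2 = (-2) * T0 1 1 1 1 + (1) * T1 1 1 1 1 := by
  rw [TF_eq]
  simp only [S_1_2_2_2]
  simp only [TT]
  ring

theorem TFv_1_2_0_2 : TF 1 2 0 2 = (-2) * T0 1 1 0 1 + (1) * T1 1 1 0 1 := by
  rw [TF_eq]
  simp only [S_1_2_0_2]
  simp only [TT]
  ring

theorem TFv_1_0_2_2 : TF 1 0 2 2 = (-2) * T0 1 0 1 1 + (1) * T1 1 0 1 1 := by
  rw [TF_eq]
  simp only [S_1_0_2_2]
  simp only [TT]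
  ring

end RVS
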