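import Pool.Agent.RVS.RH
import Pool.Agent.RVS.RS
import Pool.Agent.RVS.RT
import Pool.Agent.RVS.R2
import Pool.Agent.RVS.R3
import Pool.Agent.RVS.R5
import Pool.Agent.RVS.R6
import Pool.Agent.RVS.R9
import Pool.Agent.RVS.R20
import Pool.Agent.RVS.R21
import Pool.Agent.RVS.R22

/-!
# RVS/Fin: the certificate (generated)
-/

set_option autoImplicit false
set_option linter.unusedSimpArgs false
set_option linter.unusedVariables false
set_option linter.unnecessarySeqFocus false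
set_option linter.unreachableTactic false
set_option linter.unusedTactic false

open scoped ComplexConjugate

namespace RVS

theorem fin :
    (-4 / 3) * TF 1 1 1 0 + 4 * TF 1 1 1 1 + 4 * TF 1 1 1 3
    + (-24) * TF 0 1 1 0 + (2 / 3) * TF 1 1 0 0 + (-2) * TF 1 1 0 1
    + (-2) * TF 1 1 0 3 + 12 * TF 0 1 0 0 + (2 / 3) * TF 1 0 1 0
    + (-2) * TF 1 0 1 1 + (-2) * TF 1 0 1 3 + 12 * TF 0 0 1 0
    + (-1 / 3) * TF 1 0 0 0 + 1 * TF 1 0 0 1 + 1 * TF 1 0 0 3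
    + (-6) * TF 0 0 0 0 + 4 * TF 1 3 3 2 + (-2) * TF 1 3 0 2
    + (-2) * TF 1 0 3 2 + (-4) * TF 1 2 2 2 + 2 * TF 1 2 0 2
    + 2 * TF 1 0 2 2 =
      -45 * LamO + 5 / 3 * LamM := by
  rw [TFv_1_1_1_0, TFv_1_1_1_1, TFv_1_1_1_3, TFv_0_1_1_0, TFv_1_1_0_0, TFv_1_1_0_1, TFv_1_1_0_3, TFv_0_1_0_0, TFv_1_0_1_0, TFv_1_0_1_1, TFv_1_0_1_3, TFv_0_0_1_0, TFv_1_0_0_0, TFv_1_0_0_1, TFv_1_0_0_3, TFv_0_0_0_0, TFv_1_3_3_2, TFv_1_3_0_2, TFv_1_0_3_2, TFv_1_2_2_2, TFv_1_2_0_2, TFv_1_0_2_2]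
  linear_combination (-5184 / 175 - 10368 / 175 * tau) * H0_0
    + (-4968 / 175 - 9936 / 175 * tau) * H0_1
    + (432 / 35 + 864 / 35 * tau) * H0_2
    + (-1152 / 175 + 496 / 175 * tau) * H10_0
    + (-1776 / 175 - 752 / 175 * tau) * H10_1
    + (592 / 175 - 216 / 175 * tau) * H10_2
    + (54 + 81 * tau) * H11_0
    + (-1728 / 25 + 1944 / 25 * tau) * H12_0
    + (3672 / 25 + 1944 / 25 * tau) * H12_1
    + (-648 / 25 - 1296 / 25 * tau) * H12_2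
    + (312 / 175 - 7776 / 175 * tau) * H1_0
    + (544 / 525 - 104 / 175 * tau) * H2_0
    + (8088 / 175 + 7776 / 175 * tau) * H3_0
    + (4) * H4_0
    + (856 / 525 + 104 / 175 * tau) * H5_0
    + (-8) * H6_0
    + (1152 / 175 - 496 / 175 * tau) * H7_0
    + (376 / 175 + 752 / 175 * tau) * H7_1
    + (-592 / 175 + 216 / 175 * tau) * H7_2
    + (-4) * H8_0
    + (5184 / 175 + 10368 / 175 * tau) * H9_0
    + (4968 / 175 + 9936 / 175 * tau) * H9_1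
    + (-432 / 35 - 864 / 35 * tau) * H9_2
    + (1452 / 175 + 6294 / 175 * tau) * R20_0
    + (-2082 / 175 + 633 / 25 * tau) * R20_1
    + (-678 / 35 * tau) * R20_2
    + (494 / 525 + 148 / 525 * tau) * R21_0
    + (233 / 175 + 898 / 525 * tau) * R21_1
    + (-1039 / 1575 - 82 / 175 * tau) * R21_2
    + (-1126 / 1575 - 116 / 225 * tau) * R22_0
    + (-16 / 21 - 349 / 315 * tau) * R22_1
    + (131 / 315 + 131 / 315 * tau) * R22_2
    + (2228 / 525 - 59 / 25 * tau) * R2_0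
    + (2216 / 525 - 58 / 25 * tau) * R2_1
    + (-52 / 21 + 6 / 5 * tau) * R2_2
    + (582 / 175 - 6 / 175 * tau) * R3_0
    + (3138 / 175 + 2406 / 175 * tau) * R3_1
    + (-1056 / 175 - 852 / 175 * tau) * R3_2
    + (84 / 25 + 6 / 175 * tau) * R5_0
    + (732 / 175 - 2406 / 175 * tau) * R5_1
    + (-204 / 175 + 852 / 175 * tau) * R5_2
    + (-3746 / 525 - 654 / 175 * tau) * R6_0
    + (-1592 / 525 + 732 / 175 * tau) * R6_1
    + (236 / 105 - 54 / 35 * tau) * R6_2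
    + (-1566 / 25 - 8262 / 25 * tau) * R9_0
    + (3024 / 25 - 4212 / 25 * tau) * R9_1
    + (-1188 / 25 + 2754 / 25 * tau) * R9_2
    + (-42) * S0000_12_0
    + (9) * S0000_12_2
    + (12) * S0000_23_0
    + (-1161 / 175 - 9369 / 350 * tau) * S0001_23_0
    + (108 / 175 + 216 / 175 * tau) * S0001_23_1
    + (-234 / 175 - 2538 / 175 * tau) * S0010_23_0
    + (1254 / 175 - 612 / 175 * tau) * S0010_23_1
    + (2304 / 175 + 2538 / 175 * tau) * S0100_23_0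
    + (1866 / 175 + 612 / 175 * tau) * S0100_23_1
    + (-24) * S0110_23_0
    + (-12) * S0110_23_1
    + (-778 / 175 - 2398 / 525 * tau) * S1000_12_0
    + (3229 / 3150 + 166 / 175 * tau) * S1000_12_2
    + (37 / 35 + 10 / 7 * tau) * S1000_23_0
    + (-83 / 175 - 157 / 350 * tau) * S1001_23_0
    + (192 / 175 + 34 / 175 * tau) * S1001_23_1
    + (2057 / 1575 + 313 / 525 * tau) * S1010_23_0
    + (10 / 63 - 8 / 105 * tau) * S1010_23_1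
    + (-4) * S1011_23_0
    + (1118 / 1575 - 313 / 525 * tau) * S1100_23_0
    + (74 / 315 + 8 / 105 * tau) * S1100_23_1
    + (-4) * S1101_23_0
    + (-4 / 3) * S1110_23_0
    + (-2 / 3) * S1110_23_1
    + (8) * S1111_23_0
    - ((-28107 / 1400) * T0 0 0 0 1 + (-21141 / 700) * T1 0 0 0 1 + (-1467 / 140) * T0 0 0 1 0 + (1017 / 35) * T1 0 0 1 0 + (324 / 25) * T0 0 0 1 2 + (62613 / 175) * T1 0 0 1 2 + (-47223 / 175) * T2 0 0 1 2 + (-1053 / 175) * T0 0 1 0 0 + (2673 / 5) * T0 0 1 0 2 + (-132759 / 175) * T1 0 1 0 2 + (148797 / 350) * T2 0 1 0 2 + (9072 / 25) * T0 0 1 2 0 + (28404 / 175) * T1 0 1 2 0 + (-56592 / 175) * T2 0 1 2 0 + (-46332 / 175) * T0 0 1 2 1 + (15552 / 175) * T1 0 1 2 1 + (15228 / 175) * T2 0 1 2 1 + (-15228 / 175) * T0 0 1 2 2 + (-15552 / 175) * T1 0 1 2 2 + (46332 / 175) * T2 0 1 2 2 + (486 / 25) * T0 0 1 2 3 + (-26892 / 175) * T1 0 1 2 3 + (50382 / 175)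 * T2 0 1 2 3 + (-2187 / 50) * T0 0 1 2 4 + (2187 / 50) * T2 0 1 2 4 + (-138 / 175) * T0 1 0 0 1 + (249 / 350) * T1 1 0 0 1 + (122 / 105) * T0 1 0 1 0 + (37 / 150) * T2 1 0 1 0 + (3 / 5) * T0 1 0 1 2 + (-81 / 175) * T1 1 0 1 2 + (-363 / 175) * T2 1 0 1 2 + (371 / 300) * T0 1 1 0 0 + (-131 / 210) * T1 1 1 0 0 + (37 / 150) * T2 1 1 0 0 + (12 / 25) * T0 1 1 0 2 + (-12 / 35) * T1 1 1 0 2 + (78 / 175) * T2 1 1 0 2 + (668 / 175) * T0 1 1 2 0 + (128 / 175) * T1 1 1 2 0 + (-33 / 25) * T2 1 1 2 0 + (501 / 25) * T0 1 1 2 1 + (-3816 / 175) * T1 1 1 2 1 + (267 / 10) * T2 1 1 2 1 + (-267 / 10) * T0 1 1 2 2 + (3816 / 175) * T1 1 1 2 2 + (-501 / 25) * T2 1 1 2 2 + (1242 / 175) * T0 1 1 2 3 + (-1566 / 175) * T1 1 1 2 3 + (54 / 5) * T2 1 1 2 3 + (8683 / 1680) * LamM + (-58113 / 2240) * LamO) * tau_sq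

end RVS
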