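import Pool.Agent.RVS.Defs

/-!
# RVS/Ker: algebra of the canonical kernel
-/

set_option autoImplicit false

open scoped ComplexConjugate

namespace RVS

theorem y0_pos : 0 < y0 := by unfold y0; positivity

theorem em_eq (v : ℤ × ℤ) : em v = v.1 * tau + v.2 := by
  apply Complex.ext
  · simp [em, tau, RVP.pt]; ring
  · simp [em, tau, RVP.pt]

theorem tau_sq : tau ^ 2 + tau + 2 / 3 = 0 := by
  have h : y0 * y0 = 15 / 36 := by
    have h1 : Real.sqrt 15 * Real.sqrt 15 = 15 := Real.mul_self_sqrt (by norm_num)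
    unfold y0
    nlinarith
  apply Complex.ext
  · simp [em, tau, RVP.pt, pow_two]; nlinarith
  · simp [em, tau, RVP.pt, pow_two]; ring

theorem conj_tau : conj tau = -1 - tau := by
  apply Complex.ext
  · simp [em, tau, RVP.pt]; ring
  · simp [em, tau, RVP.pt]

theorem em_zero {v : ℤ × ℤ} : em v = 0 ↔ v = 0 := RVP.pt_eq_zero y0_pos

theorem em_add (v w : ℤ × ℤ) : em (v + w) = em v + em w := RVP.pt_add y0 v w

theorem em_neg (v : ℤ × ℤ) : em (-v) = -em v := RVP.pt_neg y0 v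

theorem KS_eq (p q P Q : ℂ) : KS p q P Q = P ^ 2 * k0 p q + P * Q * k1 p q + Q ^ 2 * k2 p q := by
  unfold KS h2 k0 k1 k2
  ring

theorem SS_scale (ρ p q : ℂ) : SS (ρ * p) (ρ * q) = (ρ⁻¹ * (conj ρ)⁻¹) ^ 2 * SS p q := by
  by_cases h : ρ = 0
  · subst h; simp [SS]
  · have h' : conj ρ ≠ 0 := by simpa using h
    have e : ρ * p + ρ * q = ρ * (p + q) := by ring
    unfold SS
    rw [e, map_mul, map_mul, map_mul, mul_inv, mul_inv, mul_inv, mul_inv, mul_inv, mul_inv]
    field_simp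

theorem KS_scale (ρ p q P Q : ℂ) : KS (ρ * p) (ρ * q) P Q = KL ρ * KS p q P Q := by
  have e : ρ * p + ρ * q = ρ * (p + q) := by ring
  unfold KS
  rw [SS_scale, e, mul_inv, mul_inv, mul_inv]
  unfold KL h2
  ring

theorem KS_zero1 (q P Q : ℂ) : KS 0 q P Q = 0 := by simp [KS, SS]

theorem KS_zero2 (p P Q : ℂ) : KS p 0 P Q = 0 := by simp [KS, SS]

theorem KS_zero3 {p q : ℂ} (h : p + q = 0) (P Q : ℂ) : KS p q P Q = 0 := by simp [KS, SS, h]

theorem KS_swap (p q P Q : ℂ) : KS q p Q P = -KS p q P Q := by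
  unfold KS SS h2
  rw [add_comm q p, add_comm Q P]
  ring

theorem KS_neg (p q P Q : ℂ) : KS (-p) (-q) P Q = KS p q P Q := by
  have h := KS_scale (-1) p q P Q
  simp only [neg_mul, one_mul] at h
  rw [h]
  norm_num [KL]

theorem KS_rot (p q P Q : ℂ) : KS p (-(p + q)) P (-(P + Q)) = -KS p q P Q := by
  have e1 : p + -(p + q) = -q := by ring
  have e2 : P + -(P + Q) = -Q := by ring
  unfold KS SS h2
  rw [e1, e2]
  simp only [map_add, map_neg, inv_neg]
  ring

theorem four_aux {l p q l' p' q' x1 x2 x3 x4 : ℂ}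
    (h3 : (p + q) * x3 = p * x1 + q * x2) (h4 : (l * p + q) * x4 = l * p * x1 + q * x2) :
    (p' * q - p * q') * ((l * p + q) * (l' * p' + q')) * h2 x1 x2 x3
      - (l' * p' * q - l * p * q') * ((p + q) * (p' + q')) * h2 x1 x2 x4
      + ((1 - l) * p * (p' + q') - (1 - l') * p' * (p + q)) * (q * q') * h2 x1 x3 x4
      - (l * (1 - l') * q' * (p + q) - l' * (1 - l) * q * (p' + q')) * (p * p') * h2 x2 x3 x4 = 0 := by
  unfold h2
  linear_combination ((x1 + x2 + x3 + x4) * ((l' * p' * q - l * p * q') * (p' + q'))) * h3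
    - ((x1 + x2 + x3 + x4) * ((p' * q - p * q') * (l' * p' + q'))) * h4

/-- the four-line relation, lines `p`, `q`, `p + q`, `lam p + q` -/
theorem four {lam p q : ℂ} (h0 : lam ≠ 0) (h1 : 1 - lam ≠ 0) (hp : p ≠ 0) (hq : q ≠ 0)
    (hr : p + q ≠ 0) (hs : lam * p + q ≠ 0) (P Q : ℂ) :
    KS p q P Q - lam * conj lam * KS (lam * p) q (lam * P) Q
      + (1 - lam) * conj (1 - lam) * KS ((1 - lam) * p) (-(p + q)) ((1 - lam) * P) (-(P + Q))
      - lam * conj lam * ((1 - lam) * conj (1 - lam)) *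
        KS ((1 - lam) * q) (lam * (p + q)) ((1 - lam) * Q) (lam * (P + Q)) = 0 := by
  have h0' : conj lam ≠ 0 := (map_ne_zero (starRingEnd ℂ)).mpr h0
  have h1' : 1 - conj lam ≠ 0 := by
    have : conj (1 - lam) ≠ 0 := (map_ne_zero (starRingEnd ℂ)).mpr h1
    rwa [map_sub, map_one] at this
  have hp' : conj p ≠ 0 := (map_ne_zero (starRingEnd ℂ)).mpr hp
  have hq' : conj q ≠ 0 := (map_ne_zero (starRingEnd ℂ)).mpr hq
  have hr' : conj p + conj q ≠ 0 := by
    have : conj (p + q) ≠ 0 := (map_ne_zero (starRingEnd ℂ)).mpr hr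
    rwa [map_add] at this
  have hs' : conj lam * conj p + conj q ≠ 0 := by
    have : conj (lam * p + q) ≠ 0 := (map_ne_zero (starRingEnd ℂ)).mpr hs
    rwa [map_add, map_mul] at this
  have e3 : (1 - lam) * p + -(p + q) = -(lam * p + q) := by ring
  have e4 : (1 - lam) * q + lam * (p + q) = lam * p + q := by ring
  have E3 : (1 - lam) * P + -(P + Q) = -(lam * P + Q) := by ring
  have E4 : (1 - lam) * Q + lam * (P + Q) = lam * P + Q := by ring
  have x1 : (lam * P) * (lam * p)⁻¹ = P * p⁻¹ := by field_simp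
  have x2 : ((1 - lam) * P) * ((1 - lam) * p)⁻¹ = P * p⁻¹ := by field_simp
  have x3 : (-(P + Q)) * (-(p + q))⁻¹ = (P + Q) * (p + q)⁻¹ := by rw [inv_neg]; ring
  have x4 : (-(lam * P + Q)) * (-(lam * p + q))⁻¹ = (lam * P + Q) * (lam * p + q)⁻¹ := by
    rw [inv_neg]; ring
  have x5 : ((1 - lam) * Q) * ((1 - lam) * q)⁻¹ = Q * q⁻¹ := by field_simp
  have x6 : (lam * (P + Q)) * (lam * (p + q))⁻¹ = (P + Q) * (p + q)⁻¹ := by field_simp
  have hx := four_aux (l := lam) (p := p) (q := q) (l' := conj lam) (p' := conj p) (q' := conj q)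
    (x1 := P * p⁻¹) (x2 := Q * q⁻¹) (x3 := (P + Q) * (p + q)⁻¹)
    (x4 := (lam * P + Q) * (lam * p + q)⁻¹) (by field_simp) (by field_simp)
  unfold KS SS
  rw [e3, e4, E3, E4, x1, x2, x3, x4, x5, x6]
  simp only [map_add, map_mul, map_sub, map_neg, map_one]
  generalize conj lam = l' at *
  generalize conj p = p' at *
  generalize conj q = q' at *
  generalize h2 (P * p⁻¹) (Q * q⁻¹) ((P + Q) * (p + q)⁻¹) = H1 at *
  generalize h2 (P * p⁻¹) (Q * q⁻¹) ((lam * P + Q) * (lam * p + q)⁻¹) = H2 at *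
  generalize h2 (P * p⁻¹) ((P + Q) * (p + q)⁻¹) ((lam * P + Q) * (lam * p + q)⁻¹) = H3 at *
  generalize h2 (Q * q⁻¹) ((P + Q) * (p + q)⁻¹) ((lam * P + Q) * (lam * p + q)⁻¹) = H4 at *
  have ha : (p⁻¹ * p'⁻¹) * (p * p') = 1 := by field_simp
  have hb : (q⁻¹ * q'⁻¹) * (q * q') = 1 := by field_simp
  have hc : ((p + q)⁻¹ * (p' + q')⁻¹) * ((p + q) * (p' + q')) = 1 := by
    rw [mul_mul_mul_comm, inv_mul_cancel₀ hr, inv_mul_cancel₀ hr', one_mul]
  have hd : ((lam * p + q)⁻¹ * (l' * p' + q')⁻¹) * ((lam * p + q) * (l' * p' + q')) = 1 := by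
    rw [mul_mul_mul_comm, inv_mul_cancel₀ hs, inv_mul_cancel₀ hs', one_mul]
  have hl : lam * l' * (lam⁻¹ * l'⁻¹) = 1 := by field_simp
  have hm : (1 - lam) * (1 - l') * ((1 - lam)⁻¹ * (1 - l')⁻¹) = 1 := by field_simp
  simp only [mul_inv, inv_neg]
  generalize p⁻¹ = ip at *
  generalize p'⁻¹ = ip' at *
  generalize q⁻¹ = iq at *
  generalize q'⁻¹ = iq' at *
  generalize (p + q)⁻¹ = ir at *
  generalize (p' + q')⁻¹ = ir' at *
  generalize (lam * p + q)⁻¹ = is at *
  generalize (l' * p' + q')⁻¹ = is' at *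
  generalize lam⁻¹ = il at *
  generalize l'⁻¹ = il' at *
  generalize (1 - lam)⁻¹ = im at *
  generalize (1 - l')⁻¹ = im' at *
  linear_combination ((ip * ip') * (iq * iq') * (ir * ir') * (is * is')) * hx - ((p' * q - p * q') * (ip * ip') * (iq * iq') * (ir * ir') * H1) * hd
    - ((l' * p' * q - lam * p * q') * (ip * ip') * (iq * iq') * (is * is') * H2) * hl + ((l' * p' * q - lam * p * q') * (ip * ip') * (iq * iq') * (is * is') * H2) * hc
    + (((1 - lam) * p * (p' + q') - (1 - l') * p' * (p + q)) * (ip * ip') * (ir * ir') * (is * is') * H3) * hm - (((1 - lam) * p * (p' + q') - (1 - l') * p' * (p + q)) * (ip * ip') * (ir * ir') * (is * is') * H3) * hb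
    - ((lam * (1 - l') * q' * (p + q) - l' * (1 - lam) * q * (p' + q')) * (iq * iq') * (ir * ir') * (is * is') * H4 * ((1 - lam) * (1 - l') * (im * im'))) * hl
    - ((lam * (1 - l') * q' * (p + q) - l' * (1 - lam) * q * (p' + q')) * (iq * iq') * (ir * ir') * (is * is') * H4) * hm + ((lam * (1 - l') * q' * (p + q) - l' * (1 - lam) * q * (p' + q')) * (iq * iq') * (ir * ir') * (is * is') * H4) * ha

end RVS
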