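import Pool.Agent.RVS.LinkJ1
import Pool.Agent.RVP.GG

/-!
# RVS/LinkJ2: the last term is a multiple of `G`

`RVP.tsum_blocks`, `RVP.blocks_summable` with `LinkJ1.KJ_summable`, `KJ_block`.  The contact terms `c(0,j) X42(j)`,
`-c(-j,j) X42(j)` (`cw_neg`: `c(-j,j) = c(j,-j)`) are absolutely summable (`X_summable`) and give
`Σ_v (c(0,m) - c(m,-m)) K1 v`.  The rest: for fixed `j`, `Σ_i c(i,j) (X11(i) - X11(i+j)) = (1/6) ψ(j) G` (`J_row`): limit of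
symmetric partial sums (`RVP.hasSum_Icc`), `RVP.sum_shift_tendsto` for `g i = c(i-j,j) X11(i)` (tends to `0` by `X11_tendsto`,
`cw_abs`), so it is the limit of `Σ_{|i| ≤ N} (c(i,j) - c(i-j,j)) X11(i)`; `X11` is even (`RVP` row parity), symmetrise `i ↦ -i`,
`RVP.wt_psi`, `RVP.G_tendsto`.
-/

set_option autoImplicit false

open scoped ComplexConjugate
open Filter Topology

namespace RVS

open RVP

variable {y : ℝ}

private theorem LJ2_cw_norm (a b : ℤ) : ‖(cw a b : ℂ)‖ ≤ 20 := by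
  rw [Complex.norm_real, Real.norm_eq_abs]
  exact cw_abs a b

private theorem LJ2_X11_neg (y : ℝ) (i : ℤ) : X y 1 1 (-i) = X y 1 1 i := by
  rw [X_neg]
  norm_num

private theorem LJ2_refl (f : ℤ → ℂ) (N : ℕ) :
    ∑ i ∈ Finset.Icc (-(N : ℤ)) N, f (-i) = ∑ i ∈ Finset.Icc (-(N : ℤ)) N, f i := by
  refine Finset.sum_nbij' (fun i => -i) (fun i => -i) ?_ ?_ ?_ ?_ ?_
  · intro i hi
    simp only [Finset.mem_Icc] at hi ⊢
    omega
  · intro i hi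
    simp only [Finset.mem_Icc] at hi ⊢
    omega
  · intro i _
    simp
  · intro i _
    simp
  · intro i _
    simp

private theorem LJ2_sym (y : ℝ) (j : ℤ) (N : ℕ) :
    ∑ i ∈ Finset.Icc (-(N : ℤ)) N, ((cw i j : ℂ) - (cw (i - j) j : ℂ)) * X y 1 1 i =
      1 / 6 * (ps j : ℂ) * ∑ i ∈ Finset.Icc (-(N : ℤ)) N, (ph i : ℂ) * X y 1 1 i := by
  have h1 := LJ2_refl (fun i => ((cw i j : ℂ) - (cw (i - j) j : ℂ)) * X y 1 1 i) N
  have h2 : ∑ i ∈ Finset.Icc (-(N : ℤ)) N, ((cw i j : ℂ) - (cw (i - j) j : ℂ)) * X y 1 1 i =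
      1 / 2 * (∑ i ∈ Finset.Icc (-(N : ℤ)) N, ((cw i j : ℂ) - (cw (i - j) j : ℂ)) * X y 1 1 i +
        ∑ i ∈ Finset.Icc (-(N : ℤ)) N,
          ((cw (-i) j : ℂ) - (cw (-i - j) j : ℂ)) * X y 1 1 (-i)) := by
    rw [h1]
    ring
  rw [h2, ← Finset.sum_add_distrib, Finset.mul_sum, Finset.mul_sum]
  refine Finset.sum_congr rfl fun i _ => ?_
  rw [LJ2_X11_neg]
  have h3 := wt_psi i j
  have h4 : (((cw (i - j) j - cw i j) + (cw (-i - j) j - cw (-i) j) : ℝ) : ℂ) =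
      ((-(1 / 3) * ps j * ph i : ℝ) : ℂ) := by rw [h3]
  push_cast at h4
  linear_combination (-(1 / 2) * X y 1 1 i) * h4

theorem J_row (hy : 0 < y) (j : ℤ)
    (hs : Summable fun i : ℤ => (cw i j : ℂ) * (X y 1 1 i - X y 1 1 (i + j))) :
    ∑' i : ℤ, (cw i j : ℂ) * (X y 1 1 i - X y 1 1 (i + j)) = 1 / 6 * (ps j : ℂ) * G y := by
  have hg : Tendsto (fun i : ℤ => (cw (i - j) j : ℂ) * X y 1 1 i) cofinite (𝓝 0) := by
    have h0 := (X11_tendsto hy).norm.const_mul 20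
    rw [norm_zero, mul_zero] at h0
    refine squeeze_zero_norm (fun i => ?_) h0
    rw [norm_mul]
    exact mul_le_mul_of_nonneg_right (LJ2_cw_norm _ _) (norm_nonneg _)
  have h1 := hasSum_Icc hs.hasSum
  have h2 := sum_shift_tendsto hg j
  have h3 := ((G_tendsto hy).const_mul (1 / 6 * (ps j : ℂ))).sub h2
  rw [sub_zero] at h3
  refine tendsto_nhds_unique h1 (h3.congr fun N => ?_)
  rw [← LJ2_sym, ← Finset.sum_sub_distrib]
  refine Finset.sum_congr rfl fun i _ => ?_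
  rw [add_sub_cancel_right]
  ring

/-- the contact terms -/
private noncomputable def LJ2_c1 (y : ℝ) (w : ℤ × ℤ) : ℂ :=
  (cw w.1 w.2 : ℂ) * (if w.1 = 0 then X y 4 2 w.2 else 0)

private noncomputable def LJ2_c2 (y : ℝ) (w : ℤ × ℤ) : ℂ :=
  (cw w.1 w.2 : ℂ) * (if w.1 + w.2 = 0 then X y 4 2 w.2 else 0)

private noncomputable def LJ2_mn (y : ℝ) (w : ℤ × ℤ) : ℂ :=
  (cw w.1 w.2 : ℂ) * (X y 3 1 w.2 * (X y 1 1 w.1 - X y 1 1 (w.1 + w.2)))

private theorem LJ2_row (hy : 0 < y) (f : ℤ → ℝ) (hf : ∀ m, |f m| ≤ 20) :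
    Summable fun m : ℤ => (f m : ℂ) * X y 4 2 m := by
  refine Summable.of_norm_bounded ((X_summable (a := 4) (b := 2) hy (by norm_num)).mul_left 20)
    fun m => ?_
  rw [norm_mul, Complex.norm_real, Real.norm_eq_abs]
  exact mul_le_mul_of_nonneg_right (hf m) (norm_nonneg _)

private theorem LJ2_inj1 : Function.Injective fun m : ℤ => ((0, m) : ℤ × ℤ) := by
  intro a b h
  simpa using h

private theorem LJ2_inj2 : Function.Injective fun m : ℤ => ((-m, m) : ℤ × ℤ) := by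
  intro a b h
  simpa using h

private theorem LJ2_has1 (hy : 0 < y) :
    HasSum (LJ2_c1 y) (∑' m : ℤ, (cw 0 m : ℂ) * X y 4 2 m) := by
  have h := (LJ2_row hy (fun m => cw 0 m) fun m => cw_abs _ _).hasSum
  rw [← LJ2_inj1.hasSum_iff (f := LJ2_c1 y)]
  · convert h using 1
    funext m
    simp [LJ2_c1]
  · intro w hw
    unfold LJ2_c1
    rw [if_neg, mul_zero]
    intro h0
    exact hw ⟨w.2, by rw [← h0]⟩

private theorem LJ2_has2 (hy : 0 < y) :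
    HasSum (LJ2_c2 y) (∑' m : ℤ, (cw m (-m) : ℂ) * X y 4 2 m) := by
  have h := (LJ2_row hy (fun m => cw m (-m)) fun m => cw_abs _ _).hasSum
  rw [← LJ2_inj2.hasSum_iff (f := LJ2_c2 y)]
  · convert h using 1
    funext m
    have h1 := cw_neg m (-m)
    rw [neg_neg] at h1
    simp [LJ2_c2, h1]
  · intro w hw
    unfold LJ2_c2
    rw [if_neg, mul_zero]
    intro h0
    refine hw ⟨w.2, ?_⟩
    have h1 : -w.2 = w.1 := by omega
    show (-w.2, w.2) = w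
    rw [h1]

private theorem LJ2_block (hy : 0 < y) (w : ℤ × ℤ) :
    ∑' z : ℤ × ℤ, (cw w.1 w.2 : ℂ) *
      (nz (w.1, z.1) * nz (w.1 + w.2, z.1 + z.2) * KJ y ((w.1, z.1), (w.2, z.2))) =
      LJ2_mn y w + LJ2_c1 y w - LJ2_c2 y w := by
  rw [tsum_mul_left, KJ_block hy]
  unfold LJ2_mn LJ2_c1 LJ2_c2
  ring

private theorem LJ2_mn_summable (hy : 0 < y) : Summable (LJ2_mn y) := by
  have h := blocks_summable (KJ_summable hy)
  have h1 : Summable fun w : ℤ × ℤ => LJ2_mn y w + LJ2_c1 y w - LJ2_c2 y w :=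
    h.congr fun w => LJ2_block hy w
  refine ((h1.sub (LJ2_has1 hy).summable).add (LJ2_has2 hy).summable).congr fun w => ?_
  ring

private theorem LJ2_mn_tsum (hy : 0 < y) : ∑' w, LJ2_mn y w = 1 / 6 * (W y 3 1 * G y) := by
  have h := LJ2_mn_summable hy
  have h1 : Summable fun w : ℤ × ℤ => LJ2_mn y (w.2, w.1) :=
    (Equiv.prodComm ℤ ℤ).summable_iff.mpr h
  have h2 : ∑' w, LJ2_mn y w = ∑' w : ℤ × ℤ, LJ2_mn y (w.2, w.1) :=
    ((Equiv.prodComm ℤ ℤ).tsum_eq (LJ2_mn y)).symm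
  rw [h2, h1.tsum_prod]
  have h3 : ∀ j : ℤ, ∑' i : ℤ, LJ2_mn y (i, j) = 1 / 6 * G y * ((ps j : ℂ) * X y 3 1 j) := by
    intro j
    have h4 : ∀ i : ℤ, LJ2_mn y (i, j) =
        X y 3 1 j * ((cw i j : ℂ) * (X y 1 1 i - X y 1 1 (i + j))) := by
      intro i
      unfold LJ2_mn
      ring
    have h5 : Summable fun i : ℤ => LJ2_mn y (i, j) := h1.prod_factor j
    simp only [h4] at h5 ⊢
    by_cases hX : X y 3 1 j = 0
    · simp [hX]
    · rw [tsum_mul_left, J_row hy j ((summable_mul_left_iff hX).mp h5)]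
      ring
  show ∑' j : ℤ, ∑' i : ℤ, LJ2_mn y (i, j) = _
  simp only [h3]
  rw [tsum_mul_left]
  unfold W
  ring

theorem KJ_sum (hy : 0 < y) :
    ∑' x : V4, (cw x.1.1 x.2.1 : ℂ) * (nz x.1 * nz (x.1 + x.2) * KJ y x) =
      1 / 6 * (W y 3 1 * G y) + ∑' v : ℤ × ℤ, ((cw 0 v.1 - cw v.1 (-v.1) : ℝ) : ℂ) * K1 y v := by
  have h1 := tsum_blocks (KJ_summable hy)
  have h2 : ∑' w : ℤ × ℤ, ∑' z : ℤ × ℤ, (cw w.1 w.2 : ℂ) *
      (nz (w.1, z.1) * nz (w.1 + w.2, z.1 + z.2) * KJ y ((w.1, z.1), (w.2, z.2))) =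
      ∑' w : ℤ × ℤ, (LJ2_mn y w + LJ2_c1 y w - LJ2_c2 y w) := by
    refine tsum_congr fun w => ?_
    exact LJ2_block hy w
  have h3 : ∑' v : ℤ × ℤ, ((cw 0 v.1 - cw v.1 (-v.1) : ℝ) : ℂ) * K1 y v =
      ∑' m : ℤ, (((cw 0 m - cw m (-m) : ℝ) : ℂ)) * X y 4 2 m := by
    refine tsum_rows (a := 4) (b := 2) hy (by norm_num)
      (fun m => ((cw 0 m - cw m (-m) : ℝ) : ℂ)) (C := 40) fun m => ?_
    rw [Complex.norm_real, Real.norm_eq_abs]
    refine (abs_sub _ _).trans ?_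
    linarith [cw_abs 0 m, cw_abs m (-m)]
  have h4 : ∑' m : ℤ, (((cw 0 m - cw m (-m) : ℝ) : ℂ)) * X y 4 2 m =
      ∑' m : ℤ, (cw 0 m : ℂ) * X y 4 2 m - ∑' m : ℤ, (cw m (-m) : ℂ) * X y 4 2 m := by
    rw [← (LJ2_row hy (fun m => cw 0 m) fun m => cw_abs _ _).tsum_sub
      (LJ2_row hy (fun m => cw m (-m)) fun m => cw_abs _ _)]
    refine tsum_congr fun m => ?_
    push_cast
    ring
  have h5 := (LJ2_mn_summable hy).hasSum.add (LJ2_has1 hy)
  have h6 := (h5.sub (LJ2_has2 hy)).tsum_eq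
  rw [h3, h4]
  refine (h1.trans (h2.trans h6)).trans ?_
  rw [LJ2_mn_tsum hy]
  ring

end RVS
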