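import Pool.Agent.RVS.LinkE
import Pool.Agent.RVS.LinkJ2
import Pool.Agent.RVP.LrE
import Pool.Agent.RV15W.CM

/-!
# RVS/LinkM: `D2(y0) = -(1/4) Σ c K13`
-/

set_option autoImplicit false

open scoped ComplexConjugate

namespace RVS

open RVP

variable {y : ℝ}

theorem LinkM_sK1 (hy : 0 < y) (f : ℤ → ℝ) (hf : ∀ m, |f m| ≤ 60) :
    Summable fun v : ℤ × ℤ => ((f v.1 : ℝ) : ℂ) * K1 y v := by
  have h0 : Summable fun v : ℤ × ℤ => (sw v.1 : ℂ) * K1 y v := K1_summable hy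
  have h1 : Summable fun v : ℤ × ℤ => ‖K1 y v‖ := by
    have h2 : Summable fun v : ℤ × ℤ => ‖(sw v.1 : ℂ) * K1 y v‖ := h0.norm
    refine Summable.of_nonneg_of_le (fun v => norm_nonneg _) (fun v => ?_) (h2.mul_left 6)
    rw [norm_mul]
    have h3 : (1 : ℝ) / 6 ≤ ‖(sw v.1 : ℂ)‖ := by
      rw [Complex.norm_real, Real.norm_eq_abs]
      unfold sw sg t3
      split_ifs <;> norm_num [abs_of_nonneg, abs_of_neg]
    nlinarith [norm_nonneg (K1 y v)]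
  refine Summable.of_norm_bounded (h1.mul_left 60) fun v => ?_
  rw [norm_mul, Complex.norm_real, Real.norm_eq_abs]
  exact mul_le_mul_of_nonneg_right (hf _) (norm_nonneg _)

theorem D2_eq (hy : 0 < y) :
    D2 y = -(1 / 4) * ∑' x : V4, (cw x.1.1 x.2.1 : ℂ) * K13 y x - 1 / 12 * (W y 3 1 * G y) := by
  have e1 : ∀ x : V4, (cw x.1.1 x.2.1 : ℂ) * (-(1 / 4) * K13 y x) =
      (cw x.1.1 x.2.1 : ℂ) * KK y x + (-(1 / 2)) * ((cw x.1.1 x.2.1 : ℂ) * KE y x)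
        + 1 / 2 * ((cw x.1.1 x.2.1 : ℂ) * (nz x.1 * nz (x.1 + x.2) * KJ y x)) := fun x => by
    rw [K13_eq hy]
    ring
  have s1 : Summable fun x : V4 => (cw x.1.1 x.2.1 : ℂ) * KK y x := cKK_summable hy
  have s2 : Summable fun x : V4 => (-(1 / 2) : ℂ) * ((cw x.1.1 x.2.1 : ℂ) * KE y x) :=
    (KE_summable hy).mul_left _
  have s3 : Summable fun x : V4 =>
      (1 / 2 : ℂ) * ((cw x.1.1 x.2.1 : ℂ) * (nz x.1 * nz (x.1 + x.2) * KJ y x)) :=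
    (KJ_summable hy).mul_left _
  have e2 : -(1 / 4) * ∑' x : V4, (cw x.1.1 x.2.1 : ℂ) * K13 y x =
      ∑' x : V4, (cw x.1.1 x.2.1 : ℂ) * KK y x
        + (-(1 / 2)) * ∑' x : V4, (cw x.1.1 x.2.1 : ℂ) * KE y x
        + 1 / 2 * ∑' x : V4, (cw x.1.1 x.2.1 : ℂ) * (nz x.1 * nz (x.1 + x.2) * KJ y x) := by
    rw [← tsum_mul_left, ← tsum_mul_left, ← tsum_mul_left, ← s1.tsum_add s2,
      ← (s1.add s2).tsum_add s3]
    refine tsum_congr fun x => ?_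
    rw [← e1 x]
    ring
  have b1 : ∀ m : ℤ, |cw m 0 + cw 0 m - cw m (-m)| ≤ 60 := fun m => by
    have h1 := abs_le.mp (cw_abs m 0)
    have h2 := abs_le.mp (cw_abs 0 m)
    have h3 := abs_le.mp (cw_abs m (-m))
    rw [abs_le]
    constructor <;> linarith [h1.1, h1.2, h2.1, h2.2, h3.1, h3.2]
  have b2 : ∀ m : ℤ, |cw 0 m - cw m (-m)| ≤ 60 := fun m => by
    have h2 := abs_le.mp (cw_abs 0 m)
    have h3 := abs_le.mp (cw_abs m (-m))
    rw [abs_le]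
    constructor <;> linarith [h2.1, h2.2, h3.1, h3.2]
  have t1 := LinkM_sK1 hy _ b1
  have t2 := LinkM_sK1 hy _ b2
  have e3 : ∑' v : ℤ × ℤ, (sw v.1 : ℂ) * K1 y v =
      1 / 2 * ∑' v : ℤ × ℤ, ((cw v.1 0 + cw 0 v.1 - cw v.1 (-v.1) : ℝ) : ℂ) * K1 y v
        + 1 / 2 * ∑' v : ℤ × ℤ, ((cw 0 v.1 - cw v.1 (-v.1) : ℝ) : ℂ) * K1 y v := by
    rw [← tsum_mul_left, ← tsum_mul_left, ← (t1.mul_left _).tsum_add (t2.mul_left _)]
    refine tsum_congr fun v => ?_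
    rw [wt_single v.1]
    push_cast
    ring
  rw [e2, KE_sum hy, KJ_sum hy, D2, e3]
  ring

/-- `G` vanishes at the CM point -/
theorem G_y0 : G y0 = 0 := by
  have h0 : 0 < y0 := by unfold y0; positivity
  have h1 : RV15W.lr y0 = 0 := RV15W.lr_cm
  have h2 : ell y0 = 0 := by
    have := lr_eq h0
    linarith
  unfold G
  rw [h2]
  simp

theorem link : D2 y0 = -(1 / 4) * ∑' x : V4, (cw x.1.1 x.2.1 : ℂ) * K13 y0 x := by
  have h0 : 0 < y0 := by unfold y0; positivity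
  rw [D2_eq h0, G_y0]
  ring

end RVS
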