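import Pool.Agent.RVS.Kap

/-!
# RVS/Lit: literals in `ℚ(tau)`
-/

set_option autoImplicit false

open scoped ComplexConjugate

namespace RVS

theorem ztau {x y : ℤ} (h : (x : ℂ) + y * tau = 0) : x = 0 ∧ y = 0 := by
  have e : (x : ℂ) + y * tau = em (y, x) := by rw [em_eq]; ring
  rw [e, em_zero] at h
  simp only [Prod.mk_eq_zero] at h
  exact ⟨h.2, h.1⟩

theorem conj_ab {a b : ℂ} (ha : conj a = a) (hb : conj b = b) :
    conj (a + b * tau) = (a - b) - b * tau := by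
  rw [map_add, map_mul, conj_tau, ha, hb]
  ring

theorem ind_idl {c a b d i j k : ℕ} {x : V4} {s : ℤ × ℤ}
    (h : (cA a x ∧ cB b x ∧ cC c d x) ↔ ((i = 0 ∨ s.2 % 2 = 0) ∧ (j = 0 ∨ (s.1 + s.2) % 2 = 0) ∧
      (k = 0 ∨ s.1 % 3 = 0) ∧ (k ≤ 1 ∨ s.2 % 3 = 0))) : ind c a b d x = idl i j k s := by
  unfold ind idl
  simp only [h]

theorem KL_tau : KL tau = 27 / 16 + 81 / 16 * tau := by
  refine KL_eq conj_tau ?_
  linear_combination (-3 / 2 + 9 / 4 * tau - 9 / 8 * tau ^ 2 - 27 / 16 * tau ^ 3 + 27 / 4 * tau ^ 4 + 81 / 16 * tau ^ 5) * tau_sq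

end RVS
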