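import Pool.Agent.RVS.LinkM
import Pool.Agent.RVS.Wts
import Pool.Agent.RVS.Fin
import Pool.Agent.K3R.LFunFifteen

/-!
# RVS/Main: `D2(√15/6) = (45/4) Lam_O - (5/12) Lam_M`
-/

set_option autoImplicit false

namespace RVS

theorem Main_KL (z : ℂ) : KL z = 1 / (z ^ 4 * (starRingEnd ℂ z) ^ 2) := by
  unfold KL
  rw [inv_pow, inv_pow, one_div, mul_inv]

theorem Main_emB (v : ℤ × ℤ) : em v = EtaF.elB (Equiv.prodComm ℤ ℤ v) := by
  obtain ⟨m, n⟩ := v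
  apply Complex.ext
  · simp [em, RVP.pt, EtaF.elB, LatL.lat, y0]
    ring
  · simp [em, RVP.pt, EtaF.elB, LatL.lat, y0]

/-- the change of basis of `O` -/
def Main_eq : ℤ × ℤ ≃ ℤ × ℤ where
  toFun v := (v.2 - 2 * v.1, v.1)
  invFun v := (v.2, v.1 + 2 * v.2)
  left_inv v := by ext <;> simp
  right_inv v := by ext <;> simp

theorem Main_emA (v : ℤ × ℤ) : em (3 * v.1, v.2) = EtaF.elA (Main_eq v) := by
  obtain ⟨m, n⟩ := v
  apply Complex.ext
  · simp [em, RVP.pt, EtaF.elA, LatL.lat, y0, Main_eq]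
    ring
  · simp [em, RVP.pt, EtaF.elA, LatL.lat, y0, Main_eq]
    ring

theorem LamM_eq : LamM = EtaF.LamB := by
  unfold LamM EtaF.LamB
  rw [← (Equiv.prodComm ℤ ℤ).tsum_eq
    (fun p => 1 / (EtaF.elB p ^ 4 * (starRingEnd ℂ (EtaF.elB p)) ^ 2))]
  refine tsum_congr fun v => ?_
  rw [Main_KL, Main_emB]

theorem LamO_eq : LamO = EtaF.LamA := by
  unfold LamO EtaF.LamA
  rw [← Main_eq.tsum_eq
    (fun p => 1 / (EtaF.elA p ^ 4 * (starRingEnd ℂ (EtaF.elA p)) ^ 2))]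
  refine tsum_congr fun v => ?_
  rw [Main_KL, Main_emA]

theorem main : RVP.D2 (Real.sqrt 15 / 6) = -(5 / 12) * EtaF.LamB + 45 / 4 * EtaF.LamA := by
  have h := link
  rw [wt_sum, fin, LamM_eq, LamO_eq] at h
  unfold y0 at h
  rw [h]
  ring

end RVS
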