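import Pool.Agent.RVS.Hecke
import Pool.Agent.RVS.S3r

/-!
# RVS/RH: scalar rows of the distribution relations (generated)
-/

set_option autoImplicit false
set_option linter.unusedSimpArgs false
set_option linter.unusedVariables false
set_option linter.unnecessarySeqFocus false
set_option linter.unreachableTactic false
set_option linter.unusedTactic false

open scoped ComplexConjugate

namespace RVS

theorem H0_0 : (-1) * T0 0 0 1 2 + (1) * T0 0 1 1 2 + (-1) * T2 0 1 2 1 + (1) * T0 0 1 2 3 + (-1) * T1 0 1 2 3 + (1) * T2 0 1 2 3 + (-1 / 216 - 1 / 72 * tau) * T0 1 0 1 2 = 0 := by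
  have h := heckeA0 (b := 1) (d := 2) (by norm_num) (by norm_num) 1 0
  rw [KL_3tau] at h
  simp only [S_0_2_1_2, S_0_3_1_2] at h
  simp only [TT] at h
  linear_combination h - (0) * tau_sq

theorem H0_1 : (-1) * T2 0 0 1 2 + (1) * T2 0 1 1 2 + (-1) * T0 0 1 2 1 + (1) * T0 0 1 2 3 + (-1 / 216 - 1 / 72 * tau) * T2 1 0 1 2 = 0 := by
  have h := heckeA0 (b := 1) (d := 2) (by norm_num) (by norm_num) 0 1
  rw [KL_3tau] at h
  simp only [S_0_2_1_2, S_0_3_1_2] at h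
  simp only [TT] at h
  linear_combination h - (0) * tau_sq

theorem H0_2 : (-1) * T0 0 0 1 2 + (-1) * T1 0 0 1 2 + (-1) * T2 0 0 1 2 + (1) * T0 0 1 1 2 + (1) * T1 0 1 1 2 + (1) * T2 0 1 1 2 + (-1) * T0 0 1 2 1 + (-1) * T1 0 1 2 1 + (-1) * T2 0 1 2 1 + (4) * T0 0 1 2 3 + (-2) * T1 0 1 2 3 + (1) * T2 0 1 2 3 + (-1 / 216 - 1 / 72 * tau) * T0 1 0 1 2 + (-1 / 216 - 1 / 72 * tau) * T1 1 0 1 2 + (-1 / 216 - 1 / 72 * tau) * T2 1 0 1 2 = 0 := by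
  have h := heckeA0 (b := 1) (d := 2) (by norm_num) (by norm_num) 1 1
  rw [KL_3tau] at h
  simp only [S_0_2_1_2, S_0_3_1_2] at h
  simp only [TT] at h
  linear_combination h - (0) * tau_sq

theorem H1_0 : (-1) * T0 0 0 1 0 + (1) * T0 0 1 1 0 + (1) * T0 0 1 2 0 + (-1) * T1 0 1 2 0 + (-1 / 216 - 1 / 72 * tau) * T0 1 0 1 0 = 0 := by
  have h := heckeA0 (b := 1) (d := 0) (by norm_num) (by norm_num) 1 0
  rw [KL_3tau] at h
  simp only [S_0_2_1_0, S_0_3_1_0] at h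
  simp only [TT] at h
  linear_combination h - (0) * tau_sq

theorem H1_1 : (-1) * T2 0 0 1 0 + (1) * T2 0 1 1 0 + (-1 / 216 - 1 / 72 * tau) * T2 1 0 1 0 = 0 := by
  have h := heckeA0 (b := 1) (d := 0) (by norm_num) (by norm_num) 0 1
  rw [KL_3tau] at h
  simp only [S_0_2_1_0, S_0_3_1_0] at h
  simp only [TT] at h
  linear_combination h - (0) * tau_sq

theorem H1_2 : (-1) * T0 0 0 1 0 + (-1) * T1 0 0 1 0 + (-1) * T2 0 0 1 0 + (1) * T0 0 1 1 0 + (1) * T1 0 1 1 0 + (1) * T2 0 1 1 0 + (3) * T0 0 1 2 0 + (-3) * T1 0 1 2 0 + (-1 / 216 - 1 / 72 * tau) * T0 1 0 1 0 + (-1 / 216 - 1 / 72 * tau) * T1 1 0 1 0 + (-1 / 216 - 1 / 72 * tau) * T2 1 0 1 0 = 0 := by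
  have h := heckeA0 (b := 1) (d := 0) (by norm_num) (by norm_num) 1 1
  rw [KL_3tau] at h
  simp only [S_0_2_1_0, S_0_3_1_0] at h
  simp only [TT] at h
  linear_combination h - (0) * tau_sq

theorem H2_0 : (27 / 4 + 81 / 8 * tau) * T0 0 1 0 0 + (-1) * T0 1 1 0 0 + (1) * T0 1 1 1 0 + (1) * T1 1 1 2 0 + (-1) * T2 1 1 2 0 = 0 := by
  have h := heckeB1 (a := 1) (d := 0) (by norm_num) (by norm_num) 1 0
  rw [KL_ctau] at h
  simp only [S_1_1_3_0] at h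
  simp only [TT] at h
  linear_combination h - (0) * tau_sq

theorem H2_1 : (27 / 4 + 81 / 8 * tau) * T2 0 1 0 0 + (-1) * T2 1 1 0 0 + (1) * T2 1 1 1 0 = 0 := by
  have h := heckeB1 (a := 1) (d := 0) (by norm_num) (by norm_num) 0 1
  rw [KL_ctau] at h
  simp only [S_1_1_3_0] at h
  simp only [TT] at h
  linear_combination h - (0) * tau_sq

theorem H2_2 : (27 / 4 + 81 / 8 * tau) * T0 0 1 0 0 + (27 / 4 + 81 / 8 * tau) * T1 0 1 0 0 + (27 / 4 + 81 / 8 * tau) * T2 0 1 0 0 + (-1) * T0 1 1 0 0 + (-1) * T1 1 1 0 0 + (-1) * T2 1 1 0 0 + (1) * T0 1 1 1 0 + (1) * T1 1 1 1 0 + (1) * T2 1 1 1 0 + (3) * T1 1 1 2 0 + (-3) * T2 1 1 2 0 = 0 := by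
  have h := heckeB1 (a := 1) (d := 0) (by norm_num) (by norm_num) 1 1
  rw [KL_ctau] at h
  simp only [S_1_1_3_0] at h
  simp only [TT] at h
  linear_combination h - (0) * tau_sq

theorem H3_0 : (-1) * T0 0 1 0 0 + (1) * T0 0 1 1 0 + (1) * T1 0 1 2 0 + (-1) * T2 0 1 2 0 + (1 / 108 + 1 / 72 * tau) * T0 1 1 0 0 = 0 := by
  have h := heckeB0 (a := 1) (d := 0) (by norm_num) (by norm_num) 1 0
  rw [KL_3ctau] at h
  simp only [S_0_1_3_0] at h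
  simp only [TT] at h
  linear_combination h - (0) * tau_sq

theorem H3_1 : (-1) * T2 0 1 0 0 + (1) * T2 0 1 1 0 + (1 / 108 + 1 / 72 * tau) * T2 1 1 0 0 = 0 := by
  have h := heckeB0 (a := 1) (d := 0) (by norm_num) (by norm_num) 0 1
  rw [KL_3ctau] at h
  simp only [S_0_1_3_0] at h
  simp only [TT] at h
  linear_combination h - (0) * tau_sq

theorem H3_2 : (-1) * T0 0 1 0 0 + (-1) * T1 0 1 0 0 + (-1) * T2 0 1 0 0 + (1) * T0 0 1 1 0 + (1) * T1 0 1 1 0 + (1) * T2 0 1 1 0 + (3) * T1 0 1 2 0 + (-3) * T2 0 1 2 0 + (1 / 108 + 1 / 72 * tau) * T0 1 1 0 0 + (1 / 108 + 1 / 72 * tau) * T1 1 1 0 0 + (1 / 108 + 1 / 72 * tau) * T2 1 1 0 0 = 0 := by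
  have h := heckeB0 (a := 1) (d := 0) (by norm_num) (by norm_num) 1 1
  rw [KL_3ctau] at h
  simp only [S_0_1_3_0] at h
  simp only [TT] at h
  linear_combination h - (0) * tau_sq

theorem H4_0 : (27 / 4 + 81 / 8 * tau) * T0 0 0 0 1 + (-1) * T0 1 0 0 1 + (1) * T0 1 0 1 1 + (1) * T0 1 0 1 2 + (-1) * T1 1 0 1 2 = 0 := by
  have h := heckeB1 (a := 0) (d := 1) (by norm_num) (by norm_num) 1 0
  rw [KL_ctau] at h
  simp only [S_1_0_2_1, S_1_0_3_1] at h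
  simp only [TT] at h
  linear_combination h - (0) * tau_sq

theorem H4_1 : (27 / 4 + 81 / 8 * tau) * T2 0 0 0 1 + (-1) * T2 1 0 0 1 + (1) * T2 1 0 1 1 = 0 := by
  have h := heckeB1 (a := 0) (d := 1) (by norm_num) (by norm_num) 0 1
  rw [KL_ctau] at h
  simp only [S_1_0_2_1, S_1_0_3_1] at h
  simp only [TT] at h
  linear_combination h - (0) * tau_sq

theorem H4_2 : (27 / 4 + 81 / 8 * tau) * T0 0 0 0 1 + (27 / 4 + 81 / 8 * tau) * T1 0 0 0 1 + (27 / 4 + 81 / 8 * tau) * T2 0 0 0 1 + (-1) * T0 1 0 0 1 + (-1) * T1 1 0 0 1 + (-1) * T2 1 0 0 1 + (1) * T0 1 0 1 1 + (1) * T1 1 0 1 1 + (1) * T2 1 0 1 1 + (3) * T0 1 0 1 2 + (-3) * T1 1 0 1 2 = 0 := by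
  have h := heckeB1 (a := 0) (d := 1) (by norm_num) (by norm_num) 1 1
  rw [KL_ctau] at h
  simp only [S_1_0_2_1, S_1_0_3_1] at h
  simp only [TT] at h
  linear_combination h - (0) * tau_sq

theorem H5_0 : (-27 / 8 - 81 / 8 * tau) * T0 0 0 1 0 + (-1) * T0 1 0 1 0 + (1) * T0 1 1 1 0 + (1) * T0 1 1 2 0 + (-1) * T1 1 1 2 0 = 0 := by
  have h := heckeA1 (b := 1) (d := 0) (by norm_num) (by norm_num) 1 0
  rw [KL_tau] at h
  simp only [S_1_2_1_0, S_1_3_1_0] at h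
  simp only [TT] at h
  linear_combination h - (0) * tau_sq

theorem H5_1 : (-27 / 8 - 81 / 8 * tau) * T2 0 0 1 0 + (-1) * T2 1 0 1 0 + (1) * T2 1 1 1 0 = 0 := by
  have h := heckeA1 (b := 1) (d := 0) (by norm_num) (by norm_num) 0 1
  rw [KL_tau] at h
  simp only [S_1_2_1_0, S_1_3_1_0] at h
  simp only [TT] at h
  linear_combination h - (0) * tau_sq

theorem H5_2 : (-27 / 8 - 81 / 8 * tau) * T0 0 0 1 0 + (-27 / 8 - 81 / 8 * tau) * T1 0 0 1 0 + (-27 / 8 - 81 / 8 * tau) * T2 0 0 1 0 + (-1) * T0 1 0 1 0 + (-1) * T1 1 0 1 0 + (-1) * T2 1 0 1 0 + (1) * T0 1 1 1 0 + (1) * T1 1 1 1 0 + (1) * T2 1 1 1 0 + (3) * T0 1 1 2 0 + (-3) * T1 1 1 2 0 = 0 := by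
  have h := heckeA1 (b := 1) (d := 0) (by norm_num) (by norm_num) 1 1
  rw [KL_tau] at h
  simp only [S_1_2_1_0, S_1_3_1_0] at h
  simp only [TT] at h
  linear_combination h - (0) * tau_sq

theorem H6_0 : (27 / 4 + 81 / 8 * tau) * T0 0 1 0 1 + (-1) * T0 1 1 0 1 + (1) * T0 1 1 1 1 + (1) * T1 1 1 2 1 + (-1) * T2 1 1 2 1 = 0 := by
  have h := heckeB1 (a := 1) (d := 1) (by norm_num) (by norm_num) 1 0
  rw [KL_ctau] at h
  simp only [S_1_1_3_1] at h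
  simp only [TT] at h
  linear_combination h - (0) * tau_sq

theorem H6_1 : (27 / 4 + 81 / 8 * tau) * T2 0 1 0 1 + (-1) * T2 1 1 0 1 + (1) * T2 1 1 1 1 = 0 := by
  have h := heckeB1 (a := 1) (d := 1) (by norm_num) (by norm_num) 0 1
  rw [KL_ctau] at h
  simp only [S_1_1_3_1] at h
  simp only [TT] at h
  linear_combination h - (0) * tau_sq

theorem H6_2 : (27 / 4 + 81 / 8 * tau) * T0 0 1 0 1 + (27 / 4 + 81 / 8 * tau) * T1 0 1 0 1 + (27 / 4 + 81 / 8 * tau) * T2 0 1 0 1 + (-1) * T0 1 1 0 1 + (-1) * T1 1 1 0 1 + (-1) * T2 1 1 0 1 + (1) * T0 1 1 1 1 + (1) * T1 1 1 1 1 + (1) * T2 1 1 1 1 + (3) * T1 1 1 2 1 + (-3) * T2 1 1 2 1 = 0 := by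
  have h := heckeB1 (a := 1) (d := 1) (by norm_num) (by norm_num) 1 1
  rw [KL_ctau] at h
  simp only [S_1_1_3_1] at h
  simp only [TT] at h
  linear_combination h - (0) * tau_sq

theorem H7_0 : (-27 / 8 - 81 / 8 * tau) * T0 0 0 1 2 + (-1) * T0 1 0 1 2 + (1) * T0 1 1 1 2 + (-1) * T2 1 1 2 1 + (1) * T0 1 1 2 3 + (-1) * T1 1 1 2 3 + (1) * T2 1 1 2 3 = 0 := by
  have h := heckeA1 (b := 1) (d := 2) (by norm_num) (by norm_num) 1 0
  rw [KL_tau] at h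
  simp only [S_1_2_1_2, S_1_3_1_2] at h
  simp only [TT] at h
  linear_combination h - (0) * tau_sq

theorem H7_1 : (-27 / 8 - 81 / 8 * tau) * T2 0 0 1 2 + (-1) * T2 1 0 1 2 + (1) * T2 1 1 1 2 + (-1) * T0 1 1 2 1 + (1) * T0 1 1 2 3 = 0 := by
  have h := heckeA1 (b := 1) (d := 2) (by norm_num) (by norm_num) 0 1
  rw [KL_tau] at h
  simp only [S_1_2_1_2, S_1_3_1_2] at h
  simp only [TT] at h
  linear_combination h - (0) * tau_sq

theorem H7_2 : (-27 / 8 - 81 / 8 * tau) * T0 0 0 1 2 + (-27 / 8 - 81 / 8 * tau) * T1 0 0 1 2 + (-27 / 8 - 81 / 8 * tau) * T2 0 0 1 2 + (-1) * T0 1 0 1 2 + (-1) * T1 1 0 1 2 + (-1) * T2 1 0 1 2 + (1) * T0 1 1 1 2 + (1) * T1 1 1 1 2 + (1) * T2 1 1 1 2 + (-1) * T0 1 1 2 1 + (-1) * T1 1 1 2 1 + (-1) * T2 1 1 2 1 + (4) * T0 1 1 2 3 + (-2) * T1 1 1 2 3 + (1) * T2 1 1 2 3 = 0 := by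
  have h := heckeA1 (b := 1) (d := 2) (by norm_num) (by norm_num) 1 1
  rw [KL_tau] at h
  simp only [S_1_2_1_2, S_1_3_1_2] at h
  simp only [TT] at h
  linear_combination h - (0) * tau_sq

theorem H8_0 : (-27 / 8 - 81 / 8 * tau) * T0 0 0 0 1 + (-1) * T0 1 0 0 1 + (1) * T0 1 1 0 1 + (1) * T0 1 1 0 2 + (-1) * T1 1 1 0 2 = 0 := by
  have h := heckeA1 (b := 0) (d := 1) (by norm_num) (by norm_num) 1 0
  rw [KL_tau] at h
  simp only [S_1_2_0_1, S_1_3_0_1] at h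
  simp only [TT] at h
  linear_combination h - (0) * tau_sq

theorem H8_1 : (-27 / 8 - 81 / 8 * tau) * T2 0 0 0 1 + (-1) * T2 1 0 0 1 + (1) * T2 1 1 0 1 = 0 := by
  have h := heckeA1 (b := 0) (d := 1) (by norm_num) (by norm_num) 0 1
  rw [KL_tau] at h
  simp only [S_1_2_0_1, S_1_3_0_1] at h
  simp only [TT] at h
  linear_combination h - (0) * tau_sq

theorem H8_2 : (-27 / 8 - 81 / 8 * tau) * T0 0 0 0 1 + (-27 / 8 - 81 / 8 * tau) * T1 0 0 0 1 + (-27 / 8 - 81 / 8 * tau) * T2 0 0 0 1 + (-1) * T0 1 0 0 1 + (-1) * T1 1 0 0 1 + (-1) * T2 1 0 0 1 + (1) * T0 1 1 0 1 + (1) * T1 1 1 0 1 + (1) * T2 1 1 0 1 + (3) * T0 1 1 0 2 + (-3) * T1 1 1 0 2 = 0 := by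
  have h := heckeA1 (b := 0) (d := 1) (by norm_num) (by norm_num) 1 1
  rw [KL_tau] at h
  simp only [S_1_2_0_1, S_1_3_0_1] at h
  simp only [TT] at h
  linear_combination h - (0) * tau_sq

theorem H9_0 : (-1) * T0 0 1 0 2 + (1) * T0 0 1 1 2 + (1) * T0 0 1 2 2 + (-1) * T0 0 1 2 3 + (1) * T1 0 1 2 3 + (-1) * T2 0 1 2 3 + (1 / 108 + 1 / 72 * tau) * T0 1 1 0 2 = 0 := by
  have h := heckeB0 (a := 1) (d := 2) (by norm_num) (by norm_num) 1 0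
  rw [KL_3ctau] at h
  simp only [S_0_1_3_2] at h
  simp only [TT] at h
  linear_combination h - (0) * tau_sq

theorem H9_1 : (-1) * T2 0 1 0 2 + (1) * T2 0 1 1 2 + (1) * T2 0 1 2 2 + (-1) * T2 0 1 2 3 + (1 / 108 + 1 / 72 * tau) * T2 1 1 0 2 = 0 := by
  have h := heckeB0 (a := 1) (d := 2) (by norm_num) (by norm_num) 0 1
  rw [KL_3ctau] at h
  simp only [S_0_1_3_2] at h
  simp only [TT] at h
  linear_combination h - (0) * tau_sq

theorem H9_2 : (-1) * T0 0 1 0 2 + (-1) * T1 0 1 0 2 + (-1) * T2 0 1 0 2 + (1) * T0 0 1 1 2 + (1) * T1 0 1 1 2 + (1) * T2 0 1 1 2 + (1) * T0 0 1 2 2 + (1) * T1 0 1 2 2 + (1) * T2 0 1 2 2 + (-1) * T0 0 1 2 3 + (2) * T1 0 1 2 3 + (-4) * T2 0 1 2 3 + (1 / 108 + 1 / 72 * tau) * T0 1 1 0 2 + (1 / 108 + 1 / 72 * tau) * T1 1 1 0 2 + (1 / 108 + 1 / 72 * tau) * T2 1 1 0 2 = 0 := by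
  have h := heckeB0 (a := 1) (d := 2) (by norm_num) (by norm_num) 1 1
  rw [KL_3ctau] at h
  simp only [S_0_1_3_2] at h
  simp only [TT] at h
  linear_combination h - (0) * tau_sq

theorem H10_0 : (27 / 4 + 81 / 8 * tau) * T0 0 1 0 2 + (-1) * T0 1 1 0 2 + (1) * T0 1 1 1 2 + (1) * T0 1 1 2 2 + (-1) * T0 1 1 2 3 + (1) * T1 1 1 2 3 + (-1) * T2 1 1 2 3 = 0 := by
  have h := heckeB1 (a := 1) (d := 2) (by norm_num) (by norm_num) 1 0
  rw [KL_ctau] at h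
  simp only [S_1_1_3_2] at h
  simp only [TT] at h
  linear_combination h - (0) * tau_sq

theorem H10_1 : (27 / 4 + 81 / 8 * tau) * T2 0 1 0 2 + (-1) * T2 1 1 0 2 + (1) * T2 1 1 1 2 + (1) * T2 1 1 2 2 + (-1) * T2 1 1 2 3 = 0 := by
  have h := heckeB1 (a := 1) (d := 2) (by norm_num) (by norm_num) 0 1
  rw [KL_ctau] at h
  simp only [S_1_1_3_2] at h
  simp only [TT] at h
  linear_combination h - (0) * tau_sq

theorem H10_2 : (27 / 4 + 81 / 8 * tau) * T0 0 1 0 2 + (27 / 4 + 81 / 8 * tau) * T1 0 1 0 2 + (27 / 4 + 81 / 8 * tau) * T2 0 1 0 2 + (-1) * T0 1 1 0 2 + (-1) * T1 1 1 0 2 + (-1) * T2 1 1 0 2 + (1) * T0 1 1 1 2 + (1) * T1 1 1 1 2 + (1) * T2 1 1 1 2 + (1) * T0 1 1 2 2 + (1) * T1 1 1 2 2 + (1) * T2 1 1 2 2 + (-1) * T0 1 1 2 3 + (2) * T1 1 1 2 3 + (-4) * T2 1 1 2 3 = 0 := by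
  have h := heckeB1 (a := 1) (d := 2) (by norm_num) (by norm_num) 1 1
  rw [KL_ctau] at h
  simp only [S_1_1_3_2] at h
  simp only [TT] at h
  linear_combination h - (0) * tau_sq

theorem H11_0 : (-1) * T0 0 0 0 1 + (1) * T0 0 1 0 1 + (1) * T0 0 1 0 2 + (-1) * T1 0 1 0 2 + (-1 / 216 - 1 / 72 * tau) * T0 1 0 0 1 = 0 := by
  have h := heckeA0 (b := 0) (d := 1) (by norm_num) (by norm_num) 1 0
  rw [KL_3tau] at h
  simp only [S_0_2_0_1, S_0_3_0_1] at h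
  simp only [TT] at h
  linear_combination h - (0) * tau_sq

theorem H11_1 : (-1) * T2 0 0 0 1 + (1) * T2 0 1 0 1 + (-1 / 216 - 1 / 72 * tau) * T2 1 0 0 1 = 0 := by
  have h := heckeA0 (b := 0) (d := 1) (by norm_num) (by norm_num) 0 1
  rw [KL_3tau] at h
  simp only [S_0_2_0_1, S_0_3_0_1] at h
  simp only [TT] at h
  linear_combination h - (0) * tau_sq

theorem H11_2 : (-1) * T0 0 0 0 1 + (-1) * T1 0 0 0 1 + (-1) * T2 0 0 0 1 + (1) * T0 0 1 0 1 + (1) * T1 0 1 0 1 + (1) * T2 0 1 0 1 + (3) * T0 0 1 0 2 + (-3) * T1 0 1 0 2 + (-1 / 216 - 1 / 72 * tau) * T0 1 0 0 1 + (-1 / 216 - 1 / 72 * tau) * T1 1 0 0 1 + (-1 / 216 - 1 / 72 * tau) * T2 1 0 0 1 = 0 := by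
  have h := heckeA0 (b := 0) (d := 1) (by norm_num) (by norm_num) 1 1
  rw [KL_3tau] at h
  simp only [S_0_2_0_1, S_0_3_0_1] at h
  simp only [TT] at h
  linear_combination h - (0) * tau_sq

theorem H12_0 : (-1) * T0 0 1 2 0 + (1) * T0 0 1 2 1 + (1) * T0 0 1 2 2 + (1) * T0 0 1 2 3 + (1) * T0 0 1 2 4 + (-1 / 243) * T0 1 1 2 0 = 0 := by
  have h := heckeC0 (a := 1) (b := 2) (by norm_num) (by norm_num) 1 0
  rw [KL_3] at h
  simp only [TT] at h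
  linear_combination h - (0) * tau_sq

theorem H12_1 : (-1) * T2 0 1 2 0 + (1) * T2 0 1 2 1 + (1) * T2 0 1 2 2 + (1) * T2 0 1 2 3 + (1) * T2 0 1 2 4 + (-1 / 243) * T2 1 1 2 0 = 0 := by
  have h := heckeC0 (a := 1) (b := 2) (by norm_num) (by norm_num) 0 1
  rw [KL_3] at h
  simp only [TT] at h
  linear_combination h - (0) * tau_sq

theorem H12_2 : (-1) * T0 0 1 2 0 + (-1) * T1 0 1 2 0 + (-1) * T2 0 1 2 0 + (1) * T0 0 1 2 1 + (1) * T1 0 1 2 1 + (1) * T2 0 1 2 1 + (1) * T0 0 1 2 2 + (1) * T1 0 1 2 2 + (1) * T2 0 1 2 2 + (1) * T0 0 1 2 3 + (1) * T1 0 1 2 3 + (1) * T2 0 1 2 3 + (1) * T0 0 1 2 4 + (1) * T1 0 1 2 4 + (1) * T2 0 1 2 4 + (-1 / 243) * T0 1 1 2 0 + (-1 / 243) * T1 1 1 2 0 + (-1 / 243) * T2 1 1 2 0 = 0 := by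
  have h := heckeC0 (a := 1) (b := 2) (by norm_num) (by norm_num) 1 1
  rw [KL_3] at h
  simp only [TT] at h
  linear_combination h - (0) * tau_sq

end RVS
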