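import Pool.Agent.RVS.Ker
import Pool.Agent.RVP.Ker

/-!
# RVS/Sum: absolute convergence, pushforward, lines
-/

set_option autoImplicit false

open scoped ComplexConjugate

namespace RVS

theorem ind_le (c a b d : ℕ) (x : V4) : ‖ind c a b d x‖ ≤ 1 := by
  unfold ind
  split_ifs <;> simp

theorem SS_le1 (p q : ℂ) : ‖SS p q‖ ≤ 2 * (‖p⁻¹‖ * ‖q⁻¹‖ * ‖(p + q)⁻¹‖ ^ 2) := by
  by_cases hp : p = 0
  · subst hp; simp [SS]
  by_cases hq : q = 0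
  · subst hq; simp [SS]
  have hp' : 0 < ‖p‖ := norm_pos_iff.mpr hp
  have hq' : 0 < ‖q‖ := norm_pos_iff.mpr hq
  have h1 : ‖conj p * q - p * conj q‖ ≤ 2 * (‖p‖ * ‖q‖) := by
    refine (norm_sub_le _ _).trans ?_
    rw [norm_mul, norm_mul, RCLike.norm_conj, RCLike.norm_conj]
    linarith
  unfold SS
  rw [norm_mul]
  have h2 : ‖p⁻¹ * (conj p)⁻¹ * (q⁻¹ * (conj q)⁻¹) * ((p + q)⁻¹ * (conj (p + q))⁻¹)‖ =
      ‖p⁻¹‖ ^ 2 * ‖q⁻¹‖ ^ 2 * ‖(p + q)⁻¹‖ ^ 2 := by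
    simp only [norm_mul, norm_inv, RCLike.norm_conj]
    ring
  rw [h2]
  have h3 : 2 * (‖p‖ * ‖q‖) * (‖p⁻¹‖ ^ 2 * ‖q⁻¹‖ ^ 2 * ‖(p + q)⁻¹‖ ^ 2) =
      2 * (‖p⁻¹‖ * ‖q⁻¹‖ * ‖(p + q)⁻¹‖ ^ 2) := by
    rw [norm_inv, norm_inv]
    field_simp
  rw [← h3]
  exact mul_le_mul_of_nonneg_right h1 (by positivity)

theorem SS_rot (p q : ℂ) : SS p (-(p + q)) = -SS p q := by
  have e1 : p + -(p + q) = -q := by ring
  unfold SS
  rw [e1]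
  simp only [map_add, map_neg, inv_neg]
  ring

theorem SS_swap (p q : ℂ) : SS q p = -SS p q := by
  unfold SS
  rw [add_comm q p]
  ring

theorem SS_le2 (p q : ℂ) : ‖SS p q‖ ≤ 2 * (‖p⁻¹‖ * ‖(p + q)⁻¹‖ * ‖q⁻¹‖ ^ 2) := by
  have h := SS_le1 p (-(p + q))
  have e1 : p + -(p + q) = -q := by ring
  rw [SS_rot, e1, norm_neg, inv_neg, inv_neg, norm_neg, norm_neg] at h
  exact h

theorem k0_le (p q : ℂ) : ‖k0 p q‖ ≤ 2 * (‖p⁻¹‖ ^ 3 * ‖q⁻¹‖ ^ 1 * ‖(p + q)⁻¹‖ ^ 2)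
    + 2 * (‖p⁻¹‖ ^ 1 * ‖q⁻¹‖ ^ 2 * ‖(p + q)⁻¹‖ ^ 3)
    + 2 * (‖p⁻¹‖ ^ 2 * ‖q⁻¹‖ ^ 2 * ‖(p + q)⁻¹‖ ^ 2) := by
  have e : k0 p q = SS p q * p⁻¹ ^ 2 + SS p q * (p + q)⁻¹ ^ 2 + SS p q * (p⁻¹ * (p + q)⁻¹) := by
    unfold k0; ring
  rw [e]
  refine (norm_add₃_le).trans (add_le_add (add_le_add ?_ ?_) ?_)
  · rw [norm_mul, norm_pow]
    have := mul_le_mul_of_nonneg_right (SS_le1 p q) (sq_nonneg ‖p⁻¹‖)
    linarith
  · rw [norm_mul, norm_pow]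
    have := mul_le_mul_of_nonneg_right (SS_le2 p q) (sq_nonneg ‖(p + q)⁻¹‖)
    linarith
  · rw [norm_mul, norm_mul]
    have := mul_le_mul_of_nonneg_right (SS_le2 p q)
      (mul_nonneg (norm_nonneg p⁻¹) (norm_nonneg (p + q)⁻¹))
    linarith

theorem k2_le (p q : ℂ) : ‖k2 p q‖ ≤ 2 * (‖p⁻¹‖ ^ 1 * ‖q⁻¹‖ ^ 3 * ‖(p + q)⁻¹‖ ^ 2)
    + 2 * (‖p⁻¹‖ ^ 2 * ‖q⁻¹‖ ^ 1 * ‖(p + q)⁻¹‖ ^ 3)
    + 2 * (‖p⁻¹‖ ^ 2 * ‖q⁻¹‖ ^ 2 * ‖(p + q)⁻¹‖ ^ 2) := by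
  have e : k2 p q = -k0 q p := by
    unfold k0 k2
    rw [SS_swap, add_comm q p]
    ring
  rw [e, norm_neg]
  have h := k0_le q p
  rw [add_comm q p] at h
  linarith

theorem k1_le (p q : ℂ) : ‖k1 p q‖ ≤ 4 * (‖p⁻¹‖ ^ 1 * ‖q⁻¹‖ ^ 2 * ‖(p + q)⁻¹‖ ^ 3)
    + 6 * (‖p⁻¹‖ ^ 2 * ‖q⁻¹‖ ^ 2 * ‖(p + q)⁻¹‖ ^ 2) := by
  have e : k1 p q = 2 * (SS p q * (p + q)⁻¹ ^ 2) + SS p q * (p⁻¹ * q⁻¹)
      + SS p q * (p⁻¹ * (p + q)⁻¹) + SS p q * (q⁻¹ * (p + q)⁻¹) := by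
    unfold k1; ring
  have h1 : ‖2 * (SS p q * (p + q)⁻¹ ^ 2)‖ ≤ 4 * (‖p⁻¹‖ ^ 1 * ‖q⁻¹‖ ^ 2 * ‖(p + q)⁻¹‖ ^ 3) := by
    rw [norm_mul, norm_mul, norm_pow, Complex.norm_ofNat]
    have := mul_le_mul_of_nonneg_right (SS_le2 p q) (sq_nonneg ‖(p + q)⁻¹‖)
    linarith
  have h2 : ‖SS p q * (p⁻¹ * q⁻¹)‖ ≤ 2 * (‖p⁻¹‖ ^ 2 * ‖q⁻¹‖ ^ 2 * ‖(p + q)⁻¹‖ ^ 2) := by
    rw [norm_mul, norm_mul]
    have := mul_le_mul_of_nonneg_right (SS_le1 p q)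
      (mul_nonneg (norm_nonneg p⁻¹) (norm_nonneg q⁻¹))
    linarith
  have h3 : ‖SS p q * (p⁻¹ * (p + q)⁻¹)‖ ≤ 2 * (‖p⁻¹‖ ^ 2 * ‖q⁻¹‖ ^ 2 * ‖(p + q)⁻¹‖ ^ 2) := by
    rw [norm_mul, norm_mul]
    have := mul_le_mul_of_nonneg_right (SS_le2 p q)
      (mul_nonneg (norm_nonneg p⁻¹) (norm_nonneg (p + q)⁻¹))
    linarith
  have h4 : ‖SS p q * (q⁻¹ * (p + q)⁻¹)‖ ≤ 2 * (‖p⁻¹‖ ^ 2 * ‖q⁻¹‖ ^ 2 * ‖(p + q)⁻¹‖ ^ 2) := by
    have h := SS_le2 q p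
    rw [SS_swap, norm_neg, add_comm q p] at h
    rw [norm_mul, norm_mul]
    have := mul_le_mul_of_nonneg_right h
      (mul_nonneg (norm_nonneg q⁻¹) (norm_nonneg (p + q)⁻¹))
    linarith
  rw [e]
  refine (norm_add_le _ _).trans ?_
  have := norm_add₃_le (a := 2 * (SS p q * (p + q)⁻¹ ^ 2)) (b := SS p q * (p⁻¹ * q⁻¹))
    (c := SS p q * (p⁻¹ * (p + q)⁻¹))
  linarith

theorem ker_sum {a b c : ℕ} (ha : a ≤ 3) (hb : b ≤ 3) (hc : c ≤ 3) (h : a + b + c = 6) :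
    Summable fun x : V4 =>
      ‖(em x.1)⁻¹‖ ^ a * ‖(em x.2)⁻¹‖ ^ b * ‖(em x.1 + em x.2)⁻¹‖ ^ c := by
  refine (RVP.ker_summable y0_pos ha hb hc h).congr fun x => ?_
  unfold RVP.iv em
  rw [RVP.pt_add]

theorem k0_sum : Summable fun x : V4 => ‖k0 (em x.1) (em x.2)‖ := by
  refine Summable.of_nonneg_of_le (fun x => norm_nonneg _) (fun x => k0_le _ _) ?_
  exact (((ker_sum (a := 3) (b := 1) (c := 2) (by norm_num) (by norm_num) (by norm_num)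
    (by norm_num)).mul_left 2).add ((ker_sum (a := 1) (b := 2) (c := 3) (by norm_num)
    (by norm_num) (by norm_num) (by norm_num)).mul_left 2)).add ((ker_sum (a := 2) (b := 2)
    (c := 2) (by norm_num) (by norm_num) (by norm_num) (by norm_num)).mul_left 2)

theorem k2_sum : Summable fun x : V4 => ‖k2 (em x.1) (em x.2)‖ := by
  refine Summable.of_nonneg_of_le (fun x => norm_nonneg _) (fun x => k2_le _ _) ?_
  exact (((ker_sum (a := 1) (b := 3) (c := 2) (by norm_num) (by norm_num) (by norm_num)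
    (by norm_num)).mul_left 2).add ((ker_sum (a := 2) (b := 1) (c := 3) (by norm_num)
    (by norm_num) (by norm_num) (by norm_num)).mul_left 2)).add ((ker_sum (a := 2) (b := 2)
    (c := 2) (by norm_num) (by norm_num) (by norm_num) (by norm_num)).mul_left 2)

theorem k1_sum : Summable fun x : V4 => ‖k1 (em x.1) (em x.2)‖ := by
  refine Summable.of_nonneg_of_le (fun x => norm_nonneg _) (fun x => k1_le _ _) ?_
  exact ((ker_sum (a := 1) (b := 2) (c := 3) (by norm_num)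
    (by norm_num) (by norm_num) (by norm_num)).mul_left 4).add ((ker_sum (a := 2) (b := 2)
    (c := 2) (by norm_num) (by norm_num) (by norm_num) (by norm_num)).mul_left 6)

theorem w_sum {f g : V4 → ℂ} {C : ℝ} (hf : Summable fun x => ‖f x‖) (hg : ∀ x, ‖g x‖ ≤ C) :
    Summable fun x => g x * f x := by
  refine Summable.of_norm_bounded (hf.mul_left C) fun x => ?_
  rw [norm_mul]
  exact mul_le_mul_of_nonneg_right (hg x) (norm_nonneg _)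

theorem T_hasSum (c a b d : ℕ) (P Q : ℂ) :
    HasSum (fun x : V4 => ind c a b d x * KS (em x.1) (em x.2) P Q) (TT c a b d P Q) := by
  have s0 := (w_sum k0_sum (ind_le c a b d)).hasSum
  have s1 := (w_sum k1_sum (ind_le c a b d)).hasSum
  have s2 := (w_sum k2_sum (ind_le c a b d)).hasSum
  have h := ((s0.mul_left (P ^ 2)).add (s1.mul_left (P * Q))).add (s2.mul_left (Q ^ 2))
  unfold TT T0 T1 T2
  have e : (fun x : V4 => ind c a b d x * KS (em x.1) (em x.2) P Q) = fun x : V4 =>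
      P ^ 2 * (ind c a b d x * k0 (em x.1) (em x.2)) + P * Q * (ind c a b d x * k1 (em x.1) (em x.2))
        + Q ^ 2 * (ind c a b d x * k2 (em x.1) (em x.2)) := by
    funext x
    rw [KS_eq]
    ring
  rw [e]
  exact h

theorem push {G : V4 → V4} (hG : Function.Injective G) {c : V4 → ℂ} (h1 : ∀ n, c (G n) = 1)
    (h2 : ∀ y, c y ≠ 0 → ∃ n, G n = y) (f : V4 → ℂ) (S : ℂ) :
    HasSum (fun n => f (G n)) S ↔ HasSum (fun y => c y * f y) S := by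
  have h := hG.hasSum_iff (f := fun y => c y * f y) (a := S) (fun y hy => by
    by_contra hne
    have hc : c y ≠ 0 := fun h0 => hne (by simp [h0])
    obtain ⟨n, hn⟩ := h2 y hc
    exact hy ⟨n, hn⟩)
  rw [← h]
  have e : ((fun y => c y * f y) ∘ G) = fun n => f (G n) := by
    funext n
    simp [h1]
  rw [e]

theorem line {ι : ℤ × ℤ → V4} (hι : Function.Injective ι) {c : V4 → ℂ} {L : V4 → Prop}
    [DecidablePred L] (h1 : ∀ s, c (ι s) = 1) (h1' : ∀ s, L (ι s))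
    (h2 : ∀ y, c y ≠ 0 → L y → ∃ s, ι s = y) (f : V4 → ℂ) (S : ℂ) :
    HasSum (fun s => f (ι s)) S ↔ HasSum (fun y => if L y then c y * f y else 0) S := by
  have h := hι.hasSum_iff (f := fun y => if L y then c y * f y else 0) (a := S) (fun y hy => by
    by_contra hne
    have hL : L y := by
      by_contra h0
      exact hne (by simp [h0])
    have hc : c y ≠ 0 := fun h0 => hne (by simp [h0])
    obtain ⟨n, hn⟩ := h2 y hc hL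
    exact hy ⟨n, hn⟩)
  rw [← h]
  have e : ((fun y => if L y then c y * f y else 0) ∘ ι) = fun n => f (ι n) := by
    funext n
    simp [h1, h1']
  rw [e]

end RVS
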